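import Mathlib

open Finset

namespace Pool.Agent.H95.BL

/-- product weight of a point of `Fin n → Ω` -/
def wt {Ω : Type*} (w : Ω → ℝ) {n : ℕ} (x : Fin n → Ω) : ℝ := ∏ i, w (x i)

section Conc

variable {Ω : Type*} [Fintype Ω] [DecidableEq Ω]

omit [Fintype Ω] [DecidableEq Ω] in
lemma wt_nonneg {w : Ω → ℝ} (hw0 : ∀ a, 0 ≤ w a) {n : ℕ} (x : Fin n → Ω) : 0 ≤ wt w x :=
  Finset.prod_nonneg (fun _ _ => hw0 _)

omit [Fintype Ω] [DecidableEq Ω] in
lemma wt_cons (w : Ω → ℝ) {n : ℕ} (a : Ω) (y : Fin n → Ω) :
    wt w (Fin.cons a y : Fin (n + 1) → Ω) = w a * wt w y := by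
  simp [wt, Fin.prod_univ_succ]

omit [DecidableEq Ω] in
lemma sum_cons {n : ℕ} (g : (Fin (n + 1) → Ω) → ℝ) :
    ∑ x, g x = ∑ a : Ω, ∑ y : Fin n → Ω, g (Fin.cons a y) := by
  rw [← Finset.sum_product']
  rw [← (Fin.consEquiv (fun _ : Fin (n + 1) => Ω)).sum_comp]
  rfl

omit [DecidableEq Ω] in
lemma sum_wt {w : Ω → ℝ} (hw1 : ∑ a, w a = 1) (n : ℕ) : ∑ x : Fin n → Ω, wt w x = 1 := by
  simp only [wt]
  classical
  rw [← Fintype.prod_sum (fun (_ : Fin n) a => w a)]
  simp [hw1]

omit [Fintype Ω] in
lemma hamming_cons {n : ℕ} (a b : Ω) (y z : Fin n → Ω) :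
    hammingDist (Fin.cons a y : Fin (n + 1) → Ω) (Fin.cons b z) =
      (if a = b then 0 else 1) + hammingDist y z := by
  unfold hammingDist
  rw [Finset.card_filter, Finset.card_filter, Fin.sum_univ_succ]
  simp only [Fin.cons_zero, Fin.cons_succ]
  split_ifs <;> simp_all

lemma key_ineq {t m : ℝ} : m * (1 + Real.exp t - Real.exp t * m) ≤ Real.exp (t ^ 2 / 4) := by
  have h1 : Real.cosh (t / 2) ≤ Real.exp ((t / 2) ^ 2 / 2) := Real.cosh_le_exp_half_sq _
  have h2 : 0 < Real.cosh (t / 2) := Real.cosh_pos _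
  have h3 : Real.cosh (t / 2) ^ 2 ≤ Real.exp (t ^ 2 / 4) := by
    calc Real.cosh (t / 2) ^ 2 ≤ Real.exp ((t / 2) ^ 2 / 2) ^ 2 := by gcongr
      _ = Real.exp (t ^ 2 / 4) := by rw [← Real.exp_nat_mul]; congr 1; push_cast; ring
  have h4 : Real.cosh (t / 2) ^ 2 * (4 * Real.exp t) = (1 + Real.exp t) ^ 2 := by
    rw [Real.cosh_eq]
    have e1 : Real.exp t = Real.exp (t / 2) * Real.exp (t / 2) := by
      rw [← Real.exp_add]; congr 1; ring
    have e2 : Real.exp (-(t / 2)) * Real.exp (t / 2) = 1 := by
      rw [← Real.exp_add]; simp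
    rw [e1]
    have : ((Real.exp (t / 2) + Real.exp (-(t / 2))) / 2) ^ 2 *
        (4 * (Real.exp (t / 2) * Real.exp (t / 2))) =
        (Real.exp (t / 2) * Real.exp (t / 2) + Real.exp (-(t / 2)) * Real.exp (t / 2)) ^ 2 := by
      ring
    rw [this, e2]
    ring
  have h5 : 0 < Real.exp t := Real.exp_pos t
  have h6 : m * (1 + Real.exp t - Real.exp t * m) ≤ Real.cosh (t / 2) ^ 2 := by
    have h7 : m * (1 + Real.exp t - Real.exp t * m) * (4 * Real.exp t) ≤
        Real.cosh (t / 2) ^ 2 * (4 * Real.exp t) := by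
      rw [h4]
      nlinarith [sq_nonneg (2 * Real.exp t * m - (1 + Real.exp t))]
    exact le_of_mul_le_mul_right h7 (by positivity)
  exact h6.trans h3

/-- Exponential moment of the Hamming distance to a set (Talagrand). -/
theorem hamming_exp {w : Ω → ℝ} (hw0 : ∀ a, 0 ≤ w a) (hw1 : ∑ a, w a = 1) {t : ℝ}
    (ht : 0 ≤ t) : ∀ (n : ℕ) (S : Finset (Fin n → Ω)) (f : (Fin n → Ω) → ℝ),
    (∀ x, ∀ y ∈ S, f x ≤ hammingDist x y) →
    (∑ x ∈ S, wt w x) * ∑ x, wt w x * Real.exp (t * f x) ≤ Real.exp (t ^ 2 / 4) ^ n := by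
  intro n
  induction n with
  | zero =>
    intro S f hf
    rcases S.eq_empty_or_nonempty with hS | ⟨y, hy⟩
    · simp [hS]
    · have h1 : f y ≤ 0 := by simpa using hf y y hy
      have h2 : ∑ x ∈ S, wt w x ≤ 1 := by
        rw [← sum_wt hw1 0]
        exact Finset.sum_le_sum_of_subset_of_nonneg (Finset.subset_univ _)
          (fun _ _ _ => wt_nonneg hw0 _)
      have h3 : ∑ x : Fin 0 → Ω, wt w x * Real.exp (t * f x) ≤ 1 := by
        rw [← sum_wt hw1 0]
        apply Finset.sum_le_sum
        intro x _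
        have : x = y := Subsingleton.elim _ _
        rw [this]
        have h4 : Real.exp (t * f y) ≤ 1 := by
          rw [Real.exp_le_one_iff]
          exact mul_nonpos_of_nonneg_of_nonpos ht h1
        have := wt_nonneg hw0 y
        nlinarith
      have h4 : 0 ≤ ∑ x : Fin 0 → Ω, wt w x * Real.exp (t * f x) :=
        Finset.sum_nonneg (fun x _ => mul_nonneg (wt_nonneg hw0 x) (Real.exp_pos _).le)
      rw [pow_zero]
      exact mul_le_one₀ h2 h4 h3
  | succ n ih =>
    intro S f hf
    classical
    set Sec : Ω → Finset (Fin n → Ω) := fun a => Finset.univ.filter (fun y =>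
      (Fin.cons a y : Fin (n + 1) → Ω) ∈ S) with hSec
    set B : Finset (Fin n → Ω) := Finset.univ.filter (fun y => ∃ a,
      (Fin.cons a y : Fin (n + 1) → Ω) ∈ S) with hB
    set P : Ω → ℝ := fun a => ∑ y ∈ Sec a, wt w y with hP
    set PB : ℝ := ∑ y ∈ B, wt w y with hPB
    set E : Ω → ℝ := fun a => ∑ y, wt w y * Real.exp (t * f (Fin.cons a y)) with hE
    have hPS : ∑ x ∈ S, wt w x = ∑ a, w a * P a := by
      have h1 : ∑ x ∈ S, wt w x = ∑ x, if x ∈ S then wt w x else 0 := by
        rw [← Finset.sum_filter]; congr 1; ext; simp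
      rw [h1, sum_cons]
      apply Finset.sum_congr rfl
      intro a _
      simp only [hP, hSec]
      rw [Finset.mul_sum, Finset.sum_filter]
      apply Finset.sum_congr rfl
      intro y _
      rw [wt_cons]
    have hES : ∑ x, wt w x * Real.exp (t * f x) = ∑ a, w a * E a := by
      rw [sum_cons]
      apply Finset.sum_congr rfl
      intro a _
      simp only [hE]
      rw [Finset.mul_sum]
      apply Finset.sum_congr rfl
      intro y _
      rw [wt_cons]
      ring
    have hPle : ∀ a, P a ≤ PB := by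
      intro a
      apply Finset.sum_le_sum_of_subset_of_nonneg
      · intro y hy
        simp only [hSec, hB, Finset.mem_filter, Finset.mem_univ, true_and] at hy ⊢
        exact ⟨a, hy⟩
      · intro _ _ _; exact wt_nonneg hw0 _
    have hP0 : ∀ a, 0 ≤ P a := fun a => Finset.sum_nonneg (fun _ _ => wt_nonneg hw0 _)
    have hE0 : ∀ a, 0 ≤ E a := fun a =>
      Finset.sum_nonneg (fun _ _ => mul_nonneg (wt_nonneg hw0 _) (Real.exp_pos _).le)
    have hPB0 : 0 ≤ PB := Finset.sum_nonneg (fun _ _ => wt_nonneg hw0 _)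
    set A : ℝ := Real.exp (t ^ 2 / 4) ^ n with hA
    have hApos : 0 < A := by positivity
    have ha : ∀ a, P a * E a ≤ A := by
      intro a
      apply ih (Sec a) (fun y => f (Fin.cons a y))
      intro y z hz
      simp only [hSec, Finset.mem_filter, Finset.mem_univ, true_and] at hz
      have := hf (Fin.cons a y) _ hz
      rw [hamming_cons] at this
      simpa using this
    have hb : ∀ a, PB * E a ≤ A * Real.exp t := by
      intro a
      have h1 := ih B (fun y => f (Fin.cons a y) - 1) (by
        intro y z hz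
        simp only [hB, Finset.mem_filter, Finset.mem_univ, true_and] at hz
        obtain ⟨b, hb⟩ := hz
        have h2 := hf (Fin.cons a y) _ hb
        rw [hamming_cons] at h2
        push_cast at h2
        split_ifs at h2 <;> linarith)
      have h2 : ∑ x, wt w x * Real.exp (t * (f (Fin.cons a x) - 1)) = E a * Real.exp (-t) := by
        simp only [hE]
        rw [Finset.sum_mul]
        apply Finset.sum_congr rfl
        intro y _
        rw [mul_assoc, ← Real.exp_add]
        congr 2
        ring
      rw [h2] at h1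
      have h3 : PB * E a = (PB * (E a * Real.exp (-t))) * Real.exp t := by
        have : Real.exp (-t) * Real.exp t = 1 := by rw [← Real.exp_add]; simp
        calc PB * E a = PB * E a * (Real.exp (-t) * Real.exp t) := by rw [this, mul_one]
          _ = _ := by ring
      rw [h3]
      exact mul_le_mul_of_nonneg_right h1 (Real.exp_pos t).le
    rw [hPS, hES, pow_succ, ← hA]
    rcases hPB0.eq_or_lt with h0 | hPBpos
    · have : ∀ a, P a = 0 := fun a => le_antisymm (h0 ▸ hPle a) (hP0 a)
      simp only [this, mul_zero, Finset.sum_const_zero, zero_mul]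
      positivity
    · -- main case
      set m : ℝ := (∑ a, w a * P a) / PB with hm
      have hEa : ∀ a, E a ≤ A / PB * (1 + Real.exp t - Real.exp t * (P a / PB)) := by
        intro a
        set g := P a / PB with hg
        have hg1 : g ≤ 1 := by rw [hg, div_le_one hPBpos]; exact hPle a
        have hg0 : 0 ≤ g := div_nonneg (hP0 a) hPBpos.le
        have het : 0 < Real.exp t := Real.exp_pos t
        by_cases hge : Real.exp t * g ≤ 1
        · have h1 : E a ≤ A / PB * Real.exp t := by
            rw [div_mul_eq_mul_div, le_div_iff₀ hPBpos]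
            have := hb a
            linarith
          refine h1.trans ?_
          apply mul_le_mul_of_nonneg_left _ (by positivity)
          linarith
        · push Not at hge
          have hgpos : 0 < g := by
            by_contra hcon
            push Not at hcon
            nlinarith
          have hPa : P a = g * PB := by rw [hg]; field_simp
          have h1 : E a ≤ A / PB * (1 / g) := by
            rw [div_mul_div_comm, mul_one, le_div_iff₀ (by positivity)]
            have := ha a
            rw [hPa] at this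
            linarith
          refine h1.trans ?_
          apply mul_le_mul_of_nonneg_left _ (by positivity)
          rw [div_le_iff₀ hgpos]
          nlinarith
      have hsumE : ∑ a, w a * E a ≤ A / PB * (1 + Real.exp t - Real.exp t * m) := by
        calc ∑ a, w a * E a ≤
            ∑ a, w a * (A / PB * (1 + Real.exp t - Real.exp t * (P a / PB))) :=
              Finset.sum_le_sum (fun a _ => mul_le_mul_of_nonneg_left (hEa a) (hw0 a))
          _ = A / PB * (1 + Real.exp t - Real.exp t * m) := by
              have h1 : ∀ a, w a * (A / PB * (1 + Real.exp t - Real.exp t * (P a / PB))) =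
                  A / PB * (1 + Real.exp t) * w a - A / PB * Real.exp t / PB * (w a * P a) := by
                intro a; ring
              simp only [h1]
              rw [Finset.sum_sub_distrib, ← Finset.mul_sum, ← Finset.mul_sum, hw1, hm]
              ring
      have hm2 : ∑ a, w a * P a = m * PB := by rw [hm]; field_simp
      have hm0 : 0 ≤ m := by
        rw [hm]
        exact div_nonneg (Finset.sum_nonneg (fun a _ => mul_nonneg (hw0 a) (hP0 a))) hPBpos.le
      rw [hm2]
      calc m * PB * ∑ a, w a * E a ≤ m * PB * (A / PB * (1 + Real.exp t - Real.exp t * m)) :=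
            mul_le_mul_of_nonneg_left hsumE (by positivity)
        _ = A * (m * (1 + Real.exp t - Real.exp t * m)) := by field_simp
        _ ≤ A * Real.exp (t ^ 2 / 4) := mul_le_mul_of_nonneg_left key_ineq hApos.le

/-- Hamming concentration: the weight of the points at distance at least `s` from `S`. -/
theorem hamming_conc {w : Ω → ℝ} (hw0 : ∀ a, 0 ≤ w a) (hw1 : ∑ a, w a = 1) {n : ℕ}
    (hn : 0 < n) (S : Finset (Fin n → Ω)) {s : ℝ} (hs : 0 ≤ s) (T : Finset (Fin n → Ω))
    (hT : ∀ x ∈ T, ∀ y ∈ S, s ≤ hammingDist x y) :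
    (∑ x ∈ S, wt w x) * (∑ x ∈ T, wt w x) ≤ Real.exp (-(s ^ 2 / n)) := by
  classical
  have hnpos : (0 : ℝ) < n := by exact_mod_cast hn
  set t : ℝ := 2 * s / n with ht
  have ht0 : 0 ≤ t := by positivity
  have h1 := hamming_exp hw0 hw1 ht0 n S (fun x => if x ∈ T then s else 0) (by
    intro x y hy
    split_ifs with hx
    · exact hT x hx y hy
    · positivity)
  have h2 : (∑ x ∈ T, wt w x) * Real.exp (t * s) ≤
      ∑ x, wt w x * Real.exp (t * (if x ∈ T then s else 0)) := by
    rw [Finset.sum_mul]
    calc ∑ x ∈ T, wt w x * Real.exp (t * s) =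
        ∑ x ∈ T, wt w x * Real.exp (t * (if x ∈ T then s else 0)) := by
          apply Finset.sum_congr rfl
          intro x hx
          rw [if_pos hx]
      _ ≤ _ := Finset.sum_le_sum_of_subset_of_nonneg (Finset.subset_univ _)
          (fun x _ _ => mul_nonneg (wt_nonneg hw0 x) (Real.exp_pos _).le)
  have h3 : 0 ≤ ∑ x ∈ S, wt w x := Finset.sum_nonneg (fun _ _ => wt_nonneg hw0 _)
  have h4 : (∑ x ∈ S, wt w x) * ((∑ x ∈ T, wt w x) * Real.exp (t * s)) ≤
      Real.exp (t ^ 2 / 4) ^ n := (mul_le_mul_of_nonneg_left h2 h3).trans h1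
  have h5 : Real.exp (t ^ 2 / 4) ^ n = Real.exp (s ^ 2 / n) := by
    rw [← Real.exp_nat_mul]
    congr 1
    rw [ht]
    field_simp
    ring
  have h6 : Real.exp (t * s) = Real.exp (s ^ 2 / n) * Real.exp (s ^ 2 / n) := by
    rw [← Real.exp_add]
    congr 1
    rw [ht]
    field_simp
    ring
  rw [h5, h6] at h4
  have h7 : 0 < Real.exp (s ^ 2 / n) := Real.exp_pos _
  rw [Real.exp_neg, ← one_div, le_div_iff₀ h7]
  have h8 : (∑ x ∈ S, wt w x) * (∑ x ∈ T, wt w x) * Real.exp (s ^ 2 / n) *
      Real.exp (s ^ 2 / n) ≤ 1 * Real.exp (s ^ 2 / n) := by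
    rw [one_mul]
    calc _ = (∑ x ∈ S, wt w x) * ((∑ x ∈ T, wt w x) *
        (Real.exp (s ^ 2 / n) * Real.exp (s ^ 2 / n))) := by ring
      _ ≤ _ := h4
  exact le_of_mul_le_mul_right h8 h7

end Conc

end Pool.Agent.H95.BL
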