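import Mathlib
import Pool.Agent.H95.BL.Conc

open Finset

namespace Pool.Agent.H95.BL

/-- sample space: a Boolean for every ordered pair -/
abbrev Sp (n : ℕ) := Fin n → Fin n → Bool

/-- Bernoulli weight of one row -/
def bw (p : ℝ) {m : ℕ} (y : Fin m → Bool) : ℝ := ∏ u, (if y u then p else 1 - p)

lemma bw_nonneg {p : ℝ} (hp0 : 0 ≤ p) (hp1 : p ≤ 1) {m : ℕ} (y : Fin m → Bool) : 0 ≤ bw p y := by
  apply Finset.prod_nonneg
  intro u _
  split_ifs <;> linarith

lemma sum_bw (p : ℝ) (m : ℕ) : ∑ y : Fin m → Bool, bw p y = 1 := by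
  simp only [bw]
  rw [← Fintype.prod_sum (fun (_ : Fin m) (b : Bool) => if b then p else 1 - p)]
  simp

open Classical in
/-- probability of an event in the independent-edges model -/
noncomputable def Pr (p : ℝ) {n : ℕ} (Q : Sp n → Prop) : ℝ := ∑ x with Q x, wt (bw p) x

section

variable {p : ℝ} {n : ℕ}

lemma Pr_eq_sum_ite (Q : Sp n → Prop) [DecidablePred Q] :
    Pr p Q = ∑ x, if Q x then wt (bw p) x else 0 := by
  unfold Pr
  rw [Finset.sum_filter]
  apply Finset.sum_congr rfl
  intro x _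
  by_cases h : Q x <;> simp [h]

lemma Pr_nonneg (hp0 : 0 ≤ p) (hp1 : p ≤ 1) (Q : Sp n → Prop) : 0 ≤ Pr p Q :=
  Finset.sum_nonneg (fun x _ => wt_nonneg (bw_nonneg hp0 hp1) x)

lemma Pr_mono (hp0 : 0 ≤ p) (hp1 : p ≤ 1) {Q R : Sp n → Prop} (h : ∀ x, Q x → R x) :
    Pr p Q ≤ Pr p R := by
  classical
  apply Finset.sum_le_sum_of_subset_of_nonneg
  · intro x hx
    simp only [Finset.mem_filter, Finset.mem_univ, true_and] at hx ⊢
    exact h x hx
  · intro x _ _; exact wt_nonneg (bw_nonneg hp0 hp1) x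

lemma Pr_true : Pr p (fun _ : Sp n => True) = 1 := by
  classical
  rw [Pr_eq_sum_ite]
  simp only [if_true]
  exact sum_wt (sum_bw p n) n

lemma Pr_le_one (hp0 : 0 ≤ p) (hp1 : p ≤ 1) (Q : Sp n → Prop) : Pr p Q ≤ 1 := by
  rw [← Pr_true (p := p) (n := n)]
  exact Pr_mono hp0 hp1 (fun _ _ => trivial)

lemma Pr_add_not (Q : Sp n → Prop) : Pr p Q + Pr p (fun x => ¬ Q x) = 1 := by
  classical
  rw [← Pr_true (p := p) (n := n), Pr_eq_sum_ite, Pr_eq_sum_ite, Pr_eq_sum_ite,
    ← Finset.sum_add_distrib]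
  apply Finset.sum_congr rfl
  intro x _
  by_cases h : Q x <;> simp [h]

lemma Pr_or_le (hp0 : 0 ≤ p) (hp1 : p ≤ 1) (Q R : Sp n → Prop) :
    Pr p (fun x => Q x ∨ R x) ≤ Pr p Q + Pr p R := by
  classical
  rw [Pr_eq_sum_ite, Pr_eq_sum_ite, Pr_eq_sum_ite, ← Finset.sum_add_distrib]
  apply Finset.sum_le_sum
  intro x _
  have := wt_nonneg (bw_nonneg hp0 hp1) x
  by_cases h : Q x <;> by_cases h' : R x <;> simp [h, h', this]

lemma Pr_exists_le (hp0 : 0 ≤ p) (hp1 : p ≤ 1) {ι : Type*} (s : Finset ι)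
    (Q : ι → Sp n → Prop) :
    Pr p (fun x => ∃ i ∈ s, Q i x) ≤ ∑ i ∈ s, Pr p (Q i) := by
  classical
  induction s using Finset.induction_on with
  | empty =>
    simp only [Finset.notMem_empty, false_and, exists_false, Finset.sum_empty]
    rw [Pr_eq_sum_ite]; simp
  | insert a s ha ih =>
    rw [Finset.sum_insert ha]
    calc Pr p (fun x => ∃ i ∈ insert a s, Q i x)
        ≤ Pr p (fun x => Q a x ∨ ∃ i ∈ s, Q i x) := by
          apply Pr_mono hp0 hp1
          intro x hx
          obtain ⟨i, hi, hQ⟩ := hx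
          rcases Finset.mem_insert.1 hi with rfl | hi
          · exact Or.inl hQ
          · exact Or.inr ⟨i, hi, hQ⟩
      _ ≤ _ := (Pr_or_le hp0 hp1 _ _).trans (by linarith)

/-- probability of a cylinder event -/
lemma Pr_cylinder (F : Finset (Fin n × Fin n)) (b : Fin n × Fin n → Bool) :
    Pr p (fun x : Sp n => ∀ e ∈ F, x e.1 e.2 = b e) =
      ∏ e ∈ F, (if b e then p else 1 - p) := by
  classical
  rw [Pr_eq_sum_ite]
  have h1 : ∀ x : Sp n, (if (∀ e ∈ F, x e.1 e.2 = b e) then wt (bw p) x else 0) =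
      ∏ v, ∏ u, (if (v, u) ∈ F then (if x v u = b (v, u) then (if x v u then p else 1 - p) else 0)
        else (if x v u then p else 1 - p)) := by
    intro x
    split_ifs with h
    · simp only [wt, bw]
      apply Finset.prod_congr rfl; intro v _
      apply Finset.prod_congr rfl; intro u _
      by_cases h1 : (v, u) ∈ F
      · simp [h1, h (v, u) h1]
      · simp [h1]
    · push Not at h
      obtain ⟨e, he, hne⟩ := h
      symm
      apply Finset.prod_eq_zero (Finset.mem_univ e.1)
      apply Finset.prod_eq_zero (Finset.mem_univ e.2)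
      simp [he, hne]
  simp only [h1]
  rw [← Fintype.prod_sum (fun (v : Fin n) (y : Fin n → Bool) => ∏ u, (if (v, u) ∈ F then
    (if y u = b (v, u) then (if y u then p else 1 - p) else 0)
        else (if y u then p else 1 - p)))]
  have h2 : ∀ v : Fin n, ∑ y : Fin n → Bool, ∏ u, (if (v, u) ∈ F then
      (if y u = b (v, u) then (if y u then p else 1 - p) else 0)
        else (if y u then p else 1 - p)) =
      ∏ u, (if (v, u) ∈ F then (if b (v, u) then p else 1 - p) else 1) := by
    intro v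
    rw [← Fintype.prod_sum (fun (u : Fin n) (c : Bool) => (if (v, u) ∈ F then
      (if c = b (v, u) then (if c then p else 1 - p) else 0)
        else (if c then p else 1 - p)))]
    apply Finset.prod_congr rfl
    intro u _
    by_cases h : (v, u) ∈ F
    · simp only [h, if_true]
      cases b (v, u) <;> simp
    · simp [h]
  simp only [h2]
  rw [← Finset.prod_product']
  rw [← Finset.prod_filter_mul_prod_filter_not (Finset.univ ×ˢ Finset.univ) (fun e => e ∈ F)]
  have h3 : ∀ e ∈ (Finset.univ ×ˢ Finset.univ : Finset (Fin n × Fin n)).filter (fun e => ¬ e ∈ F),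
      (if (e.1, e.2) ∈ F then (if b (e.1, e.2) then p else 1 - p) else 1) = 1 := by
    intro e he
    simp only [Finset.mem_filter] at he
    simp [he.2]
  rw [Finset.prod_eq_one h3, mul_one]
  have h4 : (Finset.univ ×ˢ Finset.univ : Finset (Fin n × Fin n)).filter (fun e => e ∈ F) = F := by
    ext e; simp
  rw [h4]
  apply Finset.prod_congr rfl
  intro e he
  simp [he]

/-- probability that no pair of `F` is present -/
lemma Pr_none (F : Finset (Fin n × Fin n)) :
    Pr p (fun x : Sp n => ∀ e ∈ F, x e.1 e.2 = false) = (1 - p) ^ F.card := by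
  rw [Pr_cylinder F (fun _ => false)]
  simp

/-- probability that all pairs of `F` are present -/
lemma Pr_all (F : Finset (Fin n × Fin n)) :
    Pr p (fun x : Sp n => ∀ e ∈ F, x e.1 e.2 = true) = p ^ F.card := by
  rw [Pr_cylinder F (fun _ => true)]
  simp

/-- Cauchy-Schwarz lower bound for the probability that a counting variable is positive. -/
lemma second_moment (hp0 : 0 ≤ p) (hp1 : p ≤ 1) {ι : Type*} (s : Finset ι)
    (Q : ι → Sp n → Prop) :
    (∑ i ∈ s, Pr p (Q i)) ^ 2 ≤
      Pr p (fun x => ∃ i ∈ s, Q i x) *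
        ∑ i ∈ s, ∑ j ∈ s, Pr p (fun x => Q i x ∧ Q j x) := by
  classical
  set Z : Sp n → ℝ := fun x => ∑ i ∈ s, if Q i x then 1 else 0 with hZ
  have hZ0 : ∀ x, 0 ≤ Z x := fun x => Finset.sum_nonneg (fun i _ => by split_ifs <;> norm_num)
  have h1 : ∑ i ∈ s, Pr p (Q i) = ∑ x, wt (bw p) x * Z x := by
    simp only [hZ, Finset.mul_sum]
    rw [Finset.sum_comm]
    apply Finset.sum_congr rfl
    intro i _
    rw [Pr_eq_sum_ite]
    apply Finset.sum_congr rfl
    intro x _
    by_cases h : Q i x <;> simp [h]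
  have h2 : ∑ i ∈ s, ∑ j ∈ s, Pr p (fun x => Q i x ∧ Q j x) = ∑ x, wt (bw p) x * Z x ^ 2 := by
    have hZ2 : ∀ x, wt (bw p) x * Z x ^ 2 = ∑ i ∈ s, ∑ j ∈ s, wt (bw p) x *
        ((if Q i x then 1 else 0) * (if Q j x then 1 else 0)) := by
      intro x
      rw [sq, hZ, Finset.sum_mul_sum, Finset.mul_sum]
      apply Finset.sum_congr rfl
      intro i _
      rw [Finset.mul_sum]
    simp only [hZ2]
    rw [Finset.sum_comm (s := Finset.univ)]
    apply Finset.sum_congr rfl
    intro i _
    rw [Finset.sum_comm (s := Finset.univ)]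
    apply Finset.sum_congr rfl
    intro j _
    rw [Pr_eq_sum_ite]
    apply Finset.sum_congr rfl
    intro x _
    by_cases h : Q i x <;> by_cases h' : Q j x <;> simp [h, h']
  have h3 : ∑ x, wt (bw p) x * Z x = ∑ x, (Real.sqrt (wt (bw p) x) *
      (if ∃ i ∈ s, Q i x then 1 else 0)) * (Real.sqrt (wt (bw p) x) * Z x) := by
    apply Finset.sum_congr rfl
    intro x _
    have hw := wt_nonneg (bw_nonneg hp0 hp1) x
    by_cases h : ∃ i ∈ s, Q i x
    · simp only [h, if_true, mul_one]
      rw [← mul_assoc, Real.mul_self_sqrt hw]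
    · have : Z x = 0 := by
        simp only [hZ]
        apply Finset.sum_eq_zero
        intro i hi
        rw [if_neg]
        intro hQ
        exact h ⟨i, hi, hQ⟩
      simp [this]
  rw [h1, h2, h3]
  refine (Finset.sum_mul_sq_le_sq_mul_sq _ _ _).trans ?_
  apply le_of_eq
  congr 1
  · rw [Pr_eq_sum_ite]
    apply Finset.sum_congr rfl
    intro x _
    have hw := wt_nonneg (bw_nonneg hp0 hp1) x
    rw [mul_pow, Real.sq_sqrt hw]
    split_ifs <;> simp
  · apply Finset.sum_congr rfl
    intro x _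
    have hw := wt_nonneg (bw_nonneg hp0 hp1) x
    rw [mul_pow, Real.sq_sqrt hw]

/-- Concentration in the vertex exposure: if `S` has positive probability, then most points are
within Hamming distance `s` of `S`. -/
lemma Pr_far (hp0 : 0 ≤ p) (hp1 : p ≤ 1) (hn : 0 < n) (S : Sp n → Prop) {s : ℝ} (hs : 0 ≤ s) :
    Pr p S * Pr p (fun x => ∀ y, S y → s ≤ hammingDist x y) ≤ Real.exp (-(s ^ 2 / n)) := by
  classical
  have h := hamming_conc (bw_nonneg hp0 hp1) (sum_bw p n) hn
    (Finset.univ.filter (fun x : Sp n => S x)) hs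
    (Finset.univ.filter (fun x : Sp n => ∀ y, S y → s ≤ hammingDist x y)) (by
      intro x hx y hy
      simp only [Finset.mem_filter, Finset.mem_univ, true_and] at hx hy
      exact hx y hy)
  unfold Pr
  convert h

end

end Pool.Agent.H95.BL
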