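import Mathlib
import Pool.Agent.H95.BL.Prob

open Finset

namespace Pool.Agent.H95.BL

/-- number of vertices with colour `i` -/
def cls {n : ℕ} {ι : Type*} [DecidableEq ι] (c : Fin n → ι) (i : ι) : Finset (Fin n) :=
  Finset.univ.filter (fun v => c v = i)

/-- the (ordered, decreasing) monochromatic pairs -/
def mono {n : ℕ} {ι : Type*} [DecidableEq ι] (c : Fin n → ι) : Finset (Fin n × Fin n) :=
  Finset.univ.filter (fun e => e.2 < e.1 ∧ c e.1 = c e.2)

lemma mem_cls {n : ℕ} {ι : Type*} [DecidableEq ι] {c : Fin n → ι} {i : ι} {v : Fin n} :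
    v ∈ cls c i ↔ c v = i := by simp [cls]

lemma mem_mono {n : ℕ} {ι : Type*} [DecidableEq ι] {c : Fin n → ι} {e : Fin n × Fin n} :
    e ∈ mono c ↔ e.2 < e.1 ∧ c e.1 = c e.2 := by simp [mono]

lemma sum_cls {n : ℕ} {ι : Type*} [Fintype ι] [DecidableEq ι] (c : Fin n → ι) :
    ∑ i, (cls c i).card = n := by
  have := Finset.card_eq_sum_card_fiberwise (s := (Finset.univ : Finset (Fin n)))
    (t := (Finset.univ : Finset ι)) (f := c) (fun _ _ => Finset.mem_coe.2 (Finset.mem_univ _))
  simpa [cls] using this.symm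

lemma two_card_mono {n : ℕ} {ι : Type*} [Fintype ι] [DecidableEq ι] (c : Fin n → ι) :
    2 * (mono c).card + n = ∑ i, (cls c i).card ^ 2 := by
  -- count all pairs with equal colours
  set A : Finset (Fin n × Fin n) := Finset.univ.filter (fun e => c e.1 = c e.2) with hA
  have h1 : A.card = ∑ i, (cls c i).card ^ 2 := by
    rw [Finset.card_eq_sum_card_fiberwise (t := (Finset.univ : Finset ι))
      (f := fun e : Fin n × Fin n => c e.1) (fun _ _ => Finset.mem_coe.2 (Finset.mem_univ _))]
    apply Finset.sum_congr rfl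
    intro i _
    have : (A.filter (fun e => c e.1 = i)) = cls c i ×ˢ cls c i := by
      ext e
      simp only [hA, Finset.mem_filter, Finset.mem_univ, true_and, Finset.mem_product, mem_cls]
      constructor
      · rintro ⟨h1, h2⟩; exact ⟨h2, h1 ▸ h2⟩
      · rintro ⟨h1, h2⟩; exact ⟨h1.trans h2.symm, h1⟩
    rw [this, Finset.card_product, sq]
  have h2 : A = (mono c) ∪ ((mono c).map (Equiv.prodComm (Fin n) (Fin n)).toEmbedding) ∪
      (Finset.univ.filter (fun e : Fin n × Fin n => e.1 = e.2)) := by
    ext ⟨a, b⟩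
    simp only [hA, Finset.mem_filter, Finset.mem_univ, true_and, Finset.mem_union, mem_mono,
      Finset.mem_map, Equiv.coe_toEmbedding, Equiv.prodComm_apply, Prod.exists, Prod.swap_prod_mk,
      Prod.mk.injEq]
    constructor
    · intro h
      rcases lt_trichotomy a b with h1 | h1 | h1
      · left; right; exact ⟨b, a, ⟨h1, h.symm⟩, rfl, rfl⟩
      · right; exact h1
      · left; left; exact ⟨h1, h⟩
    · rintro ((h | ⟨x, y, h, rfl, rfl⟩) | h)
      · exact h.2
      · exact h.2.symm
      · rw [h]
  have h3 : (Finset.univ.filter (fun e : Fin n × Fin n => e.1 = e.2)).card = n := by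
    have : (Finset.univ.filter (fun e : Fin n × Fin n => e.1 = e.2)) =
        (Finset.univ : Finset (Fin n)).diag := by
      ext ⟨a, b⟩
      simp [Finset.mem_diag]
    rw [this, Finset.diag_card, Finset.card_univ, Fintype.card_fin]
  rw [← h1, h2, Finset.card_union_of_disjoint, Finset.card_union_of_disjoint, Finset.card_map, h3]
  · ring
  · rw [Finset.disjoint_left]
    rintro ⟨a, b⟩ h4 h5
    simp only [mem_mono, Finset.mem_map, Equiv.coe_toEmbedding, Equiv.prodComm_apply,
      Prod.exists, Prod.swap_prod_mk, Prod.mk.injEq] at h4 h5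
    obtain ⟨x, y, h, rfl, rfl⟩ := h5
    exact absurd h4.1 (not_lt.2 h.1.le)
  · rw [Finset.disjoint_left]
    rintro ⟨a, b⟩ h4 h5
    simp only [Finset.mem_union, mem_mono, Finset.mem_map, Equiv.coe_toEmbedding,
      Equiv.prodComm_apply, Prod.exists, Prod.swap_prod_mk, Prod.mk.injEq, Finset.mem_filter,
      Finset.mem_univ, true_and] at h4 h5
    rcases h4 with h | ⟨x, y, h, rfl, rfl⟩
    · exact absurd h5 h.1.ne'
    · exact absurd h5 h.1.ne

/-- balanced colourings -/
def Bal {n k : ℕ} (N : ℕ) (c : Fin n → Fin k) : Prop := ∀ i, (cls c i).card = N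

instance {n k N : ℕ} : DecidablePred (Bal (n := n) (k := k) N) := fun c =>
  inferInstanceAs (Decidable (∀ i, (cls c i).card = N))

/-- the row inequality -/
lemma row_ineq {k N : ℕ} (hN : 0 < N) (m : Fin k → ℕ) (hm : ∑ j, m j = N) {q : ℝ} (hq : 1 ≤ q) :
    ∑ j, q ^ (((m j : ℝ) - 1) / 2) ≤ (k : ℝ) - 1 + q ^ ((N : ℝ) / 2) := by
  have hNpos : (0 : ℝ) < N := by exact_mod_cast hN
  have hq0 : 0 < q := by linarith
  set Q : ℝ := q ^ ((N : ℝ) / 2) with hQ
  have hQ1 : 1 ≤ Q := Real.one_le_rpow hq (by positivity)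
  have h1 : ∀ j, q ^ (((m j : ℝ) - 1) / 2) ≤ 1 + (m j : ℝ) / N * (Q - 1) := by
    intro j
    have hle : (m j : ℝ) ≤ N := by
      have : m j ≤ N := by
        rw [← hm]; exact Finset.single_le_sum (fun _ _ => Nat.zero_le _) (Finset.mem_univ j)
      exact_mod_cast this
    calc q ^ (((m j : ℝ) - 1) / 2) ≤ q ^ ((m j : ℝ) / 2) :=
          Real.rpow_le_rpow_of_exponent_le hq (by linarith)
      _ = (1 + (Q - 1)) ^ ((m j : ℝ) / N) := by
          rw [add_sub_cancel, hQ, ← Real.rpow_mul hq0.le]
          congr 1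
          field_simp
      _ ≤ 1 + (m j : ℝ) / N * (Q - 1) := by
          apply rpow_one_add_le_one_add_mul_self (by linarith)
          · positivity
          · rw [div_le_one hNpos]; exact hle
  calc ∑ j, q ^ (((m j : ℝ) - 1) / 2) ≤ ∑ j, (1 + (m j : ℝ) / N * (Q - 1)) :=
        Finset.sum_le_sum (fun j _ => h1 j)
    _ = k + (∑ j, (m j : ℝ)) / N * (Q - 1) := by
        rw [Finset.sum_add_distrib, ← Finset.sum_mul, ← Finset.sum_div]
        simp
    _ = (k : ℝ) - 1 + Q := by
        have : ∑ j, (m j : ℝ) = N := by exact_mod_cast hm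
        rw [this, div_self hNpos.ne']
        ring

/-- For a fixed balanced colouring, sum over all colourings of the overlap weight. -/
lemma overlap_sum {n k N : ℕ} (hN : 0 < N) (σ : Fin n → Fin k) (hσ : Bal N σ) {q : ℝ}
    (hq : 1 ≤ q) :
    ∑ τ : Fin n → Fin k, q ^ (mono (fun v => (σ v, τ v))).card ≤
      ((N : ℝ) + 1) ^ (k * k) * ((k : ℝ) - 1 + q ^ ((N : ℝ) / 2)) ^ n := by
  classical
  have hq0 : 0 < q := by linarith
  set R : ℝ := (k : ℝ) - 1 + q ^ ((N : ℝ) / 2) with hR
  -- the type matrix
  have hle : ∀ (τ : Fin n → Fin k) (ij : Fin k × Fin k),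
      (cls (fun v => (σ v, τ v)) ij).card ≤ N := by
    intro τ ij
    rw [← hσ ij.1]
    apply Finset.card_le_card
    intro v hv
    rw [mem_cls] at hv ⊢
    rw [← hv]
  set typ : (Fin n → Fin k) → (Fin k × Fin k → Fin (N + 1)) := fun τ ij =>
    ⟨(cls (fun v => (σ v, τ v)) ij).card, Nat.lt_succ_of_le (hle τ ij)⟩ with htyp
  have hR0 : 0 ≤ R ^ n := by
    apply pow_nonneg
    rcases Nat.eq_zero_or_pos k with hk | hk
    · subst hk
      have : (1 : ℝ) ≤ q ^ ((N : ℝ) / 2) := Real.one_le_rpow hq (by positivity)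
      simp only [hR, Nat.cast_zero]; linarith
    · have h1 : (1 : ℝ) ≤ k := by exact_mod_cast hk
      have h2 : (0 : ℝ) < q ^ ((N : ℝ) / 2) := Real.rpow_pos_of_pos hq0 _
      simp only [hR]; linarith
  have hfib : ∀ M : Fin k × Fin k → Fin (N + 1),
      ∑ τ with typ τ = M, q ^ (mono (fun v => (σ v, τ v))).card ≤ R ^ n := by
    intro M
    rcases (Finset.univ.filter (fun τ => typ τ = M)).eq_empty_or_nonempty with he | ⟨τ0, hτ0⟩
    · rw [he]; simpa using hR0
    · simp only [Finset.mem_filter, Finset.mem_univ, true_and] at hτ0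
      -- row sums of M
      have hrow : ∀ i, ∑ j, ((M (i, j) : Fin (N + 1)) : ℕ) = N := by
        intro i
        rw [← hτ0]
        simp only [htyp]
        have h1 : (cls σ i).card = ∑ j, (cls (fun v => (σ v, τ0 v)) (i, j)).card := by
          rw [Finset.card_eq_sum_card_fiberwise (t := (Finset.univ : Finset (Fin k)))
            (f := τ0) (fun _ _ => Finset.mem_coe.2 (Finset.mem_univ _))]
          apply Finset.sum_congr rfl
          intro j _
          congr 1
          ext v
          simp [mem_cls]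
        rw [← h1, hσ i]
      set z : Fin k × Fin k → ℝ := fun ij => q ^ (((((M ij : Fin (N + 1)) : ℕ) : ℝ) - 1) / 2)
        with hz
      have hzpos : ∀ ij, 0 < z ij := fun ij => Real.rpow_pos_of_pos hq0 _
      have h1 : ∀ τ, typ τ = M → q ^ (mono (fun v => (σ v, τ v))).card =
          ∏ v, z (σ v, τ v) := by
        intro τ hτ
        have h2 : ∏ v, z (σ v, τ v) = ∏ ij, z ij ^ (cls (fun v => (σ v, τ v)) ij).card := by
          rw [← Finset.prod_fiberwise (Finset.univ : Finset (Fin n)) (fun v => (σ v, τ v))]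
          apply Finset.prod_congr rfl
          intro ij _
          rw [← Finset.prod_const]
          apply Finset.prod_congr rfl
          intro v hv
          simp only [Finset.mem_filter, Finset.mem_univ, true_and] at hv
          rw [hv]
        rw [h2]
        have h3 : ∀ ij, (((M ij : Fin (N + 1)) : ℕ)) = (cls (fun v => (σ v, τ v)) ij).card := by
          intro ij
          rw [← hτ]
        simp only [hz, h3]
        have h4 : ∀ ij, (q ^ ((((cls (fun v => (σ v, τ v)) ij).card : ℝ) - 1) / 2)) ^
            (cls (fun v => (σ v, τ v)) ij).card =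
            q ^ ((((cls (fun v => (σ v, τ v)) ij).card : ℝ) ^ 2 -
              ((cls (fun v => (σ v, τ v)) ij).card : ℝ)) / 2) := by
          intro ij
          rw [← Real.rpow_natCast (q ^ _), ← Real.rpow_mul hq0.le]
          congr 1
          ring
        simp only [h4]
        rw [← Real.rpow_sum_of_pos hq0, ← Real.rpow_natCast]
        congr 1
        have h5 := two_card_mono (fun v => (σ v, τ v))
        have h6 := sum_cls (fun v => (σ v, τ v))
        have h5' : (2 : ℝ) * (mono (fun v => (σ v, τ v))).card + n =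
            ∑ ij, ((cls (fun v => (σ v, τ v)) ij).card : ℝ) ^ 2 := by exact_mod_cast h5
        have h6' : ∑ ij, ((cls (fun v => (σ v, τ v)) ij).card : ℝ) = n := by exact_mod_cast h6
        rw [← Finset.sum_div, Finset.sum_sub_distrib, h6', ← h5']
        ring
      calc ∑ τ with typ τ = M, q ^ (mono (fun v => (σ v, τ v))).card
          = ∑ τ with typ τ = M, ∏ v, z (σ v, τ v) := by
            apply Finset.sum_congr rfl
            intro τ hτ
            simp only [Finset.mem_filter, Finset.mem_univ, true_and] at hτ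
            exact h1 τ hτ
        _ ≤ ∑ τ : Fin n → Fin k, ∏ v, z (σ v, τ v) := by
            apply Finset.sum_le_sum_of_subset_of_nonneg (Finset.subset_univ _)
            intro τ _ _
            exact Finset.prod_nonneg (fun v _ => (hzpos _).le)
        _ = ∏ v, ∑ j, z (σ v, j) := by
            rw [← Fintype.prod_sum (fun (v : Fin n) (j : Fin k) => z (σ v, j))]
        _ ≤ ∏ v : Fin n, R := by
            apply Finset.prod_le_prod
            · intro v _
              exact Finset.sum_nonneg (fun j _ => (hzpos _).le)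
            · intro v _
              simp only [hz]
              exact row_ineq hN (fun j => ((M (σ v, j) : Fin (N + 1)) : ℕ)) (hrow (σ v)) hq
        _ = R ^ n := by simp
  rw [← Finset.sum_fiberwise (Finset.univ : Finset (Fin n → Fin k)) typ]
  calc ∑ M, ∑ τ with typ τ = M, q ^ (mono (fun v => (σ v, τ v))).card
      ≤ ∑ M : Fin k × Fin k → Fin (N + 1), R ^ n := Finset.sum_le_sum (fun M _ => hfib M)
    _ = ((N : ℝ) + 1) ^ (k * k) * R ^ n := by
        rw [Finset.sum_const, Finset.card_univ, Fintype.card_pi]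
        simp

end Pool.Agent.H95.BL
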