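import Mathlib
import Pool.Agent.H95.BL.Moment

open Finset

namespace Pool.Agent.H95.BL

/-- the finite set of balanced colourings -/
def Fbal (n k N : ℕ) : Finset (Fin n → Fin k) := Finset.univ.filter (fun c => Bal N c)

lemma mem_Fbal {n k N : ℕ} {c : Fin n → Fin k} : c ∈ Fbal n k N ↔ Bal N c := by simp [Fbal]

lemma bal_of_equiv {n k N : ℕ} (e : Fin k × Fin N ≃ Fin n) :
    Bal N (fun v : Fin n => (e.symm v).1) := by
  intro i
  have : cls (fun v : Fin n => (e.symm v).1) i =
      (Finset.univ : Finset (Fin N)).image (fun j => e (i, j)) := by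
    ext v
    simp only [mem_cls, Finset.mem_image, Finset.mem_univ, true_and]
    constructor
    · intro h
      refine ⟨(e.symm v).2, ?_⟩
      rw [← h]
      exact e.apply_symm_apply v
    · rintro ⟨j, rfl⟩
      simp
  rw [this, Finset.card_image_of_injective]
  · simp
  · intro a b h
    simpa using h

lemma exists_bal (k N : ℕ) : ∃ σ : Fin (k * N) → Fin k, Bal N σ :=
  ⟨_, bal_of_equiv finProdFinEquiv⟩

lemma factorial_le_card_bal {n k N : ℕ} (hn : n = k * N) :
    n.factorial ≤ (Fbal n k N).card * N.factorial ^ k := by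
  classical
  subst hn
  obtain ⟨σ0, hσ0⟩ := exists_bal k N
  have h1 : Fintype.card {g : Equiv.Perm (Fin (k * N)) // σ0 ∘ g = σ0} = N.factorial ^ k := by
    rw [DomMulAct.stabilizer_card]
    have : ∀ i, Fintype.card {a // σ0 a = i} = N := by
      intro i
      rw [Fintype.card_subtype]
      exact hσ0 i
    simp [this]
  have h2 : (k * N).factorial = (Finset.univ : Finset (Equiv.Perm (Fin (k * N)))).card := by
    rw [Finset.card_univ, Fintype.card_perm, Fintype.card_fin]
  rw [h2]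
  rw [Finset.card_eq_sum_card_fiberwise (s := (Finset.univ : Finset (Equiv.Perm (Fin (k * N)))))
    (t := Fbal (k * N) k N) (f := fun g : Equiv.Perm (Fin (k * N)) => σ0 ∘ g)]
  · refine le_trans (Finset.sum_le_card_nsmul _ _ (N.factorial ^ k) ?_) (le_of_eq ?_)
    swap
    · rw [smul_eq_mul]
    intro τ _
    rcases (Finset.univ.filter
      (fun g : Equiv.Perm (Fin (k * N)) => σ0 ∘ g = τ)).eq_empty_or_nonempty with he | ⟨g1, hg1⟩
    · rw [he]; simp
    · simp only [Finset.mem_filter, Finset.mem_univ, true_and] at hg1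
      rw [← h1, Fintype.card_subtype]
      apply Finset.card_le_card_of_injOn (fun g => g1.symm.trans g)
      · intro g hg
        simp only [Finset.coe_filter, Finset.mem_univ, true_and, Set.mem_setOf_eq] at hg ⊢
        funext v
        simp only [Function.comp_apply, Equiv.trans_apply]
        have h3 := congrFun hg (g1.symm v)
        have h4 := congrFun hg1 (g1.symm v)
        simp only [Function.comp_apply, Equiv.apply_symm_apply] at h3 h4
        rw [h3, ← h4]
      · intro g _ g' _ h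
        ext v
        have := congrArg (fun e : Equiv.Perm (Fin (k * N)) => e (g1 v)) h
        simpa using congrArg Fin.val this
  · intro g _
    rw [Finset.mem_coe, mem_Fbal]
    intro i
    refine Eq.trans ?_ (hσ0 i)
    apply Finset.card_bij' (fun v _ => g v) (fun v _ => g.symm v)
    · intro v hv; rw [mem_cls] at hv ⊢; exact hv
    · intro v hv; rw [mem_cls] at hv ⊢; simpa using hv
    · intro v _; simp
    · intro v _; simp

lemma factorial_upper {N : ℕ} (hN : 0 < N) :
    (N.factorial : ℝ) ≤ Real.exp 1 * Real.sqrt N * (N / Real.exp 1) ^ N := by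
  obtain ⟨m, rfl⟩ : ∃ m, N = m + 1 := ⟨N - 1, by omega⟩
  have h1 := Stirling.stirlingSeq'_antitone (Nat.zero_le m)
  simp only [Function.comp_apply, Nat.succ_eq_add_one, zero_add, Stirling.stirlingSeq_one] at h1
  unfold Stirling.stirlingSeq at h1
  have hpos : (0 : ℝ) < ((m + 1 : ℕ) : ℝ) := by positivity
  have h2 : 0 < Real.sqrt (2 * ((m + 1 : ℕ) : ℝ)) * (((m + 1 : ℕ) : ℝ) / Real.exp 1) ^ (m + 1) := by
    positivity
  rw [div_le_iff₀ h2] at h1
  refine h1.trans (le_of_eq ?_)
  rw [Real.sqrt_mul (by norm_num)]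
  have h3 : Real.sqrt 2 ≠ 0 := by positivity
  field_simp

lemma factorial_lower (n : ℕ) : (n / Real.exp 1) ^ n ≤ (n.factorial : ℝ) := by
  rcases Nat.eq_zero_or_pos n with h | h
  · subst h; simp
  · refine le_trans ?_ (Stirling.le_factorial_stirling n)
    have h1 : (1 : ℝ) ≤ n := by exact_mod_cast h
    have h2 : 1 ≤ Real.sqrt (2 * Real.pi * n) := by
      rw [Real.one_le_sqrt]
      have := Real.pi_gt_three
      nlinarith
    have h3 : 0 ≤ (n / Real.exp 1 : ℝ) ^ n := by positivity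
    nlinarith

lemma card_bal {n k N : ℕ} (hn : n = k * N) (hN : 0 < N) (hk : 0 < k) :
    (k : ℝ) ^ n ≤ (Fbal n k N).card * (Real.exp 1 * Real.sqrt N) ^ k := by
  have h1 : (n.factorial : ℝ) ≤ (Fbal n k N).card * (N.factorial : ℝ) ^ k := by
    exact_mod_cast factorial_le_card_bal hn
  have h2 := factorial_lower n
  have h3 := factorial_upper hN
  have hNpos : (0 : ℝ) < N := by exact_mod_cast hN
  have hkpos : (0 : ℝ) < k := by exact_mod_cast hk
  have h4 : (n / Real.exp 1 : ℝ) ^ n ≤ (Fbal n k N).card *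
      (Real.exp 1 * Real.sqrt N * (N / Real.exp 1) ^ N) ^ k := by
    refine (h2.trans h1).trans ?_
    gcongr
  have h5 : (Real.exp 1 * Real.sqrt N * (N / Real.exp 1) ^ N) ^ k =
      (Real.exp 1 * Real.sqrt N) ^ k * (N / Real.exp 1) ^ n := by
    rw [mul_pow, ← pow_mul, hn, mul_comm N k]
  have h6 : (n / Real.exp 1 : ℝ) ^ n = (k : ℝ) ^ n * (N / Real.exp 1) ^ n := by
    rw [← mul_pow]
    congr 1
    rw [hn]
    push_cast
    ring
  rw [h5, h6, ← mul_assoc] at h4
  exact le_of_mul_le_mul_right h4 (by positivity)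

/-- `c` is a proper colouring of the graph of `x` -/
def Prop' {n : ℕ} {ι : Type*} [DecidableEq ι] (c : Fin n → ι) (x : Sp n) : Prop :=
  ∀ e ∈ mono c, x e.1 e.2 = false

lemma Pr_proper {n : ℕ} {ι : Type*} [DecidableEq ι] (p : ℝ) (c : Fin n → ι) :
    Pr p (Prop' c) = (1 - p) ^ (mono c).card := Pr_none (mono c)

/-- the common number of monochromatic pairs of balanced colourings -/
lemma card_mono_bal {n k N : ℕ} {σ τ : Fin n → Fin k} (hσ : Bal N σ) (hτ : Bal N τ) :
    (mono σ).card = (mono τ).card := by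
  have h1 := two_card_mono σ
  have h2 := two_card_mono τ
  simp only [hσ _] at h1
  simp only [hτ _] at h2
  omega

/-- **Second moment bound.** If the good events `Q σ` carry at least half of the expected number
of proper balanced colourings then some `Q σ` occurs with not too small probability. -/
theorem second_moment_bound {n k N : ℕ} (hn : n = k * N) (hN : 0 < N) (hk : 0 < k) {p : ℝ}
    (hp0 : 0 ≤ p) (hp1 : p < 1) (Q : (Fin n → Fin k) → Sp n → Prop)
    (hQ : ∀ σ x, Q σ x → Prop' σ x)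
    (hhalf : ∀ σ, Bal N σ → (1 - p) ^ (mono σ).card / 2 ≤ Pr p (Q σ)) :
    (k : ℝ) ^ n ≤ Pr p (fun x => ∃ σ, Bal N σ ∧ Q σ x) *
      (4 * (Real.exp 1 * Real.sqrt N) ^ k * ((N : ℝ) + 1) ^ (k * k) *
        ((k : ℝ) - 1 + (1 - p)⁻¹ ^ ((N : ℝ) / 2)) ^ n) := by
  classical
  have h1p : 0 < 1 - p := by linarith
  set q : ℝ := (1 - p)⁻¹ with hq
  have hq1 : 1 ≤ q := by rw [hq]; exact (one_le_inv₀ h1p).2 (by linarith)
  have hq0 : 0 < q := by linarith
  set B : ℝ := ((N : ℝ) + 1) ^ (k * k) * ((k : ℝ) - 1 + q ^ ((N : ℝ) / 2)) ^ n with hB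
  set F := Fbal n k N with hF
  -- a reference balanced colouring
  obtain ⟨σ0, hσ0⟩ : ∃ σ0 : Fin n → Fin k, Bal N σ0 := by subst hn; exact exists_bal k N
  set e0 := (mono σ0).card with he0
  have hmono : ∀ σ ∈ F, (mono σ).card = e0 := fun σ hσ =>
    card_mono_bal (mem_Fbal.1 hσ) hσ0
  have hFpos : 0 < (F.card : ℝ) := by
    have : 0 < F.card := Finset.card_pos.2 ⟨σ0, mem_Fbal.2 hσ0⟩
    exact_mod_cast this
  set PP := Pr p (fun x => ∃ σ, Bal N σ ∧ Q σ x) with hPP
  have hPP0 : 0 ≤ PP := Pr_nonneg hp0 hp1.le _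
  have hPPeq : Pr p (fun x => ∃ σ ∈ F, Q σ x) = PP := by
    simp only [hPP, hF, mem_Fbal]
  have hsm := second_moment hp0 hp1.le F Q
  rw [hPPeq] at hsm
  -- lower bound for the first moment
  have hfirst : F.card * ((1 - p) ^ e0 / 2) ≤ ∑ σ ∈ F, Pr p (Q σ) := by
    rw [← nsmul_eq_mul, ← Finset.sum_const]
    apply Finset.sum_le_sum
    intro σ hσ
    rw [← hmono σ hσ]
    exact hhalf σ (mem_Fbal.1 hσ)
  -- upper bound for the second moment
  have hpair : ∀ σ ∈ F, ∀ τ ∈ F, Pr p (fun x => Q σ x ∧ Q τ x) ≤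
      (1 - p) ^ (2 * e0) * q ^ (mono (fun v => (σ v, τ v))).card := by
    intro σ hσ τ hτ
    have h1 : Pr p (fun x => Q σ x ∧ Q τ x) ≤ Pr p (fun x : Sp n =>
        ∀ e ∈ mono σ ∪ mono τ, x e.1 e.2 = false) := by
      apply Pr_mono hp0 hp1.le
      intro x hx e he
      rcases Finset.mem_union.1 he with h | h
      · exact hQ σ x hx.1 e h
      · exact hQ τ x hx.2 e h
    rw [Pr_none] at h1
    refine h1.trans (le_of_eq ?_)
    have h2 : mono σ ∩ mono τ = mono (fun v => (σ v, τ v)) := by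
      ext e
      simp only [Finset.mem_inter, mem_mono, Prod.mk.injEq]
      tauto
    have h3 := Finset.card_union_add_card_inter (mono σ) (mono τ)
    rw [h2, hmono σ hσ, hmono τ hτ] at h3
    have h4 : (1 - p) ^ (2 * e0) = (1 - p) ^ (mono σ ∪ mono τ).card *
        (1 - p) ^ (mono (fun v => (σ v, τ v))).card := by
      rw [← pow_add]; congr 1; omega
    rw [h4, hq, mul_assoc, ← mul_pow, mul_inv_cancel₀ h1p.ne', one_pow, mul_one]
  have hsecond : ∑ σ ∈ F, ∑ τ ∈ F, Pr p (fun x => Q σ x ∧ Q τ x) ≤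
      F.card * ((1 - p) ^ (2 * e0) * B) := by
    rw [← nsmul_eq_mul, ← Finset.sum_const]
    apply Finset.sum_le_sum
    intro σ hσ
    calc ∑ τ ∈ F, Pr p (fun x => Q σ x ∧ Q τ x)
        ≤ ∑ τ ∈ F, (1 - p) ^ (2 * e0) * q ^ (mono (fun v => (σ v, τ v))).card :=
          Finset.sum_le_sum (fun τ hτ => hpair σ hσ τ hτ)
      _ ≤ ∑ τ : Fin n → Fin k, (1 - p) ^ (2 * e0) *
          q ^ (mono (fun v => (σ v, τ v))).card := by
          apply Finset.sum_le_sum_of_subset_of_nonneg (Finset.subset_univ _)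
          intro _ _ _; positivity
      _ = (1 - p) ^ (2 * e0) * ∑ τ : Fin n → Fin k,
          q ^ (mono (fun v => (σ v, τ v))).card := by
          rw [Finset.mul_sum]
      _ ≤ _ := by
          apply mul_le_mul_of_nonneg_left (overlap_sum hN σ (mem_Fbal.1 hσ) hq1)
          positivity
  have h5 : (F.card * ((1 - p) ^ e0 / 2)) ^ 2 ≤ PP * (F.card * ((1 - p) ^ (2 * e0) * B)) := by
    refine (pow_le_pow_left₀ (by positivity) hfirst 2).trans ?_
    exact hsm.trans (mul_le_mul_of_nonneg_left hsecond hPP0)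
  have h6 : (F.card : ℝ) ≤ PP * (4 * B) := by
    have h7 : (F.card * ((1 - p) ^ e0 / 2)) ^ 2 =
        F.card * (F.card * (1 - p) ^ (2 * e0) / 4) := by ring
    have h8 : PP * (F.card * ((1 - p) ^ (2 * e0) * B)) =
        PP * (4 * B) * (F.card * (1 - p) ^ (2 * e0) / 4) := by ring
    rw [h7, h8] at h5
    exact le_of_mul_le_mul_right h5 (by positivity)
  calc (k : ℝ) ^ n ≤ F.card * (Real.exp 1 * Real.sqrt N) ^ k := card_bal hn hN hk
    _ ≤ PP * (4 * B) * (Real.exp 1 * Real.sqrt N) ^ k := by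
        apply mul_le_mul_of_nonneg_right h6; positivity
    _ = _ := by rw [hB]; ring

end Pool.Agent.H95.BL
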