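import Mathlib
import Pool.Agent.H95.BL.Second

open Finset

namespace Pool.Agent.H95.BL

/-- presence of the unordered pair `{u, v}` -/
def ed {n : ℕ} (x : Sp n) (u v : Fin n) : Bool := x (max u v) (min u v)

lemma ed_comm {n : ℕ} (x : Sp n) (u v : Fin n) : ed x u v = ed x v u := by
  simp [ed, max_comm, min_comm]

/-- the graph of `x` -/
def gr {n : ℕ} (x : Sp n) : SimpleGraph (Fin n) where
  Adj u v := u ≠ v ∧ ed x u v = true
  symm := ⟨fun u v h => ⟨h.1.symm, by rw [ed_comm]; exact h.2⟩⟩
  loopless := ⟨fun _ h => h.1 rfl⟩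

lemma gr_adj {n : ℕ} {x : Sp n} {u v : Fin n} : (gr x).Adj u v ↔ u ≠ v ∧ ed x u v = true :=
  Iff.rfl

lemma proper_adj {n : ℕ} {ι : Type*} [DecidableEq ι] {c : Fin n → ι} {x : Sp n}
    (h : Prop' c x) {u v : Fin n} (huv : (gr x).Adj u v) : c u ≠ c v := by
  intro hc
  obtain ⟨hne, hed⟩ := huv
  rcases lt_or_gt_of_ne hne with hlt | hlt
  · have := h (v, u) (mem_mono.2 ⟨hlt, hc.symm⟩)
    simp only [ed, max_eq_right hlt.le, min_eq_left hlt.le] at hed
    rw [this] at hed
    exact Bool.noConfusion hed
  · have := h (u, v) (mem_mono.2 ⟨hlt, hc⟩)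
    simp only [ed, max_eq_left hlt.le, min_eq_right hlt.le] at hed
    rw [this] at hed
    exact Bool.noConfusion hed

/-- No two large subsets of different classes span no edge. -/
def NoHole {n k : ℕ} (σ : Fin n → Fin k) (x : Sp n) (h : ℕ) : Prop :=
  ∀ i j, i ≠ j → ∀ S ⊆ cls σ i, ∀ T ⊆ cls σ j, h ≤ S.card → h ≤ T.card →
    ∃ u ∈ S, ∃ v ∈ T, ed x u v = true

/-- No large set all of whose vertices miss the rest of some other class. -/
def NoCert {n k : ℕ} (σ : Fin n → Fin k) (x : Sp n) (L r : ℕ) : Prop :=
  ∀ X R : Finset (Fin n), Disjoint X R →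
    (∀ v ∈ R, ∃ j, j ≠ σ v ∧ L ≤ (cls σ j \ (X ∪ R)).card ∧
      ∀ w ∈ cls σ j \ (X ∪ R), ed x v w = false) → R.card < r

lemma cls_disjoint {n k : ℕ} (σ : Fin n → Fin k) {i j : Fin k} (h : i ≠ j) :
    Disjoint (cls σ i) (cls σ j) := by
  rw [Finset.disjoint_left]
  intro v h1 h2
  rw [mem_cls] at h1 h2
  exact h (h1.symm.trans h2)

lemma sum_cls_inter {n k : ℕ} (σ : Fin n → Fin k) (X : Finset (Fin n)) :
    ∑ i, (cls σ i ∩ X).card = X.card := by
  rw [Finset.card_eq_sum_card_fiberwise (s := X) (t := (Finset.univ : Finset (Fin k))) (f := σ)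
    (fun _ _ => Finset.mem_coe.2 (Finset.mem_univ _))]
  apply Finset.sum_congr rfl
  intro i _
  congr 1
  ext v
  simp only [Finset.mem_inter, mem_cls, Finset.mem_filter]
  tauto

/-- **The core lemma**: after deleting a small set `X` many classes can be trimmed to a bilinked
collection. -/
theorem core {n k N h r K s x0 : ℕ} (σ : Fin n → Fin k) (hσ : Bal N σ) (x : Sp n)
    (hh : 0 < h) (h4 : 4 * h ≤ N) (hH : NoHole σ x h) (hC : NoCert σ x (N - 3 * h) r)
    (X : Finset (Fin n)) (hX : X.card ≤ x0) (hk : k = K + s) (hs : x0 + r ≤ (h + 1) * (s + 1)) :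
    ∃ I : Finset (Fin k), K ≤ I.card ∧ ∃ W : Fin k → Finset (Fin n),
      (∀ i ∈ I, W i ⊆ cls σ i \ X) ∧ (∀ i ∈ I, (W i).Nonempty) ∧
      ∀ i ∈ I, ∀ j ∈ I, i ≠ j →
        ((gr x).induce ((W i : Set (Fin n)) ∪ (W j : Set (Fin n)))).Connected := by
  classical
  -- valid removed sets
  set valid : Finset (Fin n) → Prop := fun R => Disjoint X R ∧
    (∀ i, (cls σ i ∩ R).card ≤ 2 * h) ∧
    ∀ v ∈ R, ∃ j, j ≠ σ v ∧ (cls σ j ∩ X).card ≤ h ∧
      ∀ w ∈ cls σ j \ (X ∪ R), ed x v w = false with hvalid
  obtain ⟨R, hR, hmax⟩ := Finset.exists_max_image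
    ((Finset.univ : Finset (Finset (Fin n))).filter valid) (fun R => R.card)
    ⟨∅, by simp [hvalid]⟩
  simp only [Finset.mem_filter, Finset.mem_univ, true_and] at hR hmax
  obtain ⟨hR1, hR2, hR3⟩ := hR
  have hsz : ∀ j, (cls σ j ∩ X).card + (cls σ j ∩ R).card + (cls σ j \ (X ∪ R)).card = N := by
    intro j
    rw [← hσ j]
    have e1 : (cls σ j ∩ X).card + (cls σ j ∩ R).card = (cls σ j ∩ (X ∪ R)).card := by
      rw [Finset.inter_union_distrib_left, Finset.card_union_of_disjoint]
      exact Disjoint.mono Finset.inter_subset_right Finset.inter_subset_right hR1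
    rw [e1, Finset.card_inter_add_card_sdiff]
  have hRr : R.card < r := by
    apply hC X R hR1
    intro v hv
    obtain ⟨j, hj1, hj2, hj3⟩ := hR3 v hv
    refine ⟨j, hj1, ?_, hj3⟩
    have := hsz j
    have := hR2 j
    omega
  set I : Finset (Fin k) := Finset.univ.filter (fun i =>
    (cls σ i ∩ X).card ≤ h ∧ (cls σ i ∩ R).card ≤ h) with hI
  have hIc : (Iᶜ).card ≤ s := by
    by_contra hcon
    push Not at hcon
    have h1 : (Iᶜ).card * (h + 1) ≤ X.card + R.card := by
      rw [← sum_cls_inter σ X, ← sum_cls_inter σ R, ← Finset.sum_add_distrib]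
      calc (Iᶜ).card * (h + 1) = ∑ i ∈ Iᶜ, (h + 1) := by rw [Finset.sum_const, smul_eq_mul]
        _ ≤ ∑ i ∈ Iᶜ, ((cls σ i ∩ X).card + (cls σ i ∩ R).card) := by
            apply Finset.sum_le_sum
            intro i hi
            simp only [hI, Finset.mem_compl, Finset.mem_filter, Finset.mem_univ, true_and,
              not_and_or, not_le] at hi
            omega
        _ ≤ _ := Finset.sum_le_sum_of_subset (Finset.subset_univ _)
    have h2 : (s + 1) * (h + 1) ≤ (Iᶜ).card * (h + 1) := Nat.mul_le_mul_right _ hcon
    have h3 : (h + 1) * (s + 1) = (s + 1) * (h + 1) := mul_comm _ _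
    omega
  have hIcard : K ≤ I.card := by
    have h1 := Finset.card_compl I
    rw [Fintype.card_fin] at h1
    have h2 : I.card ≤ k := by
      have := Finset.card_le_univ I
      simpa using this
    omega
  refine ⟨I, hIcard, fun i => cls σ i \ (X ∪ R), ?_, ?_, ?_⟩
  · intro i _ v hv
    simp only [Finset.mem_sdiff, Finset.mem_union, not_or] at hv ⊢
    exact ⟨hv.1, hv.2.1⟩
  · intro i hi
    simp only [hI, Finset.mem_filter, Finset.mem_univ, true_and] at hi
    rw [← Finset.card_pos]
    have := hsz i
    change 0 < (cls σ i \ (X ∪ R)).card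
    omega
  · intro i hi j hj hij
    simp only [hI, Finset.mem_filter, Finset.mem_univ, true_and] at hi hj
    set Wi := cls σ i \ (X ∪ R) with hWi
    set Wj := cls σ j \ (X ∪ R) with hWj
    have hsi := hsz i
    have hsj := hsz j
    have hWid : Disjoint Wi Wj := by
      apply Disjoint.mono Finset.sdiff_subset Finset.sdiff_subset (cls_disjoint σ hij)
    by_contra hnc
    have hne : Nonempty ((Wi : Set (Fin n)) ∪ (Wj : Set (Fin n)) : Set (Fin n)) := by
      have : 0 < Wi.card := by rw [hWi]; omega
      obtain ⟨v, hv⟩ := Finset.card_pos.1 this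
      exact ⟨⟨v, Or.inl hv⟩⟩
    rw [SimpleGraph.connected_iff] at hnc
    have hnp : ¬ ((gr x).induce ((Wi : Set (Fin n)) ∪ (Wj : Set (Fin n)))).Preconnected :=
      fun hp => hnc ⟨hp, hne⟩
    rw [SimpleGraph.Preconnected] at hnp
    push Not at hnp
    obtain ⟨a, b, hab⟩ := hnp
    -- the component of `a`
    set P : Finset (Fin n) := (Wi ∪ Wj).filter (fun v => ∃ hv : v ∈ (Wi : Set (Fin n)) ∪ Wj,
      ((gr x).induce ((Wi : Set (Fin n)) ∪ (Wj : Set (Fin n)))).Reachable a ⟨v, hv⟩) with hP
    set P' : Finset (Fin n) := (Wi ∪ Wj) \ P with hP'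
    have hPW : P ⊆ Wi ∪ Wj := Finset.filter_subset _ _
    have hP'W : P' ⊆ Wi ∪ Wj := Finset.sdiff_subset
    have haP : a.1 ∈ P := by
      simp only [hP, Finset.mem_filter]
      have ha2 := a.2
      rw [Set.mem_union, Finset.mem_coe, Finset.mem_coe] at ha2
      exact ⟨Finset.mem_union.2 ha2, a.2, SimpleGraph.Reachable.refl _⟩
    have hbP : b.1 ∈ P' := by
      simp only [hP', hP, Finset.mem_sdiff, Finset.mem_filter, not_and]
      have hb2 := b.2
      rw [Set.mem_union, Finset.mem_coe, Finset.mem_coe] at hb2
      refine ⟨Finset.mem_union.2 hb2, fun _ hcon => ?_⟩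
      obtain ⟨_, hcon⟩ := hcon
      exact hab hcon
    have hcross : ∀ u ∈ P, ∀ v ∈ P', ed x u v = false := by
      intro u hu v hv
      by_contra hed
      rw [Bool.not_eq_false] at hed
      simp only [hP', Finset.mem_sdiff] at hv
      have huv : u ≠ v := fun h => hv.2 (h ▸ hu)
      apply hv.2
      simp only [hP, Finset.mem_filter] at hu ⊢
      obtain ⟨hu1, hu2, hu3⟩ := hu
      have hvm : v ∈ (Wi : Set (Fin n)) ∪ Wj := by simpa using hv.1
      refine ⟨hv.1, hvm, hu3.trans ?_⟩
      apply SimpleGraph.Adj.reachable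
      simp only [SimpleGraph.comap_adj, Function.Embedding.subtype_apply]
      exact ⟨huv, hed⟩
    -- generic contradiction for a small nonempty part `Q` with complement `Q'`
    have hsmall : ∀ Q Q' : Finset (Fin n), Q ⊆ Wi ∪ Wj → Q.Nonempty →
        (∀ w ∈ Wi ∪ Wj, w ∉ Q → w ∈ Q') → (∀ u ∈ Q, ∀ v ∈ Q', ed x u v = false) →
        (cls σ i ∩ Q).card ≤ h → (cls σ j ∩ Q).card ≤ h → False := by
      intro Q Q' hQW hQne hQQ' hQcross hQi hQj
      have hQX : ∀ v ∈ Q, v ∉ X ∧ v ∉ R := by
        intro v hv
        have := hQW hv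
        simp only [hWi, hWj, Finset.mem_union, Finset.mem_sdiff] at this
        tauto
      have hval : valid (R ∪ Q) := by
        refine ⟨?_, ?_, ?_⟩
        · rw [Finset.disjoint_union_right]
          refine ⟨hR1, ?_⟩
          rw [Finset.disjoint_left]
          intro v hv hvQ
          exact (hQX v hvQ).1 hv
        · intro l
          have e1 : (cls σ l ∩ (R ∪ Q)).card ≤ (cls σ l ∩ R).card + (cls σ l ∩ Q).card := by
            rw [Finset.inter_union_distrib_left]
            exact Finset.card_union_le _ _
          by_cases hli : l = i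
          · subst hli; omega
          · by_cases hlj : l = j
            · subst hlj; omega
            · have : cls σ l ∩ Q = ∅ := by
                rw [Finset.eq_empty_iff_forall_notMem]
                intro v hv
                rw [Finset.mem_inter, mem_cls] at hv
                have := hQW hv.2
                simp only [hWi, hWj, Finset.mem_union, Finset.mem_sdiff, mem_cls] at this
                rcases this with h | h
                · exact hli (hv.1.symm.trans h.1)
                · exact hlj (hv.1.symm.trans h.1)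
              rw [this, Finset.card_empty] at e1
              have := hR2 l
              omega
        · intro v hv
          rcases Finset.mem_union.1 hv with hv | hv
          · obtain ⟨l, hl1, hl2, hl3⟩ := hR3 v hv
            refine ⟨l, hl1, hl2, ?_⟩
            intro w hw
            apply hl3
            simp only [Finset.mem_sdiff, Finset.mem_union] at hw ⊢
            tauto
          · have hvW := hQW hv
            rcases Finset.mem_union.1 hvW with hvi | hvj
            · have hvi' : σ v = i := by
                simp only [hWi, Finset.mem_sdiff, mem_cls] at hvi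
                exact hvi.1
              refine ⟨j, by rw [hvi']; exact hij.symm, hj.1, ?_⟩
              intro w hw
              apply hQcross v hv
              simp only [Finset.mem_sdiff, Finset.mem_union, not_or] at hw
              apply hQQ' w _ hw.2.2.2
              simp only [hWi, hWj, Finset.mem_union, Finset.mem_sdiff, not_or]
              exact Or.inr ⟨hw.1, hw.2.1, hw.2.2.1⟩
            · have hvj' : σ v = j := by
                simp only [hWj, Finset.mem_sdiff, mem_cls] at hvj
                exact hvj.1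
              refine ⟨i, by rw [hvj']; exact hij, hi.1, ?_⟩
              intro w hw
              apply hQcross v hv
              simp only [Finset.mem_sdiff, Finset.mem_union, not_or] at hw
              apply hQQ' w _ hw.2.2.2
              simp only [hWi, hWj, Finset.mem_union, Finset.mem_sdiff, not_or]
              exact Or.inl ⟨hw.1, hw.2.1, hw.2.2.1⟩
      have h1 := hmax _ hval
      have h2 : (R ∪ Q).card = R.card + Q.card := by
        apply Finset.card_union_of_disjoint
        rw [Finset.disjoint_left]
        intro v hv hvQ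
        exact (hQX v hvQ).2 hv
      have h3 := Finset.card_pos.2 hQne
      omega
    -- sizes of the parts
    have hpart : ∀ l, (cls σ l \ (X ∪ R) ⊆ Wi ∪ Wj) →
        (cls σ l ∩ P).card + (cls σ l ∩ P').card = (cls σ l \ (X ∪ R)).card := by
      intro l hl
      rw [← Finset.card_union_of_disjoint]
      · congr 1
        ext v
        simp only [Finset.mem_union, Finset.mem_inter, Finset.mem_sdiff]
        constructor
        · rintro (⟨h1, h2⟩ | ⟨h1, h2⟩)
          · have := hPW h2
            simp only [hWi, hWj, Finset.mem_union, Finset.mem_sdiff] at this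
            tauto
          · have := hP'W h2
            simp only [hWi, hWj, Finset.mem_union, Finset.mem_sdiff] at this
            tauto
        · rintro ⟨h1, h2⟩
          have hvW : v ∈ Wi ∪ Wj := hl (by simp only [Finset.mem_sdiff, Finset.mem_union]; tauto)
          by_cases hvP : v ∈ P
          · exact Or.inl ⟨h1, hvP⟩
          · exact Or.inr ⟨h1, by simp only [hP', Finset.mem_sdiff]; exact ⟨hvW, hvP⟩⟩
      · rw [Finset.disjoint_left]
        intro v h1 h2
        simp only [Finset.mem_inter, hP', Finset.mem_sdiff] at h1 h2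
        exact h2.2.2 h1.2
    have hpi := hpart i Finset.subset_union_left
    have hpj := hpart j Finset.subset_union_right
    have hH1 : ¬ (h ≤ (cls σ i ∩ P).card ∧ h ≤ (cls σ j ∩ P').card) := by
      rintro ⟨h1, h2⟩
      obtain ⟨u, hu, v, hv, huv⟩ := hH i j hij _ Finset.inter_subset_left _
        Finset.inter_subset_left h1 h2
      rw [Finset.mem_inter] at hu hv
      rw [hcross u hu.2 v hv.2] at huv
      exact Bool.noConfusion huv
    have hH2 : ¬ (h ≤ (cls σ j ∩ P).card ∧ h ≤ (cls σ i ∩ P').card) := by
      rintro ⟨h1, h2⟩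
      obtain ⟨u, hu, v, hv, huv⟩ := hH j i hij.symm _ Finset.inter_subset_left _
        Finset.inter_subset_left h1 h2
      rw [Finset.mem_inter] at hu hv
      rw [hcross u hu.2 v hv.2] at huv
      exact Bool.noConfusion huv
    rw [not_and_or, not_le, not_le] at hH1 hH2
    by_cases hc : (cls σ i ∩ P).card < h
    · -- `P` is small
      apply hsmall P P' hPW ⟨a.1, haP⟩ _ hcross hc.le
      · rcases hH2 with h1 | h1
        · exact h1.le
        · omega
      · intro w hw hwP
        simp only [hP', Finset.mem_sdiff]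
        exact ⟨hw, hwP⟩
    · have h1 : (cls σ j ∩ P').card < h := by
        rcases hH1 with h1 | h1
        · exact absurd h1 hc
        · exact h1
      have h2 : (cls σ i ∩ P').card < h := by
        rcases hH2 with h2 | h2
        · omega
        · exact h2
      apply hsmall P' P hP'W ⟨b.1, hbP⟩ _ _ h2.le h1.le
      · intro w hw hwP
        simp only [hP', Finset.mem_sdiff, not_and, not_not] at hwP
        exact hwP hw
      · intro u hu v hv
        rw [ed_comm]
        exact hcross v hv u hu

end Pool.Agent.H95.BL
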