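import Mathlib
import Pool.Agent.H95.BL.Core

open Finset

namespace Pool.Agent.H95.BL

/-- the decreasing ordered pair -/
def mm {n : ℕ} (e : Fin n × Fin n) : Fin n × Fin n := (max e.1 e.2, min e.1 e.2)

lemma card_image_mm {n : ℕ} {A B : Finset (Fin n)} (hAB : Disjoint A B)
    {P : Finset (Fin n × Fin n)} (hP : P ⊆ A ×ˢ B) : (P.image mm).card = P.card := by
  apply Finset.card_image_of_injOn
  rintro ⟨a, b⟩ h1 ⟨a', b'⟩ h2 h
  have h1' := Finset.mem_product.1 (hP h1)
  have h2' := Finset.mem_product.1 (hP h2)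
  simp only at h1' h2'
  rw [Finset.disjoint_left] at hAB
  simp only [mm, Prod.mk.injEq] at h
  obtain ⟨h3, h4⟩ := h
  rcases le_total a b with hab | hab <;> rcases le_total a' b' with hab' | hab' <;>
    simp only [max_eq_left hab, max_eq_right hab, min_eq_left hab, min_eq_right hab,
      max_eq_left hab', max_eq_right hab', min_eq_left hab', min_eq_right hab'] at h3 h4
  · rw [h3, h4]
  · subst h3; exact absurd h1'.2 (hAB h2'.1)
  · subst h3; exact absurd h2'.2 (hAB h1'.1)
  · rw [h3, h4]

/-- the probability that a colouring is proper and no pair of `P` is present -/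
lemma Pr_proper_none {n : ℕ} {ι : Type*} [DecidableEq ι] {p : ℝ} (hp0 : 0 ≤ p) (hp1 : p ≤ 1)
    (c : Fin n → ι) {A B : Finset (Fin n)} (hAB : Disjoint A B)
    {P : Finset (Fin n × Fin n)} (hP : P ⊆ A ×ˢ B) (hc : ∀ e ∈ P, c e.1 ≠ c e.2) :
    Pr p (fun x => Prop' c x ∧ ∀ e ∈ P, ed x e.1 e.2 = false) ≤
      (1 - p) ^ (mono c).card * (1 - p) ^ P.card := by
  have hdisj : Disjoint (mono c) (P.image mm) := by
    rw [Finset.disjoint_left]
    rintro e he1 he2
    rw [Finset.mem_image] at he2
    obtain ⟨⟨a, b⟩, hab, rfl⟩ := he2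
    rw [mem_mono] at he1
    have := hc _ hab
    simp only [mm] at he1
    rcases le_total a b with h | h
    · simp only [max_eq_right h, min_eq_left h] at he1
      exact this he1.2.symm
    · simp only [max_eq_left h, min_eq_right h] at he1
      exact this he1.2
  calc Pr p (fun x => Prop' c x ∧ ∀ e ∈ P, ed x e.1 e.2 = false)
      ≤ Pr p (fun x : Sp n => ∀ e ∈ mono c ∪ P.image mm, x e.1 e.2 = false) := by
        apply Pr_mono hp0 hp1
        rintro x ⟨h1, h2⟩ e he
        rcases Finset.mem_union.1 he with he | he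
        · exact h1 e he
        · rw [Finset.mem_image] at he
          obtain ⟨e', he', rfl⟩ := he
          exact h2 e' he'
    _ = _ := by
        rw [Pr_none, Finset.card_union_of_disjoint hdisj, card_image_mm hAB hP, pow_add]

/-- holes are unlikely -/
lemma Pr_hole {n k N : ℕ} {p : ℝ} (hp0 : 0 ≤ p) (hp1 : p ≤ 1) (σ : Fin n → Fin k)
    (hσ : Bal N σ) (h : ℕ) :
    Pr p (fun x => Prop' σ x ∧ ¬ NoHole σ x h) ≤
      (1 - p) ^ (mono σ).card * ((k : ℝ) ^ 2 * 4 ^ N * (1 - p) ^ (h * h)) := by
  classical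
  have h1p : 0 ≤ 1 - p := by linarith
  set D : ℝ := (1 - p) ^ (mono σ).card * (1 - p) ^ (h * h) with hD
  have hD0 : 0 ≤ D := by positivity
  have hone : ∀ i j : Fin k, ∀ S ∈ (cls σ i).powerset, ∀ T ∈ (cls σ j).powerset,
      Pr p (fun x => Prop' σ x ∧ i ≠ j ∧ h ≤ S.card ∧ h ≤ T.card ∧
        ∀ u ∈ S, ∀ v ∈ T, ed x u v = false) ≤ D := by
    intro i j S hS T hT
    rw [Finset.mem_powerset] at hS hT
    by_cases hc : i ≠ j ∧ h ≤ S.card ∧ h ≤ T.card
    · obtain ⟨hij, hSc, hTc⟩ := hc
      have hdisj : Disjoint S T := Disjoint.mono hS hT (cls_disjoint σ hij)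
      calc _ ≤ Pr p (fun x => Prop' σ x ∧ ∀ e ∈ S ×ˢ T, ed x e.1 e.2 = false) := by
            apply Pr_mono hp0 hp1
            rintro x ⟨h1, _, _, _, h2⟩
            refine ⟨h1, ?_⟩
            intro e he
            rw [Finset.mem_product] at he
            exact h2 _ he.1 _ he.2
        _ ≤ (1 - p) ^ (mono σ).card * (1 - p) ^ (S ×ˢ T).card := by
            apply Pr_proper_none hp0 hp1 σ hdisj (Finset.Subset.refl _)
            intro e he
            rw [Finset.mem_product] at he
            have h1 := mem_cls.1 (hS he.1)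
            have h2 := mem_cls.1 (hT he.2)
            rw [h1, h2]; exact hij
        _ ≤ D := by
            rw [hD]
            apply mul_le_mul_of_nonneg_left _ (by positivity)
            apply pow_le_pow_of_le_one h1p (by linarith)
            rw [Finset.card_product]
            exact Nat.mul_le_mul hSc hTc
    · refine le_trans (le_of_eq ?_) hD0
      rw [Pr_eq_sum_ite]
      apply Finset.sum_eq_zero
      intro x _
      rw [if_neg]
      tauto
  calc Pr p (fun x => Prop' σ x ∧ ¬ NoHole σ x h)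
      ≤ Pr p (fun x => ∃ i ∈ (Finset.univ : Finset (Fin k)), ∃ j ∈ (Finset.univ : Finset (Fin k)),
        ∃ S ∈ (cls σ i).powerset, ∃ T ∈ (cls σ j).powerset, Prop' σ x ∧ i ≠ j ∧ h ≤ S.card ∧
          h ≤ T.card ∧ ∀ u ∈ S, ∀ v ∈ T, ed x u v = false) := by
        apply Pr_mono hp0 hp1
        rintro x ⟨h1, h2⟩
        simp only [NoHole] at h2
        push Not at h2
        obtain ⟨i, j, hij, S, hS, T, hT, hSc, hTc, h3⟩ := h2
        refine ⟨i, Finset.mem_univ _, j, Finset.mem_univ _, S, Finset.mem_powerset.2 hS, T,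
          Finset.mem_powerset.2 hT, h1, hij, hSc, hTc, ?_⟩
        intro u hu v hv
        have := h3 u hu v hv
        simpa using this
    _ ≤ ∑ i : Fin k, ∑ j : Fin k, ∑ S ∈ (cls σ i).powerset, ∑ T ∈ (cls σ j).powerset, D := by
        refine (Pr_exists_le hp0 hp1 _ _).trans (Finset.sum_le_sum (fun i _ => ?_))
        refine (Pr_exists_le hp0 hp1 _ _).trans (Finset.sum_le_sum (fun j _ => ?_))
        refine (Pr_exists_le hp0 hp1 _ _).trans (Finset.sum_le_sum (fun S hS => ?_))
        refine (Pr_exists_le hp0 hp1 _ _).trans (Finset.sum_le_sum (fun T hT => ?_))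
        exact hone i j S hS T hT
    _ = (1 - p) ^ (mono σ).card * ((k : ℝ) ^ 2 * 4 ^ N * (1 - p) ^ (h * h)) := by
        simp only [Finset.sum_const, Finset.card_powerset, hσ _, Finset.card_univ,
          Fintype.card_fin, nsmul_eq_mul, Nat.cast_pow, Nat.cast_ofNat]
        rw [hD]
        have : (4 : ℝ) ^ N = 2 ^ N * 2 ^ N := by rw [← mul_pow]; norm_num
        rw [this]
        ring

/-- large certificates are unlikely -/
lemma Pr_cert {n k : ℕ} {p : ℝ} (hp0 : 0 ≤ p) (hp1 : p ≤ 1) (σ : Fin n → Fin k)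
    (L r : ℕ) (hbase : (k : ℝ) * (1 - p) ^ L ≤ 1) :
    Pr p (fun x => Prop' σ x ∧ ¬ NoCert σ x L r) ≤
      (1 - p) ^ (mono σ).card * (4 ^ n * ((k : ℝ) * (1 - p) ^ L) ^ r) := by
  classical
  have h1p : 0 ≤ 1 - p := by linarith
  set b : ℝ := (k : ℝ) * (1 - p) ^ L with hb
  have hb0 : 0 ≤ b := by positivity
  have hone : ∀ (X R : Finset (Fin n)) (J : R → Fin k),
      Pr p (fun x => Prop' σ x ∧ Disjoint X R ∧ r ≤ R.card ∧ ∀ v : R, J v ≠ σ v ∧
        L ≤ (cls σ (J v) \ (X ∪ R)).card ∧ ∀ w ∈ cls σ (J v) \ (X ∪ R), ed x v w = false) ≤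
      (1 - p) ^ (mono σ).card * (if r ≤ R.card then (1 - p) ^ (L * R.card) else 0) := by
    intro X R J
    by_cases hc : r ≤ R.card ∧ ∀ v : R, J v ≠ σ v ∧ L ≤ (cls σ (J v) \ (X ∪ R)).card
    · obtain ⟨hr, hJ⟩ := hc
      rw [if_pos hr]
      set P : Finset (Fin n × Fin n) := Finset.univ.filter (fun e =>
        ∃ h : e.1 ∈ R, e.2 ∈ cls σ (J ⟨e.1, h⟩) \ (X ∪ R)) with hP
      have hPsub : P ⊆ R ×ˢ Rᶜ := by
        intro e he
        simp only [hP, Finset.mem_filter, Finset.mem_univ, true_and] at he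
        obtain ⟨h1, h2⟩ := he
        simp only [Finset.mem_sdiff, Finset.mem_union, not_or] at h2
        rw [Finset.mem_product, Finset.mem_compl]
        exact ⟨h1, h2.2.2⟩
      have hPcard : L * R.card ≤ P.card := by
        rw [Finset.card_eq_sum_card_fiberwise (t := R) (f := fun e : Fin n × Fin n => e.1)]
        · rw [mul_comm, ← smul_eq_mul, ← Finset.sum_const]
          apply Finset.sum_le_sum
          intro v hv
          refine (hJ ⟨v, hv⟩).2.trans ?_
          apply Finset.card_le_card_of_injOn (fun w => (v, w))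
          · intro w hw
            simp only [Finset.coe_filter, Set.mem_ofPred_eq, hP, Finset.mem_filter,
              Finset.mem_univ, true_and, and_true]
            exact ⟨hv, hw⟩
          · intro w _ w' _ h
            exact (Prod.mk.inj h).2
        · intro e he
          exact (Finset.mem_product.1 (hPsub he)).1
      calc _ ≤ Pr p (fun x => Prop' σ x ∧ ∀ e ∈ P, ed x e.1 e.2 = false) := by
            apply Pr_mono hp0 hp1
            rintro x ⟨h1, _, _, h2⟩
            refine ⟨h1, ?_⟩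
            intro e he
            simp only [hP, Finset.mem_filter, Finset.mem_univ, true_and] at he
            obtain ⟨h3, h4⟩ := he
            exact (h2 ⟨e.1, h3⟩).2.2 _ h4
        _ ≤ (1 - p) ^ (mono σ).card * (1 - p) ^ P.card := by
            apply Pr_proper_none hp0 hp1 σ (disjoint_compl_right) hPsub
            intro e he
            simp only [hP, Finset.mem_filter, Finset.mem_univ, true_and] at he
            obtain ⟨h3, h4⟩ := he
            have h5 := (hJ ⟨e.1, h3⟩).1
            simp only [Finset.mem_sdiff, mem_cls] at h4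
            rw [h4.1]
            exact h5.symm
        _ ≤ _ := by
            apply mul_le_mul_of_nonneg_left _ (by positivity)
            exact pow_le_pow_of_le_one h1p (by linarith) hPcard
    · have h0 : (0 : ℝ) ≤ (1 - p) ^ (mono σ).card *
          (if r ≤ R.card then (1 - p) ^ (L * R.card) else 0) := by
        split_ifs <;> positivity
      refine le_trans (le_of_eq ?_) h0
      rw [Pr_eq_sum_ite]
      apply Finset.sum_eq_zero
      intro x _
      rw [if_neg]
      rintro ⟨_, _, h2, h3⟩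
      exact hc ⟨h2, fun v => ⟨(h3 v).1, (h3 v).2.1⟩⟩
  calc Pr p (fun x => Prop' σ x ∧ ¬ NoCert σ x L r)
      ≤ Pr p (fun x => ∃ X ∈ (Finset.univ : Finset (Finset (Fin n))),
        ∃ R ∈ (Finset.univ : Finset (Finset (Fin n))),
        ∃ J ∈ (Finset.univ : Finset (R → Fin k)), Prop' σ x ∧ Disjoint X R ∧ r ≤ R.card ∧
        ∀ v : R, J v ≠ σ v ∧ L ≤ (cls σ (J v) \ (X ∪ R)).card ∧
          ∀ w ∈ cls σ (J v) \ (X ∪ R), ed x v w = false) := by
        apply Pr_mono hp0 hp1
        rintro x ⟨h1, h2⟩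
        simp only [NoCert] at h2
        push Not at h2
        obtain ⟨X, R, hXR, h3, h4⟩ := h2
        choose J hJ using h3
        exact ⟨X, Finset.mem_univ _, R, Finset.mem_univ _, fun v => J v.1 v.2,
          Finset.mem_univ _, h1, hXR, h4, fun v => hJ v.1 v.2⟩
    _ ≤ ∑ X : Finset (Fin n), ∑ R : Finset (Fin n), ∑ J : R → Fin k,
        (1 - p) ^ (mono σ).card * (if r ≤ R.card then (1 - p) ^ (L * R.card) else 0) := by
        refine (Pr_exists_le hp0 hp1 _ _).trans (Finset.sum_le_sum (fun X _ => ?_))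
        refine (Pr_exists_le hp0 hp1 _ _).trans (Finset.sum_le_sum (fun R _ => ?_))
        refine (Pr_exists_le hp0 hp1 _ _).trans (Finset.sum_le_sum (fun J _ => ?_))
        exact hone X R J
    _ ≤ ∑ X : Finset (Fin n), ∑ R : Finset (Fin n), (1 - p) ^ (mono σ).card * b ^ r := by
        apply Finset.sum_le_sum; intro X _
        apply Finset.sum_le_sum; intro R _
        rw [Finset.sum_const, Finset.card_univ, Fintype.card_fun, Fintype.card_fin,
          Fintype.card_coe, nsmul_eq_mul]
        split_ifs with hr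
        · calc ((k ^ R.card : ℕ) : ℝ) * ((1 - p) ^ (mono σ).card * (1 - p) ^ (L * R.card))
              = (1 - p) ^ (mono σ).card * b ^ R.card := by
                rw [hb, mul_pow, ← pow_mul]; push_cast; ring
            _ ≤ (1 - p) ^ (mono σ).card * b ^ r := by
                apply mul_le_mul_of_nonneg_left _ (by positivity)
                exact pow_le_pow_of_le_one hb0 hbase hr
        · rw [mul_zero, mul_zero]; positivity
    _ = _ := by
        simp only [Finset.sum_const, Finset.card_univ, Fintype.card_finset, Fintype.card_fin,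
          nsmul_eq_mul, Nat.cast_pow, Nat.cast_ofNat]
        have : (4 : ℝ) ^ n = 2 ^ n * 2 ^ n := by rw [← mul_pow]; norm_num
        rw [this]
        ring

/-- The good event for a balanced colouring has at least half of the weight. -/
theorem good_half {n k N : ℕ} {p : ℝ} (hp0 : 0 ≤ p) (hp1 : p ≤ 1) (σ : Fin n → Fin k)
    (hσ : Bal N σ) (h L r : ℕ) (hbase : (k : ℝ) * (1 - p) ^ L ≤ 1)
    (h1 : (k : ℝ) ^ 2 * 4 ^ N * (1 - p) ^ (h * h) ≤ 1 / 4)
    (h2 : 4 ^ n * ((k : ℝ) * (1 - p) ^ L) ^ r ≤ 1 / 4) :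
    (1 - p) ^ (mono σ).card / 2 ≤
      Pr p (fun x => Prop' σ x ∧ NoHole σ x h ∧ NoCert σ x L r) := by
  have h1p : 0 ≤ 1 - p := by linarith
  have e1 := Pr_hole hp0 hp1 σ hσ h
  have e2 := Pr_cert hp0 hp1 σ L r hbase
  have e3 : Pr p (Prop' σ) ≤ Pr p (fun x => Prop' σ x ∧ NoHole σ x h ∧ NoCert σ x L r) +
      (Pr p (fun x => Prop' σ x ∧ ¬ NoHole σ x h) +
        Pr p (fun x => Prop' σ x ∧ ¬ NoCert σ x L r)) := by
    refine le_trans ?_ (add_le_add_right (Pr_or_le hp0 hp1 _ _) _)
    refine le_trans ?_ (Pr_or_le hp0 hp1 _ _)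
    apply Pr_mono hp0 hp1
    intro x hx
    tauto
  rw [Pr_proper] at e3
  set M := (1 - p) ^ (mono σ).card with hM
  have hM0 : 0 ≤ M := by positivity
  nlinarith

end Pool.Agent.H95.BL
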