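import Mathlib
import Pool.Agent.H95.BL.Cert

open Finset

namespace Pool.Agent.H95.BL

/-- existence of `K` pairwise disjoint nonempty stable sets pairwise inducing connected graphs -/
def HasBil {V : Type*} (G : SimpleGraph V) (K : ℕ) : Prop :=
  ∃ W : Fin K → Finset V, (∀ i, (W i).Nonempty) ∧ (∀ i j, i ≠ j → Disjoint (W i) (W j)) ∧
    (∀ i, ∀ u ∈ W i, ∀ v ∈ W i, ¬ G.Adj u v) ∧
    ∀ i j, i ≠ j → (G.induce ((W i : Set V) ∪ (W j : Set V))).Connected

/-- the set of vertices whose rows differ -/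
def diffSet {n : ℕ} (x y : Sp n) : Finset (Fin n) := Finset.univ.filter (fun v => x v ≠ y v)

lemma diffSet_card {n : ℕ} (x y : Sp n) : (diffSet x y).card = hammingDist x y := rfl

lemma ed_eq_of_notMem {n : ℕ} {x y : Sp n} {u v : Fin n} (hu : u ∉ diffSet x y)
    (hv : v ∉ diffSet x y) : ed x u v = ed y u v := by
  simp only [diffSet, Finset.mem_filter, Finset.mem_univ, true_and, not_not] at hu hv
  simp only [ed]
  rcases le_total u v with h | h
  · rw [max_eq_right h, hv]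
  · rw [max_eq_left h, hu]

lemma core_transfer {n k N h r K s x0 : ℕ} (σ : Fin n → Fin k) (hσ : Bal N σ) (x y : Sp n)
    (hy : Prop' σ y) (hh : 0 < h) (h4 : 4 * h ≤ N) (hH : NoHole σ y h)
    (hC : NoCert σ y (N - 3 * h) r) (hxy : hammingDist x y ≤ x0) (hk : k = K + s)
    (hs : x0 + r ≤ (h + 1) * (s + 1)) : HasBil (gr x) K := by
  classical
  obtain ⟨I, hI, W, hW1, hW2, hW3⟩ := core σ hσ y hh h4 hH hC (diffSet x y)
    (by rw [diffSet_card]; exact hxy) hk hs
  -- choose an injection of `Fin K` into `I`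
  obtain ⟨J, hJI, hJ⟩ := Finset.exists_subset_card_eq hI
  set f : Fin K → Fin k := fun i => ((J.orderEmbOfFin hJ) i) with hf
  have hfinj : Function.Injective f := (J.orderEmbOfFin hJ).injective
  have hfI : ∀ i, f i ∈ I := fun i => hJI (Finset.orderEmbOfFin_mem J hJ i)
  have hsub : ∀ i, ∀ v ∈ W (f i), σ v = f i ∧ v ∉ diffSet x y := by
    intro i v hv
    have := hW1 (f i) (hfI i) hv
    rw [Finset.mem_sdiff, mem_cls] at this
    exact this
  refine ⟨fun i => W (f i), fun i => hW2 _ (hfI i), ?_, ?_, ?_⟩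
  · intro i j hij
    rw [Finset.disjoint_left]
    intro v hv hv'
    exact hij (hfinj ((hsub i v hv).1.symm.trans (hsub j v hv').1))
  · intro i u hu v hv hadj
    obtain ⟨hu1, hu2⟩ := hsub i u hu
    obtain ⟨hv1, hv2⟩ := hsub i v hv
    have hady : (gr y).Adj u v := by
      rw [gr_adj] at hadj ⊢
      rw [← ed_eq_of_notMem hu2 hv2]
      exact hadj
    exact proper_adj hy hady (hu1.trans hv1.symm)
  · intro i j hij
    have h1 := hW3 (f i) (hfI i) (f j) (hfI j) (fun h => hij (hfinj h))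
    have h2 : (gr x).induce ((W (f i) : Set (Fin n)) ∪ (W (f j) : Set (Fin n))) =
        (gr y).induce ((W (f i) : Set (Fin n)) ∪ (W (f j) : Set (Fin n))) := by
      ext ⟨u, hu⟩ ⟨v, hv⟩
      simp only [SimpleGraph.comap_adj, Function.Embedding.subtype_apply, gr_adj]
      have hu2 : u ∉ diffSet x y := by
        rcases hu with hu | hu
        · exact (hsub i u hu).2
        · exact (hsub j u hu).2
      have hv2 : v ∉ diffSet x y := by
        rcases hv with hv | hv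
        · exact (hsub i v hv).2
        · exact (hsub j v hv).2
      rw [ed_eq_of_notMem hu2 hv2]
    rw [h2]
    exact h1

/-- **Bilinked collections exist with high probability** (divisible case, quantitative). -/
theorem bil_prob {n k N h r K s x0 : ℕ} (hn : n = k * N) (hN : 0 < N) (hk0 : 0 < k) {p : ℝ}
    (hp0 : 0 ≤ p) (hp1 : p < 1) (hh : 0 < h) (h4 : 4 * h ≤ N)
    (hbase : (k : ℝ) * (1 - p) ^ (N - 3 * h) ≤ 1)
    (h1 : (k : ℝ) ^ 2 * 4 ^ N * (1 - p) ^ (h * h) ≤ 1 / 4)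
    (h2 : 4 ^ n * ((k : ℝ) * (1 - p) ^ (N - 3 * h)) ^ r ≤ 1 / 4)
    (hk : k = K + s) (hs : x0 + r ≤ (h + 1) * (s + 1)) :
    Pr p (fun x : Sp n => ¬ HasBil (gr x) K) ≤
      (4 * (Real.exp 1 * Real.sqrt N) ^ k * ((N : ℝ) + 1) ^ (k * k)) *
        ((((k : ℝ) - 1 + (1 - p)⁻¹ ^ ((N : ℝ) / 2)) / k) ^ n * Real.exp (-((x0 : ℝ) ^ 2 / n))) := by
  classical
  have hn0 : 0 < n := by subst hn; positivity
  have hkpos : (0 : ℝ) < k := by exact_mod_cast hk0
  set Q : (Fin n → Fin k) → Sp n → Prop := fun σ x =>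
    Prop' σ x ∧ NoHole σ x h ∧ NoCert σ x (N - 3 * h) r with hQ
  have hsm := second_moment_bound hn hN hk0 hp0 hp1 Q (fun σ x hx => hx.1)
    (fun σ hσ => good_half hp0 hp1.le σ hσ h (N - 3 * h) r hbase h1 h2)
  set PS := Pr p (fun x => ∃ σ, Bal N σ ∧ Q σ x) with hPS
  have hfar := Pr_far hp0 hp1.le hn0 (fun x => ∃ σ, Bal N σ ∧ Q σ x) (s := (x0 : ℝ))
    (by positivity)
  rw [← hPS] at hfar
  have hmono : Pr p (fun x : Sp n => ¬ HasBil (gr x) K) ≤
      Pr p (fun x => ∀ y, (∃ σ, Bal N σ ∧ Q σ y) → (x0 : ℝ) ≤ hammingDist x y) := by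
    apply Pr_mono hp0 hp1.le
    rintro x hx y ⟨σ, hσ, hy1, hy2, hy3⟩
    by_contra hlt
    push Not at hlt
    have hlt' : hammingDist x y ≤ x0 := by
      have : hammingDist x y < x0 := by exact_mod_cast hlt
      omega
    exact hx (core_transfer σ hσ x y hy1 hh h4 hy2 hy3 hlt' hk hs)
  set PB := Pr p (fun x : Sp n => ¬ HasBil (gr x) K) with hPB
  have hPB0 : 0 ≤ PB := Pr_nonneg hp0 hp1.le _
  have hPS0 : 0 ≤ PS := Pr_nonneg hp0 hp1.le _
  have h3 : PS * PB ≤ Real.exp (-((x0 : ℝ) ^ 2 / n)) :=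
    (mul_le_mul_of_nonneg_left hmono hPS0).trans hfar
  set A : ℝ := 4 * (Real.exp 1 * Real.sqrt N) ^ k * ((N : ℝ) + 1) ^ (k * k) with hA
  set B : ℝ := (k : ℝ) - 1 + (1 - p)⁻¹ ^ ((N : ℝ) / 2) with hB
  have hA0 : 0 ≤ A := by positivity
  have h1p : 0 < 1 - p := by linarith
  have hB0 : 0 ≤ B := by
    have h5 : (1 : ℝ) ≤ k := by exact_mod_cast hk0
    have h6 : (0 : ℝ) < (1 - p)⁻¹ ^ ((N : ℝ) / 2) := Real.rpow_pos_of_pos (by positivity) _
    linarith
  have h4' : (k : ℝ) ^ n * PB ≤ A * B ^ n * Real.exp (-((x0 : ℝ) ^ 2 / n)) := by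
    calc (k : ℝ) ^ n * PB ≤ (PS * (A * B ^ n)) * PB := by
          apply mul_le_mul_of_nonneg_right _ hPB0
          calc (k : ℝ) ^ n ≤ _ := hsm
            _ = PS * (A * B ^ n) := by rw [hA, hB]
      _ = A * B ^ n * (PS * PB) := by ring
      _ ≤ _ := mul_le_mul_of_nonneg_left h3 (by positivity)
  have h5 : PB = (k : ℝ) ^ n * PB / (k : ℝ) ^ n := by field_simp
  rw [h5, div_le_iff₀ (by positivity), div_pow]
  refine h4'.trans (le_of_eq ?_)
  field_simp

end Pool.Agent.H95.BL
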