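import Mathlib
import Pool.Agent.H95.BL.BilProb

open Finset

namespace Pool.Agent.H95.BL

/-- degree of `v` inside `U` -/
def degIn {n : ℕ} (x : Sp n) (U : Finset (Fin n)) (v : Fin n) : ℕ :=
  (U.filter (fun w => v ≠ w ∧ ed x v w = true)).card

/-- decreasing pairs inside `U` -/
def prs {n : ℕ} (U : Finset (Fin n)) : Finset (Fin n × Fin n) :=
  (U ×ˢ U).filter (fun e => e.2 < e.1)

lemma two_card_prs {n : ℕ} (U : Finset (Fin n)) : 2 * (prs U).card ≤ U.card ^ 2 := by
  have h1 : (prs U).card + ((prs U).map (Equiv.prodComm (Fin n) (Fin n)).toEmbedding).card ≤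
      (U ×ˢ U).card := by
    rw [← Finset.card_union_of_disjoint]
    · apply Finset.card_le_card
      intro e he
      rw [Finset.mem_union] at he
      rcases he with he | he
      · exact (Finset.mem_filter.1 he).1
      · obtain ⟨e', he', rfl⟩ := Finset.mem_map.1 he
        have := (Finset.mem_filter.1 he').1
        rw [Finset.mem_product] at this ⊢
        exact ⟨this.2, this.1⟩
    · rw [Finset.disjoint_left]
      rintro ⟨a, b⟩ h1 h2
      simp only [prs, Finset.mem_filter, Finset.mem_map, Equiv.coe_toEmbedding,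
        Equiv.prodComm_apply, Prod.exists, Prod.swap_prod_mk, Prod.mk.injEq] at h1 h2
      obtain ⟨c, d, h3, rfl, rfl⟩ := h2
      exact absurd h1.2 (not_lt.2 h3.2.le)
  rw [Finset.card_map, Finset.card_product] at h1
  nlinarith

lemma sum_degIn_le {n : ℕ} (x : Sp n) (U : Finset (Fin n)) :
    ∑ v ∈ U, degIn x U v ≤ 2 * ((prs U).filter (fun e => x e.1 e.2 = true)).card := by
  classical
  set A : Finset (Fin n × Fin n) := (U ×ˢ U).filter (fun e => e.1 ≠ e.2 ∧ ed x e.1 e.2 = true)
    with hA
  set B := (prs U).filter (fun e => x e.1 e.2 = true) with hB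
  have h1 : ∑ v ∈ U, degIn x U v = A.card := by
    rw [Finset.card_eq_sum_card_fiberwise (s := A) (t := U) (f := fun e : Fin n × Fin n => e.1)]
    · apply Finset.sum_congr rfl
      intro v hv
      unfold degIn
      apply Finset.card_bij' (fun w _ => (v, w)) (fun e _ => e.2)
      · intro w hw
        simp only [hA, Finset.mem_filter, Finset.mem_product] at hw ⊢
        exact ⟨⟨⟨hv, hw.1⟩, hw.2⟩, trivial⟩
      · intro e he
        simp only [hA, Finset.mem_filter, Finset.mem_product] at he ⊢
        obtain ⟨⟨⟨_, h2⟩, h3⟩, h4⟩ := he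
        rw [← h4]
        exact ⟨h2, h3⟩
      · intro w _; rfl
      · intro e he
        simp only [hA, Finset.mem_filter, Finset.mem_product] at he
        rw [← he.2]
    · intro e he
      simp only [hA, Finset.coe_filter, Set.mem_ofPred_eq, Finset.mem_product] at he
      exact he.1.1
  have h2 : A ⊆ B ∪ B.map (Equiv.prodComm (Fin n) (Fin n)).toEmbedding := by
    rintro ⟨a, b⟩ he
    simp only [hA, Finset.mem_filter, Finset.mem_product] at he
    obtain ⟨⟨ha, hb⟩, hne, hed⟩ := he
    rw [Finset.mem_union]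
    rcases lt_or_gt_of_ne hne with h | h
    · right
      rw [Finset.mem_map]
      refine ⟨(b, a), ?_, rfl⟩
      simp only [hB, prs, Finset.mem_filter, Finset.mem_product]
      refine ⟨⟨⟨hb, ha⟩, h⟩, ?_⟩
      simpa only [ed, max_eq_right h.le, min_eq_left h.le] using hed
    · left
      simp only [hB, prs, Finset.mem_filter, Finset.mem_product]
      refine ⟨⟨⟨ha, hb⟩, h⟩, ?_⟩
      simpa only [ed, max_eq_left h.le, min_eq_right h.le] using hed
  rw [h1]
  calc A.card ≤ (B ∪ B.map (Equiv.prodComm (Fin n) (Fin n)).toEmbedding).card :=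
        Finset.card_le_card h2
    _ ≤ B.card + (B.map (Equiv.prodComm (Fin n) (Fin n)).toEmbedding).card :=
        Finset.card_union_le _ _
    _ = 2 * B.card := by rw [Finset.card_map]; ring

lemma choose_le (M b : ℕ) (hb : 0 < b) : (M.choose b : ℝ) ≤ (Real.exp 1 * M / b) ^ b := by
  have h1 : (M.choose b : ℝ) ≤ (M : ℝ) ^ b / (b.factorial : ℝ) := Nat.choose_le_pow_div b M
  refine h1.trans ?_
  have h2 := factorial_lower b
  have hbpos : (0 : ℝ) < b := by exact_mod_cast hb
  have h3 : (0 : ℝ) < (b / Real.exp 1) ^ b := by positivity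
  calc (M : ℝ) ^ b / (b.factorial : ℝ) ≤ (M : ℝ) ^ b / (b / Real.exp 1) ^ b := by gcongr
    _ = (Real.exp 1 * M / b) ^ b := by
        rw [← div_pow]; congr 1; field_simp

lemma Pr_dense {n : ℕ} {p : ℝ} (hp0 : 0 ≤ p) (hp1 : p ≤ 1) (U : Finset (Fin n)) (t : ℕ)
    (ht : 0 < t) (hU : 0 < U.card) :
    Pr p (fun x : Sp n => ∀ v ∈ U, 2 * t ≤ degIn x U v) ≤
      ((Real.exp 1 * U.card * p / (2 * t)) ^ t) ^ U.card := by
  classical
  set b := t * U.card with hb
  have hbpos : 0 < b := by positivity
  have htpos : (0 : ℝ) < t := by exact_mod_cast ht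
  have hUpos : (0 : ℝ) < U.card := by exact_mod_cast hU
  calc Pr p (fun x : Sp n => ∀ v ∈ U, 2 * t ≤ degIn x U v)
      ≤ Pr p (fun x : Sp n => ∃ F ∈ (prs U).powersetCard b, ∀ e ∈ F, x e.1 e.2 = true) := by
        apply Pr_mono hp0 hp1
        intro x hx
        have h1 : U.card * (2 * t) ≤ ∑ v ∈ U, degIn x U v := by
          rw [← smul_eq_mul, ← Finset.sum_const]
          exact Finset.sum_le_sum hx
        have h2 := sum_degIn_le x U
        have h3 : b ≤ ((prs U).filter (fun e => x e.1 e.2 = true)).card := by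
          rw [hb]; nlinarith
        obtain ⟨F, hF1, hF2⟩ := Finset.exists_subset_card_eq h3
        refine ⟨F, ?_, ?_⟩
        · rw [Finset.mem_powersetCard]
          exact ⟨hF1.trans (Finset.filter_subset _ _), hF2⟩
        · intro e he
          exact (Finset.mem_filter.1 (hF1 he)).2
    _ ≤ ∑ F ∈ (prs U).powersetCard b, p ^ b := by
        refine (Pr_exists_le hp0 hp1 _ _).trans (Finset.sum_le_sum (fun F hF => ?_))
        rw [Pr_all, (Finset.mem_powersetCard.1 hF).2]
    _ = ((prs U).card.choose b : ℝ) * p ^ b := by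
        rw [Finset.sum_const, Finset.card_powersetCard, nsmul_eq_mul]
    _ ≤ (Real.exp 1 * (prs U).card / b) ^ b * p ^ b := by
        apply mul_le_mul_of_nonneg_right (choose_le _ _ hbpos); positivity
    _ = (Real.exp 1 * (prs U).card / b * p) ^ b := by rw [mul_pow]
    _ ≤ (Real.exp 1 * U.card * p / (2 * t)) ^ b := by
        apply pow_le_pow_left₀ (by positivity)
        have h4 : (2 : ℝ) * (prs U).card ≤ (U.card : ℝ) ^ 2 := by exact_mod_cast two_card_prs U
        have h5 : (b : ℝ) = t * U.card := by rw [hb]; push_cast; ring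
        rw [h5]
        have h6 : Real.exp 1 * ((prs U).card : ℝ) / (t * U.card) ≤
            Real.exp 1 * U.card / (2 * t) := by
          rw [div_le_div_iff₀ (by positivity) (by positivity)]
          have := Real.exp_pos 1
          have h7 : Real.exp 1 * ((prs U).card : ℝ) * (2 * t) =
            Real.exp 1 * t * (2 * (prs U).card) := by ring
          have h8 : Real.exp 1 * (U.card : ℝ) * (t * U.card) =
            Real.exp 1 * t * (U.card : ℝ) ^ 2 := by ring
          rw [h7, h8]
          apply mul_le_mul_of_nonneg_left h4 (by positivity)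
        calc Real.exp 1 * ((prs U).card : ℝ) / (t * U.card) * p
            ≤ Real.exp 1 * U.card / (2 * t) * p := mul_le_mul_of_nonneg_right h6 hp0
          _ = _ := by ring
    _ = _ := by rw [hb, pow_mul]

/-- No nonempty set of at most `x0` vertices has minimum degree at least `2t`. -/
def Sparse {n : ℕ} (x : Sp n) (t x0 : ℕ) : Prop :=
  ∀ U : Finset (Fin n), U.Nonempty → U.card ≤ x0 → ∃ v ∈ U, degIn x U v < 2 * t

lemma Pr_not_sparse {n : ℕ} {p : ℝ} (hp0 : 0 ≤ p) (hp1 : p ≤ 1) (hn : 0 < n) (t x0 : ℕ)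
    (ht : 2 ≤ t) {D : ℝ} (hD : D = Real.exp 1 * p * n / (2 * t)) (h1 : D * x0 / n ≤ 1 / 2)
    (h2 : Real.exp 1 * D * (1 / 2) ^ (t - 2) ≤ 1 / 2) :
    Pr p (fun x : Sp n => ¬ Sparse x t x0) ≤ 2 * D / n := by
  classical
  have hnpos : (0 : ℝ) < n := by exact_mod_cast hn
  have htpos : (0 : ℝ) < t := by
    have : 0 < t := by omega
    exact_mod_cast this
  have hD0 : 0 ≤ D := by rw [hD]; positivity
  calc Pr p (fun x : Sp n => ¬ Sparse x t x0)
      ≤ Pr p (fun x : Sp n => ∃ m ∈ Finset.Icc 1 x0,
          ∃ U ∈ (Finset.univ : Finset (Fin n)).powersetCard m,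
          ∀ v ∈ U, 2 * t ≤ degIn x U v) := by
        apply Pr_mono hp0 hp1
        intro x hx
        simp only [Sparse] at hx
        push Not at hx
        obtain ⟨U, hU1, hU2, hU3⟩ := hx
        refine ⟨U.card, Finset.mem_Icc.2 ⟨Finset.card_pos.2 hU1, hU2⟩, U, ?_, hU3⟩
        rw [Finset.mem_powersetCard]
        exact ⟨Finset.subset_univ _, rfl⟩
    _ ≤ ∑ m ∈ Finset.Icc 1 x0, ∑ U ∈ (Finset.univ : Finset (Fin n)).powersetCard m,
          ((Real.exp 1 * m * p / (2 * t)) ^ t) ^ m := by
        refine (Pr_exists_le hp0 hp1 _ _).trans (Finset.sum_le_sum (fun m hm => ?_))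
        refine (Pr_exists_le hp0 hp1 _ _).trans (Finset.sum_le_sum (fun U hU => ?_))
        have hUm := (Finset.mem_powersetCard.1 hU).2
        have := Pr_dense hp0 hp1 U t (by omega) (by rw [hUm]; exact (Finset.mem_Icc.1 hm).1)
        rw [hUm] at this
        exact this
    _ = ∑ m ∈ Finset.Icc 1 x0, (n.choose m : ℝ) * ((Real.exp 1 * m * p / (2 * t)) ^ t) ^ m := by
        apply Finset.sum_congr rfl
        intro m _
        rw [Finset.sum_const, Finset.card_powersetCard, Finset.card_univ, Fintype.card_fin,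
          nsmul_eq_mul]
    _ ≤ ∑ m ∈ Finset.Icc 1 x0, (2 * D / n) * (1 / 2) ^ m := by
        apply Finset.sum_le_sum
        intro m hm
        rw [Finset.mem_Icc] at hm
        have hmpos : (0 : ℝ) < m := by
          have : 0 < m := by omega
          exact_mod_cast this
        have hm1 : (1 : ℝ) ≤ m := by exact_mod_cast hm.1
        have e1 : Real.exp 1 * m * p / (2 * t) = D * m / n := by
          rw [hD]; field_simp
        set z : ℝ := D * m / n with hz
        have hz0 : 0 ≤ z := by positivity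
        have hz1 : z ≤ 1 / 2 := by
          refine le_trans ?_ h1
          rw [hz]
          have : (m : ℝ) ≤ x0 := by exact_mod_cast hm.2
          gcongr
        rw [e1]
        have e2 : (n.choose m : ℝ) ≤ (Real.exp 1 * n / m) ^ m := choose_le n m (by omega)
        have e3 : (n.choose m : ℝ) * (z ^ t) ^ m ≤ (Real.exp 1 * n / m * z ^ t) ^ m := by
          rw [mul_pow]
          apply mul_le_mul_of_nonneg_right e2 (by positivity)
        refine e3.trans ?_
        -- base ≤ z / 2
        have e4 : Real.exp 1 * n / m * z ^ t ≤ z / 2 := by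
          obtain ⟨t', rfl⟩ : ∃ t', t = t' + 2 := ⟨t - 2, by omega⟩
          rw [Nat.add_sub_cancel] at h2
          have e5 : Real.exp 1 * n / m * z ^ (t' + 2) = (Real.exp 1 * D * z ^ t') * z := by
            have : Real.exp 1 * n / m * z ^ (t' + 2) = Real.exp 1 * z ^ t' * z * (n / m * z) := by
              ring
            rw [this]
            have e6 : (n : ℝ) / m * z = D := by rw [hz]; field_simp
            rw [e6]; ring
          rw [e5]
          have e7 : Real.exp 1 * D * z ^ t' ≤ 1 / 2 := by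
            refine le_trans ?_ h2
            apply mul_le_mul_of_nonneg_left _ (by positivity)
            exact pow_le_pow_left₀ hz0 hz1 t'
          nlinarith
        have e8 : (Real.exp 1 * n / m * z ^ t) ^ m ≤ (z / 2) ^ m :=
          pow_le_pow_left₀ (by positivity) e4 m
        refine e8.trans ?_
        -- (z/2)^m = (1/2)^m z^m ≤ (1/2)^m * z * (1/2)^(m-1) ≤ (1/2)^m * 2D/n
        obtain ⟨m', rfl⟩ : ∃ m', m = m' + 1 := ⟨m - 1, by omega⟩
        have e9 : z ^ (m' + 1) ≤ 2 * D / n := by
          have e10 : z ^ m' ≤ (1 / 2) ^ m' := pow_le_pow_left₀ hz0 hz1 m'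
          have e11 : ((m' + 1 : ℕ) : ℝ) * (1 / 2) ^ m' ≤ 2 := by
            have e12 : ((m' + 1 : ℕ) : ℝ) ≤ 2 ^ (m' + 1) := by
              have := (Nat.lt_two_pow_self (n := m' + 1)).le
              exact_mod_cast this
            calc ((m' + 1 : ℕ) : ℝ) * (1 / 2) ^ m' ≤ 2 ^ (m' + 1) * (1 / 2) ^ m' := by gcongr
              _ = 2 := by
                rw [pow_succ, mul_comm (2 ^ m' : ℝ) 2, mul_assoc, ← mul_pow]; norm_num
          calc z ^ (m' + 1) = z ^ m' * z := pow_succ _ _
            _ ≤ (1 / 2) ^ m' * z := mul_le_mul_of_nonneg_right e10 hz0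
            _ = (((m' + 1 : ℕ) : ℝ) * (1 / 2) ^ m') * (D / n) := by rw [hz]; ring
            _ ≤ 2 * (D / n) := mul_le_mul_of_nonneg_right e11 (by positivity)
            _ = 2 * D / n := by ring
        calc (z / 2) ^ (m' + 1) = z ^ (m' + 1) * (1 / 2) ^ (m' + 1) := by
              rw [← mul_pow]; congr 1; ring
          _ ≤ _ := mul_le_mul_of_nonneg_right e9 (by positivity)
    _ ≤ 2 * D / n := by
        rw [← Finset.mul_sum]
        have h3 : ∑ m ∈ Finset.Icc 1 x0, ((1 : ℝ) / 2) ^ m ≤ 1 := by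
          have : ∀ x0 : ℕ, ∑ m ∈ Finset.Icc 1 x0, ((1 : ℝ) / 2) ^ m = 1 - (1 / 2) ^ x0 := by
            intro x0
            induction x0 with
            | zero => simp
            | succ x0 ih =>
              rw [Finset.sum_Icc_succ_top (by omega), ih]; ring
          rw [this]
          have : (0 : ℝ) ≤ (1 / 2) ^ x0 := by positivity
          linarith
        calc 2 * D / n * ∑ m ∈ Finset.Icc 1 x0, ((1 : ℝ) / 2) ^ m ≤ 2 * D / n * 1 :=
              mul_le_mul_of_nonneg_left h3 (by positivity)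
          _ = _ := mul_one _

/-- small sets can be coloured with `2t` colours -/
lemma sparse_color {n : ℕ} {x : Sp n} {t x0 : ℕ} (ht : 0 < t) (hx : Sparse x t x0) :
    ∀ (m : ℕ) (U : Finset (Fin n)), U.card = m → m ≤ x0 →
      ∃ c : Fin n → Fin (2 * t), ∀ u ∈ U, ∀ v ∈ U, (gr x).Adj u v → c u ≠ c v := by
  classical
  intro m
  induction m with
  | zero =>
    intro U hU _
    rw [Finset.card_eq_zero] at hU
    exact ⟨fun _ => ⟨0, by omega⟩, by simp [hU]⟩
  | succ m ih =>
    intro U hU hm
    obtain ⟨v, hv, hdeg⟩ := hx U (Finset.card_pos.1 (by omega)) (by omega)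
    obtain ⟨c, hc⟩ := ih (U.erase v) (by rw [Finset.card_erase_of_mem hv, hU]; rfl) (by omega)
    -- a free colour for `v`
    set N := U.filter (fun w => v ≠ w ∧ ed x v w = true) with hN
    have hNc : (N.image c).card < Fintype.card (Fin (2 * t)) := by
      rw [Fintype.card_fin]
      exact (Finset.card_image_le).trans_lt hdeg
    obtain ⟨a, ha⟩ : ∃ a, a ∉ N.image c := by
      by_contra hcon
      push Not at hcon
      have : N.image c = Finset.univ := Finset.eq_univ_iff_forall.2 hcon
      rw [this, Finset.card_univ] at hNc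
      exact lt_irrefl _ hNc
    refine ⟨Function.update c v a, ?_⟩
    intro u hu w hw hadj
    by_cases huv : u = v
    · subst huv
      have hwu : w ≠ u := fun h => hadj.1 h.symm
      rw [Function.update_self, Function.update_of_ne hwu]
      intro h
      apply ha
      rw [h]
      apply Finset.mem_image_of_mem
      rw [hN, Finset.mem_filter]
      exact ⟨hw, hadj⟩
    · by_cases hwv : w = v
      · subst hwv
        rw [Function.update_self, Function.update_of_ne huv]
        intro h
        apply ha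
        rw [← h]
        apply Finset.mem_image_of_mem
        rw [hN, Finset.mem_filter]
        exact ⟨hu, hadj.symm⟩
      · rw [Function.update_of_ne huv, Function.update_of_ne hwv]
        exact hc u (Finset.mem_erase.2 ⟨huv, hu⟩) w (Finset.mem_erase.2 ⟨hwv, hw⟩) hadj

lemma color_transfer {n k t x0 : ℕ} (ht : 0 < t) (σ : Fin n → Fin k) (x y : Sp n)
    (hy : Prop' σ y) (hx : Sparse x t x0) (hxy : hammingDist x y ≤ x0) :
    (gr x).Colorable (k + 2 * t) := by
  classical
  obtain ⟨c, hc⟩ := sparse_color ht hx _ (diffSet x y) rfl (by rw [diffSet_card]; exact hxy)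
  refine ⟨SimpleGraph.Coloring.mk (fun v => if v ∈ diffSet x y then Fin.natAdd k (c v)
    else Fin.castAdd (2 * t) (σ v)) ?_⟩
  intro u v hadj h
  by_cases hu : u ∈ diffSet x y <;> by_cases hv : v ∈ diffSet x y <;>
    simp only [hu, hv, if_true, if_false] at h
  · have h1 := congrArg Fin.val h
    simp only [Fin.val_natAdd] at h1
    exact hc u hu v hv hadj (Fin.ext (by omega))
  · have h1 := congrArg Fin.val h
    simp only [Fin.val_natAdd, Fin.val_castAdd] at h1
    have := (σ v).2
    omega
  · have h1 := congrArg Fin.val h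
    simp only [Fin.val_natAdd, Fin.val_castAdd] at h1
    have := (σ u).2
    omega
  · have h1 := congrArg Fin.val h
    simp only [Fin.val_castAdd] at h1
    have hady : (gr y).Adj u v := by
      rw [gr_adj] at hadj ⊢
      rw [← ed_eq_of_notMem hu hv]
      exact hadj
    exact proper_adj hy hady (Fin.ext h1)

/-- **Colourability with high probability** (divisible case, quantitative). -/
theorem col_prob {n k N t x0 : ℕ} (hn : n = k * N) (hN : 0 < N) (hk0 : 0 < k) {p : ℝ}
    (hp0 : 0 ≤ p) (hp1 : p < 1) (ht : 2 ≤ t) {D : ℝ} (hD : D = Real.exp 1 * p * n / (2 * t))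
    (h1 : D * x0 / n ≤ 1 / 2) (h2 : Real.exp 1 * D * (1 / 2) ^ (t - 2) ≤ 1 / 2) :
    Pr p (fun x : Sp n => ¬ (gr x).Colorable (k + 2 * t)) ≤
      (4 * (Real.exp 1 * Real.sqrt N) ^ k * ((N : ℝ) + 1) ^ (k * k)) *
        ((((k : ℝ) - 1 + (1 - p)⁻¹ ^ ((N : ℝ) / 2)) / k) ^ n * Real.exp (-((x0 : ℝ) ^ 2 / n)))
        + 2 * D / n := by
  classical
  have hn0 : 0 < n := by subst hn; positivity
  have hkpos : (0 : ℝ) < k := by exact_mod_cast hk0
  set Q : (Fin n → Fin k) → Sp n → Prop := fun σ x => Prop' σ x with hQ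
  have h1p : 0 < 1 - p := by linarith
  have hsm := second_moment_bound hn hN hk0 hp0 hp1 Q (fun σ x hx => hx)
    (fun σ hσ => by
      rw [hQ, Pr_proper]
      have : 0 ≤ (1 - p) ^ (mono σ).card := by positivity
      linarith)
  set PS := Pr p (fun x => ∃ σ, Bal N σ ∧ Q σ x) with hPS
  have hfar := Pr_far hp0 hp1.le hn0 (fun x => ∃ σ, Bal N σ ∧ Q σ x) (s := (x0 : ℝ))
    (by positivity)
  rw [← hPS] at hfar
  have hsp := Pr_not_sparse hp0 hp1.le hn0 t x0 ht hD h1 h2
  set PF := Pr p (fun x => ∀ y, (∃ σ, Bal N σ ∧ Q σ y) → (x0 : ℝ) ≤ hammingDist x y) with hPF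
  have hmono : Pr p (fun x : Sp n => ¬ (gr x).Colorable (k + 2 * t)) ≤
      PF + Pr p (fun x : Sp n => ¬ Sparse x t x0) := by
    refine le_trans ?_ (Pr_or_le hp0 hp1.le _ _)
    apply Pr_mono hp0 hp1.le
    intro x hx
    by_cases hs : Sparse x t x0
    · left
      rintro y ⟨σ, hσ, hy⟩
      by_contra hlt
      push Not at hlt
      have hlt' : hammingDist x y ≤ x0 := by
        have : hammingDist x y < x0 := by exact_mod_cast hlt
        omega
      exact hx (color_transfer (by omega) σ x y hy hs hlt')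
    · right; exact hs
  have hPF0 : 0 ≤ PF := Pr_nonneg hp0 hp1.le _
  have hPS0 : 0 ≤ PS := Pr_nonneg hp0 hp1.le _
  set A : ℝ := 4 * (Real.exp 1 * Real.sqrt N) ^ k * ((N : ℝ) + 1) ^ (k * k) with hA
  set B : ℝ := (k : ℝ) - 1 + (1 - p)⁻¹ ^ ((N : ℝ) / 2) with hB
  have hA0 : 0 ≤ A := by positivity
  have hB0 : 0 ≤ B := by
    have h5 : (1 : ℝ) ≤ k := by exact_mod_cast hk0
    have h6 : (0 : ℝ) < (1 - p)⁻¹ ^ ((N : ℝ) / 2) := Real.rpow_pos_of_pos (by positivity) _
    linarith
  have h4' : (k : ℝ) ^ n * PF ≤ A * B ^ n * Real.exp (-((x0 : ℝ) ^ 2 / n)) := by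
    calc (k : ℝ) ^ n * PF ≤ (PS * (A * B ^ n)) * PF := by
          apply mul_le_mul_of_nonneg_right _ hPF0
          calc (k : ℝ) ^ n ≤ _ := hsm
            _ = PS * (A * B ^ n) := by rw [hA, hB]
      _ = A * B ^ n * (PS * PF) := by ring
      _ ≤ _ := mul_le_mul_of_nonneg_left hfar (by positivity)
  have h6 : PF ≤ A * ((B / k) ^ n * Real.exp (-((x0 : ℝ) ^ 2 / n))) := by
    have h5 : PF = (k : ℝ) ^ n * PF / (k : ℝ) ^ n := by field_simp
    rw [h5, div_le_iff₀ (by positivity), div_pow]
    refine h4'.trans (le_of_eq ?_)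
    field_simp
  linarith

end Pool.Agent.H95.BL
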