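import Mathlib

namespace Pool.Agent.H95.BL

/-- The possible edges on the vertex set `Fin n`: the unordered pairs of distinct vertices. -/
abbrev Pair (n : ℕ) : Type := {e : Sym2 (Fin n) // ¬ e.IsDiag}

/-- The sample space of the random graph process on `n` vertices: the orders in which the
`n.choose 2` possible edges are added. -/
abbrev EdgeOrder (n : ℕ) : Type := Fin (n.choose 2) ≃ Pair n

/-- The graph `G_M` of the process: its edges are the first `M` edges of the order `π`. -/
def graphAt {n : ℕ} (π : EdgeOrder n) (M : ℕ) : SimpleGraph (Fin n) where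
  Adj u v := ∃ i : Fin (n.choose 2), (i : ℕ) < M ∧ (π i : Sym2 (Fin n)) = s(u, v)
  symm := ⟨fun u v h => by
    obtain ⟨i, hi, he⟩ := h
    exact ⟨i, hi, by rw [he, Sym2.eq_swap]⟩⟩
  loopless := ⟨fun u h => by
    obtain ⟨i, _, he⟩ := h
    exact (π i).2 (by rw [he]; exact Sym2.mk_isDiag_iff.2 rfl)⟩

/-- The probability of an event of the random graph process, all edge orders being equally
likely. -/
noncomputable def prob {n : ℕ} (A : Set (EdgeOrder n)) : ℝ :=
  (A.ncard : ℝ) / (Nat.card (EdgeOrder n) : ℝ)

/-- `W` is a bilinked collection of stable sets of `G`: the sets `W i` are nonempty, pairwise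
disjoint and stable, and for `i ≠ j` the subgraph induced by `W i ∪ W j` is connected. -/
structure IsBilinked {V : Type*} (G : SimpleGraph V) {k : ℕ} (W : Fin k → Set V) : Prop where
  nonempty : ∀ i, (W i).Nonempty
  disjoint : ∀ i j, i ≠ j → Disjoint (W i) (W j)
  stable : ∀ i, ∀ u ∈ W i, ∀ v ∈ W i, ¬ G.Adj u v
  connected : ∀ i j, i ≠ j → (G.induce (W i ∪ W j)).Connected

/-- The vertex set `U` induces a triangle in `G`: it has exactly three vertices and they are
pairwise adjacent. -/
def InducesTriangle {V : Type*} (G : SimpleGraph V) (U : Set V) : Prop :=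
  U.ncard = 3 ∧ ∀ u ∈ U, ∀ v ∈ U, u ≠ v → G.Adj u v

/-- `G` contains a bilinked collection of `k` stable sets whose union does not induce a
triangle. -/
def HasBilinked {V : Type*} (G : SimpleGraph V) (k : ℕ) : Prop :=
  ∃ W : Fin k → Set V, IsBilinked G W ∧ ¬ InducesTriangle G (⋃ i, W i)

/-- `b` is the step `τ_B`: the least `M` such that `G_M` contains a bilinked collection of `k`
stable sets whose union does not induce a triangle. -/
def IsTauB (k : ℕ) {n : ℕ} (π : EdgeOrder n) (b : ℕ) : Prop :=
  IsLeast {M : ℕ | HasBilinked (graphAt π M) k} b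

/-- `c` is the step `τ_χ`: the least `M` such that `χ(G_M) ≥ k + 1`. -/
def IsTauChi (k : ℕ) {n : ℕ} (π : EdgeOrder n) (c : ℕ) : Prop :=
  IsLeast {M : ℕ | ((k + 1 : ℕ) : ℕ∞) ≤ (graphAt π M).chromaticNumber} c

end Pool.Agent.H95.BL
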