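import Mathlib
import Pool.Agent.H95.BL.Defs
import Pool.Agent.H95.BL.ColProb

open Finset

namespace Pool.Agent.H95.BL

/-- the graph with edge set `A` -/
def fromPairs {n : ℕ} (A : Finset (Pair n)) : SimpleGraph (Fin n) where
  Adj u v := ∃ e ∈ A, (e : Sym2 (Fin n)) = s(u, v)
  symm := ⟨fun u v h => by
    obtain ⟨e, he, h⟩ := h
    exact ⟨e, he, by rw [h, Sym2.eq_swap]⟩⟩
  loopless := ⟨fun u h => by
    obtain ⟨e, _, h⟩ := h
    exact e.2 (by rw [h]; exact Sym2.mk_isDiag_iff.2 rfl)⟩

/-- the decreasing pairs -/
def decr (n : ℕ) : Finset (Fin n × Fin n) := Finset.univ.filter (fun e => e.2 < e.1)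

lemma mem_decr {n : ℕ} {e : Fin n × Fin n} : e ∈ decr n ↔ e.2 < e.1 := by simp [decr]

/-- a decreasing pair as an unordered pair -/
def toPair {n : ℕ} (e : Fin n × Fin n) (he : e ∈ decr n) : Pair n :=
  ⟨s(e.1, e.2), fun h => (mem_decr.1 he).ne' (Sym2.mk_isDiag_iff.1 h)⟩

lemma toPair_inj {n : ℕ} {e e' : Fin n × Fin n} (he : e ∈ decr n) (he' : e' ∈ decr n)
    (h : toPair e he = toPair e' he') : e = e' := by
  have h1 := congrArg Subtype.val h
  simp only [toPair, Sym2.eq_iff] at h1
  have h2 := mem_decr.1 he
  have h3 := mem_decr.1 he'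
  rcases h1 with ⟨h4, h5⟩ | ⟨h4, h5⟩
  · exact Prod.ext h4 h5
  · rw [h4, h5] at h2
    exact absurd h2 (not_lt.2 h3.le)

lemma toPair_surj {n : ℕ} (e : Pair n) : ∃ f, ∃ hf : f ∈ decr n, toPair f hf = e := by
  obtain ⟨e, he⟩ := e
  induction e using Sym2.inductionOn with
  | _ a b =>
    have hne : a ≠ b := fun h => he (Sym2.mk_isDiag_iff.2 h)
    rcases lt_or_gt_of_ne hne with h | h
    · refine ⟨(b, a), mem_decr.2 h, ?_⟩
      apply Subtype.ext
      simp only [toPair]
      exact Sym2.eq_swap
    · exact ⟨(a, b), mem_decr.2 h, rfl⟩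

open Classical in
/-- the set of present pairs -/
noncomputable def present {n : ℕ} (x : Sp n) : Finset (Pair n) :=
  Finset.univ.filter (fun e => (e : Sym2 (Fin n)) ∈ (gr x).edgeSet)

lemma mem_present {n : ℕ} {x : Sp n} {e : Pair n} :
    e ∈ present x ↔ (e : Sym2 (Fin n)) ∈ (gr x).edgeSet := by simp [present]

lemma toPair_mem_present {n : ℕ} {x : Sp n} {e : Fin n × Fin n} (he : e ∈ decr n) :
    toPair e he ∈ present x ↔ x e.1 e.2 = true := by
  rw [mem_present]
  simp only [toPair, SimpleGraph.mem_edgeSet, gr_adj, ed]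
  have h := mem_decr.1 he
  rw [max_eq_left h.le, min_eq_right h.le]
  exact ⟨fun h => h.2, fun h' => ⟨h.ne', h'⟩⟩

lemma gr_eq_fromPairs {n : ℕ} (x : Sp n) : gr x = fromPairs (present x) := by
  ext u v
  simp only [fromPairs]
  constructor
  · intro h
    refine ⟨⟨s(u, v), fun hd => h.ne (Sym2.mk_isDiag_iff.1 hd)⟩, ?_, rfl⟩
    rw [mem_present]
    exact h
  · rintro ⟨e, he, h⟩
    rw [mem_present, h] at he
    exact he

lemma Pr_present {n : ℕ} (p : ℝ) (A : Finset (Pair n)) :
    Pr p (fun x : Sp n => present x = A) = p ^ A.card * (1 - p) ^ (n.choose 2 - A.card) := by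
  classical
  have h1 : ∀ x : Sp n, present x = A ↔ ∀ e ∈ decr n, x e.1 e.2 =
      (if h : e ∈ decr n then decide (toPair e h ∈ A) else false) := by
    intro x
    constructor
    · intro hx e he
      rw [dif_pos he]
      have := toPair_mem_present (x := x) he
      rw [hx] at this
      by_cases h : toPair e he ∈ A
      · rw [this.1 h]; simp [h]
      · have h2 : ¬ x e.1 e.2 = true := fun h3 => h (this.2 h3)
        rw [Bool.not_eq_true] at h2
        rw [h2]; simp [h]
    · intro hx
      ext e
      obtain ⟨f, hf, rfl⟩ := toPair_surj e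
      rw [toPair_mem_present, hx f hf, dif_pos hf, decide_eq_true_iff]
  simp only [h1]
  rw [Pr_cylinder (decr n) (fun e => if h : e ∈ decr n then decide (toPair e h ∈ A) else false)]
  have h2 : ∏ e ∈ decr n, (if (if h : e ∈ decr n then decide (toPair e h ∈ A) else false) = true
      then p else 1 - p) = ∏ e : Pair n, (if e ∈ A then p else 1 - p) := by
    apply Finset.prod_bij (fun e he => toPair e he)
    · intro e he; exact Finset.mem_univ _
    · intro e he e' he' h; exact toPair_inj he he' h
    · intro e _
      obtain ⟨f, hf, h⟩ := toPair_surj e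
      exact ⟨f, hf, h⟩
    · intro e he
      rw [dif_pos he]
      simp
  rw [h2, Finset.prod_ite, Finset.prod_const, Finset.prod_const]
  congr 2
  · congr 1; ext; simp
  · rw [Finset.filter_not, Finset.card_sdiff_of_subset (Finset.filter_subset _ _),
      Finset.card_univ, Sym2.card_subtype_not_diag, Fintype.card_fin]
    congr 2; ext; simp

/-- probability of a graph event in the independent-edges model as a sum over edge sets -/
lemma Pr_gr {n : ℕ} (p : ℝ) (Q : SimpleGraph (Fin n) → Prop) [DecidablePred Q] :
    Pr p (fun x : Sp n => Q (gr x)) =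
      ∑ A : Finset (Pair n), if Q (fromPairs A) then
        p ^ A.card * (1 - p) ^ (n.choose 2 - A.card) else 0 := by
  classical
  have h1 : ∀ A : Finset (Pair n), (if Q (fromPairs A) then
      p ^ A.card * (1 - p) ^ (n.choose 2 - A.card) else 0) =
      ∑ x : Sp n, if present x = A then (if Q (gr x) then wt (bw p) x else 0) else 0 := by
    intro A
    rw [← Pr_present p A, Pr_eq_sum_ite]
    split_ifs with h
    · apply Finset.sum_congr rfl
      intro x _
      by_cases hx : present x = A
      · rw [if_pos hx, if_pos hx, gr_eq_fromPairs, hx, if_pos h]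
      · rw [if_neg hx, if_neg hx]
    · symm
      apply Finset.sum_eq_zero
      intro x _
      by_cases hx : present x = A
      · rw [if_pos hx, gr_eq_fromPairs, hx, if_neg h]
      · rw [if_neg hx]
  simp only [h1]
  rw [Finset.sum_comm, Pr_eq_sum_ite]
  apply Finset.sum_congr rfl
  intro x _
  rw [Finset.sum_ite_eq]
  simp

/-- the set of the first `M` edges -/
def firstM {n : ℕ} (π : EdgeOrder n) (M : ℕ) : Finset (Pair n) :=
  (Finset.univ.filter (fun i : Fin (n.choose 2) => (i : ℕ) < M)).map π.toEmbedding

lemma graphAt_eq {n : ℕ} (π : EdgeOrder n) (M : ℕ) : graphAt π M = fromPairs (firstM π M) := by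
  ext u v
  simp only [graphAt, fromPairs, firstM, Finset.mem_map, Finset.mem_filter, Finset.mem_univ,
    true_and, Equiv.coe_toEmbedding]
  constructor
  · rintro ⟨i, hi, h⟩; exact ⟨π i, ⟨i, hi, rfl⟩, h⟩
  · rintro ⟨e, ⟨i, hi, rfl⟩, h⟩; exact ⟨i, hi, h⟩

lemma card_firstM {n : ℕ} (π : EdgeOrder n) {M : ℕ} (hM : M ≤ n.choose 2) :
    (firstM π M).card = M := by
  rw [firstM, Finset.card_map]
  have : (Finset.univ.filter (fun i : Fin (n.choose 2) => (i : ℕ) < M)).card = M := by
    rw [Fin.card_filter_val_lt]
    exact min_eq_right hM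
  exact this

/-- orders whose first `M` edges form `A` -/
noncomputable def fib {n : ℕ} (M : ℕ) (A : Finset (Pair n)) : Finset (EdgeOrder n) :=
  Finset.univ.filter (fun π => firstM π M = A)

lemma fib_card_eq {n : ℕ} {M : ℕ} {A A' : Finset (Pair n)} (h : A.card = A'.card) :
    (fib M A).card ≤ (fib M A').card := by
  classical
  -- a permutation of the pairs mapping `A` onto `A'`
  have e : {x // x ∈ A} ≃ {x // x ∈ A'} := Finset.equivOfCardEq h
  set ρ : Equiv.Perm (Pair n) := e.extendSubtype with hρ
  have hρA : ∀ x, ρ x ∈ A' ↔ x ∈ A := by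
    intro x
    constructor
    · intro hx
      by_contra hcon
      exact e.extendSubtype_not_mem x hcon hx
    · intro hx
      exact e.extendSubtype_mem x hx
  apply Finset.card_le_card_of_injOn (fun π => π.trans ρ)
  · intro π hπ
    simp only [fib, Finset.coe_filter, Finset.mem_univ, true_and, Set.mem_ofPred_eq] at hπ ⊢
    have h1 : firstM (π.trans ρ) M = (firstM π M).map ρ.toEmbedding := by
      simp only [firstM, Finset.map_map]
      rfl
    rw [h1, hπ]
    ext x
    simp only [Finset.mem_map, Equiv.coe_toEmbedding]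
    constructor
    · rintro ⟨y, hy, rfl⟩
      exact (hρA y).2 hy
    · intro hx
      refine ⟨ρ.symm x, ?_, by simp⟩
      rw [← hρA]
      simpa using hx
  · intro π _ π' _ h
    have h2 : π.trans ρ = π'.trans ρ := h
    ext i
    have := congrArg (fun e : EdgeOrder n => e i) h2
    simp only [Equiv.trans_apply] at this
    rw [ρ.injective this]

lemma card_orders (n : ℕ) : 0 < Nat.card (EdgeOrder n) := by
  have h : Fintype.card (Pair n) = n.choose 2 := by
    rw [Sym2.card_subtype_not_diag, Fintype.card_fin]
  have : Nonempty (EdgeOrder n) := ⟨(Fintype.equivFinOfCardEq h).symm⟩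
  exact Nat.card_pos

/-- counting orders through edge sets -/
lemma count_orders {n : ℕ} {M : ℕ} (hM : M ≤ n.choose 2) (Q : SimpleGraph (Fin n) → Prop)
    [DecidablePred Q] (A0 : Finset (Pair n)) (hA0 : A0.card = M) :
    (Finset.univ.filter (fun π : EdgeOrder n => Q (graphAt π M))).card =
      ((Finset.univ.powersetCard M).filter (fun A : Finset (Pair n) => Q (fromPairs A))).card *
        (fib M A0).card := by
  classical
  rw [Finset.card_eq_sum_card_fiberwise
    (s := Finset.univ.filter (fun π : EdgeOrder n => Q (graphAt π M)))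
    (t := (Finset.univ.powersetCard M).filter (fun A : Finset (Pair n) => Q (fromPairs A)))
    (f := fun π : EdgeOrder n => firstM π M)]
  · rw [← smul_eq_mul, ← Finset.sum_const]
    apply Finset.sum_congr rfl
    intro A hA
    simp only [Finset.mem_filter, Finset.mem_powersetCard] at hA
    have h1 : ((Finset.univ.filter (fun π : EdgeOrder n => Q (graphAt π M))).filter
        (fun π => firstM π M = A)) = fib M A := by
      ext π
      simp only [fib, Finset.mem_filter, Finset.mem_univ, true_and]
      constructor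
      · rintro ⟨_, h⟩; exact h
      · intro h
        refine ⟨?_, h⟩
        rw [graphAt_eq, h]; exact hA.2
    rw [h1]
    exact le_antisymm (fib_card_eq (hA.1.2.trans hA0.symm))
      (fib_card_eq (hA0.trans hA.1.2.symm))
  · intro π hπ
    simp only [Finset.coe_filter, Finset.mem_univ, true_and, Set.mem_ofPred_eq,
      Finset.mem_powersetCard] at hπ ⊢
    refine ⟨⟨Finset.subset_univ _, card_firstM π hM⟩, ?_⟩
    rw [← graphAt_eq]; exact hπ

lemma prob_eq {n : ℕ} {M : ℕ} (hM : M ≤ n.choose 2) (Q : SimpleGraph (Fin n) → Prop)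
    [DecidablePred Q] :
    prob {π : EdgeOrder n | Q (graphAt π M)} * ((n.choose 2).choose M : ℝ) =
      (((Finset.univ.powersetCard M).filter
        (fun A : Finset (Pair n) => Q (fromPairs A))).card : ℝ) := by
  classical
  have hcard : Fintype.card (Pair n) = n.choose 2 := by
    rw [Sym2.card_subtype_not_diag, Fintype.card_fin]
  obtain ⟨A0, _, hA0⟩ := Finset.exists_subset_card_eq
    (s := (Finset.univ : Finset (Pair n))) (n := M) (by rw [Finset.card_univ, hcard]; exact hM)
  have h1 := count_orders hM Q A0 hA0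
  have h2 := count_orders hM (fun _ => True) A0 hA0
  simp only [Finset.filter_true, Finset.card_univ, Finset.card_powersetCard, hcard] at h2
  have h3 : (({π : EdgeOrder n | Q (graphAt π M)} : Set (EdgeOrder n)).ncard) =
      (Finset.univ.filter (fun π : EdgeOrder n => Q (graphAt π M))).card := by
    rw [← Set.ncard_coe_finset]
    congr 1
    ext π
    simp
  have h4 : Nat.card (EdgeOrder n) = Fintype.card (EdgeOrder n) := Nat.card_eq_fintype_card
  have hpos := card_orders n
  unfold prob
  rw [h3, h4, h1]
  rw [h4, h2] at hpos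
  rw [h2]
  have hf : (fib M A0).card ≠ 0 := by
    intro h; rw [h, mul_zero] at hpos; exact lt_irrefl _ hpos
  have hc : (n.choose 2).choose M ≠ 0 := by
    intro h; rw [h, zero_mul] at hpos; exact lt_irrefl _ hpos
  have hf' : ((fib M A0).card : ℝ) ≠ 0 := by exact_mod_cast hf
  have hc' : (((n.choose 2).choose M : ℕ) : ℝ) ≠ 0 := by exact_mod_cast hc
  push_cast
  field_simp

/-- **Transfer**: the independent model is the binomial mixture of the process. -/
theorem transfer {n : ℕ} (p : ℝ) (Q : SimpleGraph (Fin n) → Prop) :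
    Pr p (fun x : Sp n => Q (gr x)) =
      ∑ M ∈ Finset.range (n.choose 2 + 1),
        ((n.choose 2).choose M : ℝ) * p ^ M * (1 - p) ^ (n.choose 2 - M) *
          prob {π : EdgeOrder n | Q (graphAt π M)} := by
  classical
  rw [Pr_gr]
  have hcard : Fintype.card (Pair n) = n.choose 2 := by
    rw [Sym2.card_subtype_not_diag, Fintype.card_fin]
  rw [← Finset.sum_fiberwise_of_maps_to (s := (Finset.univ : Finset (Finset (Pair n))))
    (t := Finset.range (n.choose 2 + 1)) (g := fun A => A.card)]
  · apply Finset.sum_congr rfl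
    intro M hM
    rw [Finset.mem_range] at hM
    have h1 := prob_eq (n := n) (M := M) (by omega) Q
    have h2 : ((n.choose 2).choose M : ℝ) * p ^ M * (1 - p) ^ (n.choose 2 - M) *
          prob {π : EdgeOrder n | Q (graphAt π M)} =
          p ^ M * (1 - p) ^ (n.choose 2 - M) * (prob {π : EdgeOrder n | Q (graphAt π M)} *
            ((n.choose 2).choose M : ℝ)) := by ring
    rw [h2, h1]
    have h3 : ∀ A ∈ (Finset.univ : Finset (Finset (Pair n))).filter (fun A => A.card = M),
        (if Q (fromPairs A) then p ^ A.card * (1 - p) ^ (n.choose 2 - A.card) else 0) =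
        (if Q (fromPairs A) then p ^ M * (1 - p) ^ (n.choose 2 - M) else 0) := by
      intro A hA
      rw [(Finset.mem_filter.1 hA).2]
    rw [Finset.sum_congr rfl h3, ← Finset.sum_filter, Finset.sum_const, nsmul_eq_mul, mul_comm]
    congr 3
    ext A
    simp only [Finset.mem_filter, Finset.mem_univ, true_and, Finset.mem_powersetCard,
      Finset.subset_univ]
  · intro A _
    rw [Finset.mem_range]
    have := Finset.card_le_univ A
    rw [hcard] at this
    omega

end Pool.Agent.H95.BL
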