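import Mathlib
import Pool.Agent.H95.BL.Process

open Finset

namespace Pool.Agent.H95.BL

/-- binomial weights -/
noncomputable def bin (E : ℕ) (p : ℝ) (M : ℕ) : ℝ := (E.choose M : ℝ) * p ^ M * (1 - p) ^ (E - M)

lemma bin_nonneg {E : ℕ} {p : ℝ} (hp0 : 0 ≤ p) (hp1 : p ≤ 1) (M : ℕ) : 0 ≤ bin E p M := by
  unfold bin
  have : 0 ≤ 1 - p := by linarith
  positivity

lemma bin_pos {E : ℕ} {p : ℝ} (hp0 : 0 < p) (hp1 : p < 1) {M : ℕ} (hM : M ≤ E) :
    0 < bin E p M := by
  unfold bin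
  have h1 : 0 < 1 - p := by linarith
  have h2 : 0 < E.choose M := Nat.choose_pos hM
  positivity

lemma bin_eval (E : ℕ) (p : ℝ) (M : ℕ) : (bernsteinPolynomial ℝ E M).eval p = bin E p M := by
  simp [bernsteinPolynomial, bin]

lemma sum_bin (E : ℕ) (p : ℝ) : ∑ M ∈ Finset.range (E + 1), bin E p M = 1 := by
  have h := congrArg (Polynomial.eval p) (bernsteinPolynomial.sum ℝ E)
  rw [Polynomial.eval_finsetSum, Polynomial.eval_one] at h
  simpa only [bin_eval] using h

lemma var_bin (E : ℕ) (p : ℝ) :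
    ∑ M ∈ Finset.range (E + 1), (E * p - M) ^ 2 * bin E p M = E * p * (1 - p) := by
  have h := congrArg (Polynomial.eval p) (bernsteinPolynomial.variance ℝ E)
  rw [Polynomial.eval_finsetSum] at h
  simp only [Polynomial.eval_mul, Polynomial.eval_pow, Polynomial.eval_sub, Polynomial.eval_smul,
    Polynomial.eval_X, Polynomial.eval_natCast, bin_eval, Polynomial.eval_one, nsmul_eq_mul,
    Polynomial.eval_natCast] at h
  exact h

lemma tail_bin {E : ℕ} {p : ℝ} (hp0 : 0 ≤ p) (hp1 : p ≤ 1) {l : ℝ} (hl : 0 < l)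
    (S : Finset ℕ) (hS : S ⊆ Finset.range (E + 1)) (hd : ∀ M ∈ S, l ≤ |(E : ℝ) * p - M|) :
    ∑ M ∈ S, bin E p M ≤ E * p / l ^ 2 := by
  rw [le_div_iff₀ (by positivity), Finset.sum_mul]
  calc ∑ M ∈ S, bin E p M * l ^ 2 ≤ ∑ M ∈ S, (E * p - M) ^ 2 * bin E p M := by
        apply Finset.sum_le_sum
        intro M hM
        rw [mul_comm]
        apply mul_le_mul_of_nonneg_right _ (bin_nonneg hp0 hp1 M)
        rw [← sq_abs ((E : ℝ) * p - M)]
        exact pow_le_pow_left₀ hl.le (hd M hM) 2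
    _ ≤ ∑ M ∈ Finset.range (E + 1), (E * p - M) ^ 2 * bin E p M := by
        apply Finset.sum_le_sum_of_subset_of_nonneg hS
        intro M _ _
        exact mul_nonneg (sq_nonneg _) (bin_nonneg hp0 hp1 M)
    _ = E * p * (1 - p) := var_bin E p
    _ ≤ E * p := by
        have : 0 ≤ (E : ℝ) * p := by positivity
        nlinarith

lemma prob_nonneg {n : ℕ} (A : Set (EdgeOrder n)) : 0 ≤ prob A := by
  unfold prob; positivity

lemma prob_mono {n : ℕ} {A B : Set (EdgeOrder n)} (h : A ⊆ B) : prob A ≤ prob B := by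
  unfold prob
  apply div_le_div_of_nonneg_right _ (by positivity)
  exact_mod_cast Set.ncard_le_ncard h (Set.toFinite _)

lemma prob_univ {n : ℕ} : prob (Set.univ : Set (EdgeOrder n)) = 1 := by
  unfold prob
  rw [Set.ncard_univ]
  have := card_orders n
  exact div_self (by exact_mod_cast this.ne')

lemma prob_le_one {n : ℕ} (A : Set (EdgeOrder n)) : prob A ≤ 1 := by
  rw [← prob_univ (n := n)]; exact prob_mono (Set.subset_univ _)

lemma prob_union_le {n : ℕ} (A B : Set (EdgeOrder n)) : prob (A ∪ B) ≤ prob A + prob B := by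
  unfold prob
  rw [← add_div]
  apply div_le_div_of_nonneg_right _ (by positivity)
  exact_mod_cast Set.ncard_union_le A B

lemma prob_compl {n : ℕ} (A : Set (EdgeOrder n)) : prob Aᶜ = 1 - prob A := by
  have h := card_orders n
  have h1 := Set.ncard_add_ncard_compl A (Set.toFinite _) (Set.toFinite _)
  unfold prob
  have h2 : ((Nat.card (EdgeOrder n) : ℕ) : ℝ) ≠ 0 := by exact_mod_cast h.ne'
  field_simp
  rw [← h1]; push_cast; ring

/-- If the binomial mass of `S` is at least `1/2` then some `M ∈ S` inherits the bound. -/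
lemma exists_M {n : ℕ} {p : ℝ} (hp0 : 0 < p) (hp1 : p < 1) (Q : SimpleGraph (Fin n) → Prop)
    (S : Finset ℕ) (hS : S ⊆ Finset.range (n.choose 2 + 1))
    (hm : 1 / 2 ≤ ∑ M ∈ S, bin (n.choose 2) p M) :
    ∃ M ∈ S, prob {π : EdgeOrder n | Q (graphAt π M)} ≤ 2 * Pr p (fun x : Sp n => Q (gr x)) := by
  set ε := Pr p (fun x : Sp n => Q (gr x)) with hε
  have hε0 : 0 ≤ ε := Pr_nonneg hp0.le hp1.le _
  have h1 : ∑ M ∈ S, bin (n.choose 2) p M * prob {π : EdgeOrder n | Q (graphAt π M)} ≤ ε := by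
    rw [hε, transfer p Q]
    apply Finset.sum_le_sum_of_subset_of_nonneg hS
    intro M _ _
    exact mul_nonneg (bin_nonneg hp0.le hp1.le M) (prob_nonneg _)
  have h2 : ∑ M ∈ S, bin (n.choose 2) p M * prob {π : EdgeOrder n | Q (graphAt π M)} ≤
      ∑ M ∈ S, bin (n.choose 2) p M * (2 * ε) := by
    rw [← Finset.sum_mul]
    nlinarith
  have hne : S.Nonempty := by
    rw [Finset.nonempty_iff_ne_empty]
    rintro rfl
    simp at hm
    norm_num at hm
  obtain ⟨M, hM, hle⟩ := Finset.exists_le_of_sum_le hne h2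
  refine ⟨M, hM, ?_⟩
  have hpos : 0 < bin (n.choose 2) p M := by
    apply bin_pos hp0 hp1
    have := Finset.mem_range.1 (hS hM)
    omega
  exact le_of_mul_le_mul_left hle hpos

/-- some early time inherits the bound -/
lemma exists_M_le {n : ℕ} {p : ℝ} (hp0 : 0 < p) (hp1 : p < 1) (Q : SimpleGraph (Fin n) → Prop)
    {l : ℝ} (hl : 0 < l) (hl2 : 2 * ((n.choose 2 : ℕ) : ℝ) * p ≤ l ^ 2) :
    ∃ M : ℕ, M ≤ n.choose 2 ∧ (M : ℝ) ≤ ((n.choose 2 : ℕ) : ℝ) * p + l ∧
      prob {π : EdgeOrder n | Q (graphAt π M)} ≤ 2 * Pr p (fun x : Sp n => Q (gr x)) := by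
  classical
  set E := n.choose 2 with hE
  set S := (Finset.range (E + 1)).filter (fun M : ℕ => (M : ℝ) ≤ (E : ℝ) * p + l) with hS
  have h1 := tail_bin (E := E) hp0.le hp1.le hl
    ((Finset.range (E + 1)).filter (fun M : ℕ => ¬ (M : ℝ) ≤ (E : ℝ) * p + l))
    (Finset.filter_subset _ _) (by
      intro M hM
      have := (Finset.mem_filter.1 hM).2
      push Not at this
      rw [abs_of_nonpos (by linarith)]
      linarith)
  have h2 : (E : ℝ) * p / l ^ 2 ≤ 1 / 2 := by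
    rw [div_le_div_iff₀ (by positivity) (by norm_num)]; linarith
  have h3 := Finset.sum_filter_add_sum_filter_not (Finset.range (E + 1))
    (fun M : ℕ => (M : ℝ) ≤ (E : ℝ) * p + l) (bin E p)
  rw [sum_bin] at h3
  obtain ⟨M, hM, hle⟩ := exists_M hp0 hp1 Q S (Finset.filter_subset _ _) (by linarith)
  have h4 := Finset.mem_filter.1 hM
  exact ⟨M, by have := Finset.mem_range.1 h4.1; omega, h4.2, hle⟩

/-- some late time inherits the bound -/
lemma exists_M_ge {n : ℕ} {p : ℝ} (hp0 : 0 < p) (hp1 : p < 1) (Q : SimpleGraph (Fin n) → Prop)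
    {l : ℝ} (hl : 0 < l) (hl2 : 2 * ((n.choose 2 : ℕ) : ℝ) * p ≤ l ^ 2) :
    ∃ M : ℕ, M ≤ n.choose 2 ∧ ((n.choose 2 : ℕ) : ℝ) * p - l ≤ (M : ℝ) ∧
      prob {π : EdgeOrder n | Q (graphAt π M)} ≤ 2 * Pr p (fun x : Sp n => Q (gr x)) := by
  classical
  set E := n.choose 2 with hE
  set S := (Finset.range (E + 1)).filter (fun M : ℕ => (E : ℝ) * p - l ≤ (M : ℝ)) with hS
  have h1 := tail_bin (E := E) hp0.le hp1.le hl
    ((Finset.range (E + 1)).filter (fun M : ℕ => ¬ (E : ℝ) * p - l ≤ (M : ℝ)))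
    (Finset.filter_subset _ _) (by
      intro M hM
      have := (Finset.mem_filter.1 hM).2
      push Not at this
      rw [abs_of_nonneg (by linarith)]
      linarith)
  have h2 : (E : ℝ) * p / l ^ 2 ≤ 1 / 2 := by
    rw [div_le_div_iff₀ (by positivity) (by norm_num)]; linarith
  have h3 := Finset.sum_filter_add_sum_filter_not (Finset.range (E + 1))
    (fun M : ℕ => (E : ℝ) * p - l ≤ (M : ℝ)) (bin E p)
  rw [sum_bin] at h3
  obtain ⟨M, hM, hle⟩ := exists_M hp0 hp1 Q S (Finset.filter_subset _ _) (by linarith)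
  have h4 := Finset.mem_filter.1 hM
  exact ⟨M, by have := Finset.mem_range.1 h4.1; omega, h4.2, hle⟩

end Pool.Agent.H95.BL
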