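import Mathlib
import Pool.Agent.H95.BL.Binom

open Finset

namespace Pool.Agent.H95.BL

/-- restriction to the first `n` vertices -/
def restr {n m : ℕ} (h : n ≤ m) (x : Sp m) : Sp n := fun v u =>
  x (Fin.castLE h v) (Fin.castLE h u)

lemma Pr_restr_eq {n m : ℕ} (h : n ≤ m) (p : ℝ) (x' : Sp n) :
    Pr p (fun x : Sp m => restr h x = x') = wt (bw p) x' := by
  classical
  set ι : Fin n × Fin n → Fin m × Fin m := fun e => (Fin.castLE h e.1, Fin.castLE h e.2) with hι
  have hιinj : Function.Injective ι := by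
    rintro ⟨a, b⟩ ⟨c, d⟩ hh
    simp only [hι, Prod.mk.injEq] at hh
    exact Prod.ext (Fin.castLE_injective h hh.1) (Fin.castLE_injective h hh.2)
  set F : Finset (Fin m × Fin m) := Finset.univ.image ι with hF
  set b : Fin m × Fin m → Bool := fun e =>
    if hh : e.1.val < n ∧ e.2.val < n then x' ⟨e.1, hh.1⟩ ⟨e.2, hh.2⟩ else false with hb
  have hbι : ∀ e, b (ι e) = x' e.1 e.2 := by
    rintro ⟨v, u⟩
    simp only [hb, hι, Fin.val_castLE]
    rw [dif_pos ⟨v.2, u.2⟩]
  have h1 : ∀ x : Sp m, restr h x = x' ↔ ∀ e ∈ F, x e.1 e.2 = b e := by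
    intro x
    constructor
    · intro hx e he
      obtain ⟨⟨v, u⟩, _, rfl⟩ := Finset.mem_image.1 he
      rw [hbι, ← hx]
      rfl
    · intro hx
      funext v u
      have := hx (ι (v, u)) (Finset.mem_image_of_mem _ (Finset.mem_univ _))
      rw [hbι] at this
      exact this
  simp only [h1]
  rw [Pr_cylinder F b, hF, Finset.prod_image (fun a _ b _ hab => hιinj hab)]
  simp only [hbι, wt, bw]
  rw [← Finset.prod_product']
  rfl

/-- marginals of the independent model -/
lemma Pr_restr {n m : ℕ} (h : n ≤ m) (p : ℝ) (Q : Sp n → Prop) :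
    Pr p (fun x : Sp m => Q (restr h x)) = Pr p Q := by
  classical
  rw [Pr_eq_sum_ite (p := p) Q]
  have h1 : ∀ x' : Sp n, (if Q x' then wt (bw p) x' else 0) =
      ∑ x : Sp m, if restr h x = x' then (if Q (restr h x) then wt (bw p) x else 0) else 0 := by
    intro x'
    rw [← Pr_restr_eq h p x', Pr_eq_sum_ite]
    split_ifs with hq
    · apply Finset.sum_congr rfl
      intro x _
      by_cases hx : restr h x = x'
      · rw [if_pos hx, if_pos hx, hx, if_pos hq]
      · rw [if_neg hx, if_neg hx]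
    · symm
      apply Finset.sum_eq_zero
      intro x _
      by_cases hx : restr h x = x'
      · rw [if_pos hx, hx, if_neg hq]
      · rw [if_neg hx]
  simp only [h1]
  rw [Finset.sum_comm, Pr_eq_sum_ite]
  apply Finset.sum_congr rfl
  intro x _
  rw [Finset.sum_ite_eq]
  simp

lemma gr_restr_adj {n m : ℕ} (h : n ≤ m) (x : Sp m) (u v : Fin n) :
    (gr (restr h x)).Adj u v ↔ (gr x).Adj (Fin.castLE h u) (Fin.castLE h v) := by
  have hmono : Monotone (Fin.castLE h) := (Fin.strictMono_castLE h).monotone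
  rw [gr_adj, gr_adj]
  have h1 : ed (restr h x) u v = ed x (Fin.castLE h u) (Fin.castLE h v) := by
    simp only [ed, restr]
    rw [hmono.map_max, hmono.map_min]
  rw [h1]
  have h2 : Fin.castLE h u ≠ Fin.castLE h v ↔ u ≠ v := (Fin.castLE_injective h).ne_iff
  rw [h2]

lemma HasBil_of_restr {n m : ℕ} (h : n ≤ m) (x : Sp m) {K : ℕ} (hx : HasBil (gr (restr h x)) K) :
    HasBil (gr x) K := by
  classical
  obtain ⟨W, hW1, hW2, hW3, hW4⟩ := hx
  set ι : Fin n ↪ Fin m := Fin.castLEEmb h with hι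
  refine ⟨fun i => (W i).map ι, ?_, ?_, ?_, ?_⟩
  · intro i; exact (hW1 i).map
  · intro i j hij
    rw [Finset.disjoint_map]
    exact hW2 i j hij
  · intro i u hu v hv
    obtain ⟨u', hu', rfl⟩ := Finset.mem_map.1 hu
    obtain ⟨v', hv', rfl⟩ := Finset.mem_map.1 hv
    have := hW3 i u' hu' v' hv'
    rw [gr_restr_adj] at this
    exact this
  · intro i j hij
    have hc := hW4 i j hij
    set S : Set (Fin n) := (W i : Set (Fin n)) ∪ (W j : Set (Fin n)) with hS
    have hST : (((W i).map ι : Finset (Fin m)) : Set (Fin m)) ∪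
        (((W j).map ι : Finset (Fin m)) : Set (Fin m)) = ι '' S := by
      rw [Finset.coe_map, Finset.coe_map, hS, Set.image_union]
    rw [hST]
    let f : ((gr (restr h x)).induce S) →g ((gr x).induce (ι '' S)) :=
      { toFun := fun v => ⟨ι v.1, Set.mem_image_of_mem _ v.2⟩
        map_rel' := by
          intro a b hab
          simp only [SimpleGraph.comap_adj, Function.Embedding.subtype_apply] at hab ⊢
          exact (gr_restr_adj h x a.1 b.1).1 hab }
    apply SimpleGraph.Connected.map f _ hc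
    rintro ⟨v, u, hu, rfl⟩
    exact ⟨⟨u, hu⟩, rfl⟩

lemma Colorable_restr {n m : ℕ} (h : n ≤ m) (x : Sp m) {K : ℕ} (hx : (gr x).Colorable K) :
    (gr (restr h x)).Colorable K := by
  obtain ⟨c⟩ := hx
  exact ⟨SimpleGraph.Coloring.mk (fun v => c (Fin.castLE h v)) (by
    intro u v huv
    rw [gr_restr_adj] at huv
    exact c.valid huv)⟩

lemma Pr_bil_mono {n m : ℕ} (h : n ≤ m) {p : ℝ} (hp0 : 0 ≤ p) (hp1 : p ≤ 1) (K : ℕ) :
    Pr p (fun x : Sp m => ¬ HasBil (gr x) K) ≤ Pr p (fun x : Sp n => ¬ HasBil (gr x) K) := by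
  rw [← Pr_restr h p]
  apply Pr_mono hp0 hp1
  intro x hx hx'
  exact hx (HasBil_of_restr h x hx')

lemma Pr_col_mono {n m : ℕ} (h : n ≤ m) {p : ℝ} (hp0 : 0 ≤ p) (hp1 : p ≤ 1) (K : ℕ) :
    Pr p (fun x : Sp n => ¬ (gr x).Colorable K) ≤ Pr p (fun x : Sp m => ¬ (gr x).Colorable K) := by
  rw [← Pr_restr h p]
  apply Pr_mono hp0 hp1
  intro x hx hx'
  exact hx (Colorable_restr h x hx')

end Pool.Agent.H95.BL
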