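import Mathlib
import Pool.Agent.H95.BL.Marg
import Pool.Agent.H95.BL.BilProb
import Pool.Agent.H95.BL.ColProb

open Finset Filter Topology

namespace Pool.Agent.H95.BL

lemma poly_exp_tendsto (k : ℕ) {c : ℝ} (hc : 0 < c) (C : ℝ) :
    Tendsto (fun N : ℕ => (4 * (Real.exp 1 * Real.sqrt N) ^ k * ((N : ℝ) + 1) ^ (k * k)) *
      Real.exp (C - c * N)) atTop (𝓝 0) := by
  have h1 : Tendsto (fun x : ℝ => x ^ (k + k * k) * Real.exp (-c * x)) atTop (𝓝 0) := by
    have := Real.tendsto_pow_mul_exp_neg_atTop_nhds_zero (k + k * k)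
    have h2 : Tendsto (fun x : ℝ => c * x) atTop atTop := tendsto_id.const_mul_atTop hc
    have h3 := (this.comp h2).const_mul ((1 / c) ^ (k + k * k))
    rw [mul_zero] at h3
    refine h3.congr (fun x => ?_)
    simp only [Function.comp_apply]
    rw [mul_pow, ← mul_assoc, ← mul_assoc, ← mul_pow, one_div_mul_cancel hc.ne', one_pow, one_mul,
      neg_mul]
  have h2 : Tendsto (fun N : ℕ => ((N : ℝ) + 1)) atTop atTop :=
    tendsto_natCast_atTop_atTop.atTop_add tendsto_const_nhds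
  have h3 := (h1.comp h2).const_mul (4 * Real.exp 1 ^ k * Real.exp (C + c))
  rw [mul_zero] at h3
  refine squeeze_zero (fun N => by positivity) (fun N => ?_) h3
  simp only [Function.comp_apply]
  have hN : (0 : ℝ) ≤ N := by positivity
  have hs : Real.sqrt N ≤ (N : ℝ) + 1 := by
    rw [Real.sqrt_le_left (by linarith)]
    nlinarith
  have h4 : (Real.exp 1 * Real.sqrt N) ^ k ≤ Real.exp 1 ^ k * ((N : ℝ) + 1) ^ k := by
    rw [← mul_pow]
    apply pow_le_pow_left₀ (by positivity)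
    apply mul_le_mul_of_nonneg_left hs (by positivity)
  have h5 : Real.exp (C - c * N) = Real.exp (C + c) * Real.exp (-c * ((N : ℝ) + 1)) := by
    rw [← Real.exp_add]; congr 1; ring
  rw [h5, pow_add]
  calc 4 * (Real.exp 1 * Real.sqrt N) ^ k * ((N : ℝ) + 1) ^ (k * k) *
        (Real.exp (C + c) * Real.exp (-c * ((N : ℝ) + 1)))
      ≤ 4 * (Real.exp 1 ^ k * ((N : ℝ) + 1) ^ k) * ((N : ℝ) + 1) ^ (k * k) *
        (Real.exp (C + c) * Real.exp (-c * ((N : ℝ) + 1))) := by gcongr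
    _ = _ := by ring

/-- the `k`-partition factor of the second moment bound -/
lemma base_le {k N : ℕ} {p a : ℝ} (hk : 0 < k) (hp0 : 0 ≤ p) (hp : p ≤ 1 / 100)
    (ha : p * N ≤ a) :
    ((k : ℝ) - 1 + (1 - p)⁻¹ ^ ((N : ℝ) / 2)) / k ≤ Real.exp (Real.exp (0.51 * a) / k) := by
  have hkpos : (0 : ℝ) < k := by exact_mod_cast hk
  have hN : (0 : ℝ) ≤ N := by positivity
  have h1p : 0 < 1 - p := by linarith
  have h1 : (1 - p)⁻¹ ≤ Real.exp (1.02 * p) := by
    have h2 : 1 + 1.02 * p ≤ Real.exp (1.02 * p) := by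
      have := Real.add_one_le_exp (1.02 * p); linarith
    refine le_trans ?_ h2
    rw [inv_le_iff_one_le_mul₀ h1p]
    nlinarith
  have h2 : (1 - p)⁻¹ ^ ((N : ℝ) / 2) ≤ Real.exp (0.51 * a) := by
    calc (1 - p)⁻¹ ^ ((N : ℝ) / 2) ≤ (Real.exp (1.02 * p)) ^ ((N : ℝ) / 2) := by
          apply Real.rpow_le_rpow (by positivity) h1 (by positivity)
      _ = Real.exp (1.02 * p * ((N : ℝ) / 2)) := by rw [← Real.exp_mul]
      _ ≤ Real.exp (0.51 * a) := by
          apply Real.exp_le_exp.2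
          nlinarith
  have h3 : ((k : ℝ) - 1 + (1 - p)⁻¹ ^ ((N : ℝ) / 2)) / k ≤ Real.exp (0.51 * a) / k + 1 := by
    rw [div_add_one hkpos.ne']
    exact div_le_div_of_nonneg_right (by linarith) hkpos.le
  exact h3.trans (Real.add_one_le_exp _)

lemma tendsto_natDiv {k : ℕ} (hk : 0 < k) : Tendsto (fun n : ℕ => n / k) atTop atTop :=
  Nat.tendsto_div_const_atTop hk.ne'

lemma holes_aux {k N n h : ℕ} {p d : ℝ} (hk : 0 < k) (hp0 : 0 < p) (hp1 : p ≤ 1)
    (hpn : p * n = d) (c2 : 1300 ≤ d / k) (hkN : (n : ℝ) ≤ k * N + k) (hN1 : (1 : ℝ) ≤ N)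
    (hN2 : (20 : ℝ) * k ^ 2 ≤ N) (hhr : (N : ℝ) / 20 ≤ h) :
    (k : ℝ) ^ 2 * 4 ^ N * (1 - p) ^ (h * h) ≤ 1 / 4 := by
  have hkpos : (0 : ℝ) < k := by exact_mod_cast hk
  have e1 : 1 - p ≤ Real.exp (-p) := by
    have := Real.add_one_le_exp (-p); linarith
  have e2 : (1 - p) ^ (h * h) ≤ Real.exp (-(1.625 * N)) := by
    calc (1 - p) ^ (h * h) ≤ (Real.exp (-p)) ^ (h * h) :=
          pow_le_pow_left₀ (by linarith) e1 _
      _ = Real.exp (-(p * (h * h))) := by
          rw [← Real.exp_nat_mul]; congr 1; push_cast; ring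
      _ ≤ _ := by
          apply Real.exp_le_exp.2
          have e3 : (N : ℝ) / 20 * (N / 20) ≤ h * h := by
            apply mul_self_le_mul_self (by positivity) hhr
          have e4 : (n : ℝ) ≤ 2 * k * N := by
            have := mul_le_mul_of_nonneg_left hN1 hkpos.le
            linarith
          have e5 : 1300 * k ≤ d := by rwa [le_div_iff₀ hkpos] at c2
          have e6 : 1300 * (k : ℝ) ≤ p * (2 * k * N) := by
            calc 1300 * (k : ℝ) ≤ d := e5
              _ = p * n := hpn.symm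
              _ ≤ _ := mul_le_mul_of_nonneg_left e4 hp0.le
          have e7 : 650 ≤ p * N := by
            by_contra hlt
            push Not at hlt
            have : p * N * (2 * k) < 650 * (2 * k) :=
              mul_lt_mul_of_pos_right hlt (by positivity)
            linarith
          have e8 : 1.625 * (N : ℝ) ≤ p * (N / 20 * (N / 20)) := by
            have := mul_le_mul_of_nonneg_right e7 (by positivity : (0 : ℝ) ≤ N / 400)
            linarith
          have := mul_le_mul_of_nonneg_left e3 hp0.le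
          linarith
  have e3 : (4 : ℝ) ^ N ≤ Real.exp (1.4 * N) := by
    have : (4 : ℝ) ≤ Real.exp 1.4 := by
      have h2 : (2 : ℝ) ≤ Real.exp 0.7 := by
        rw [← Real.log_le_iff_le_exp (by norm_num)]
        have := Real.log_two_lt_d9
        linarith
      have : Real.exp 1.4 = Real.exp 0.7 * Real.exp 0.7 := by
        rw [← Real.exp_add]; norm_num
      rw [this]
      calc (4 : ℝ) = 2 * 2 := by norm_num
        _ ≤ _ := mul_le_mul h2 h2 (by norm_num) (by positivity)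
    calc (4 : ℝ) ^ N ≤ (Real.exp 1.4) ^ N := pow_le_pow_left₀ (by norm_num) this _
      _ = _ := by rw [← Real.exp_nat_mul]; congr 1; ring
  have e4 : (k : ℝ) ^ 2 * 4 ≤ Real.exp (0.225 * N) := by
    have := Real.add_one_le_exp (0.225 * (N : ℝ))
    linarith
  calc (k : ℝ) ^ 2 * 4 ^ N * (1 - p) ^ (h * h)
      ≤ (k : ℝ) ^ 2 * Real.exp (1.4 * N) * Real.exp (-(1.625 * N)) := by
        gcongr
    _ = (k : ℝ) ^ 2 * Real.exp (-(0.225 * N)) := by
        rw [mul_assoc, ← Real.exp_add]; congr 2; ring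
    _ ≤ 1 / 4 := by
        rw [Real.exp_neg, ← div_eq_mul_inv, div_le_iff₀ (Real.exp_pos _)]
        linarith

lemma cls_aux {k N h r s x0 : ℕ} (hh : h = N / 20 + 1) (hx0 : x0 = k * N / 1000) (hr : r = x0 + 1)
    (c3 : k ≤ 25 * s) : x0 + r ≤ (h + 1) * (s + 1) := by
  have e1 : N + 20 ≤ 20 * (h + 1) := by omega
  have e2 : k * N ≤ 25 * s * N := Nat.mul_le_mul_right _ c3
  have e3 : 20 * ((h + 1) * (s + 1)) ≥ (N + 20) * (s + 1) := by
    rw [← mul_assoc]; exact Nat.mul_le_mul_right _ e1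
  have e4 : (N + 20) * (s + 1) = s * N + N + 20 * s + 20 := by ring
  have e5 : 1000 * x0 ≤ k * N := by rw [hx0]; exact Nat.mul_div_le _ _
  have e6 : 25 * s * N = 25 * (s * N) := by ring
  rw [e6] at e2
  rw [e4] at e3
  clear hh hx0 e4 e6 e1 c3
  generalize s * N = z at *
  generalize (h + 1) * (s + 1) = w at *
  generalize k * N = v at *
  omega

lemma sq_aux {y x : ℝ} (hy : 0 < y) (hx : 0 ≤ x) (e1 : y / 1000 - 1 ≤ x) :
    y * (1 / 10 ^ 6) - 1 ≤ x ^ 2 / y := by
  rw [le_div_iff₀ hy]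
  by_cases hcase : y / 1000 - 1 ≤ 0
  · nlinarith
  · push Not at hcase
    have : (y / 1000 - 1) ^ 2 ≤ x ^ 2 := pow_le_pow_left₀ hcase.le e1 2
    nlinarith

/-- bilinked collections: asymptotic form -/
theorem bil_tendsto {k K s : ℕ} (hkKs : k = K + s) (hk : 0 < k) {d : ℝ} (hd : 0 < d)
    (c1 : (k : ℝ) * Real.exp (-(0.84 * (d / k))) ≤ (1 / 8) ^ 1000) (c2 : 1300 ≤ d / k)
    (c3 : k ≤ 25 * s) (c4 : Real.exp (0.51 * (d / k)) / k ≤ 1 / (4 * 10 ^ 6)) :
    Tendsto (fun n : ℕ => Pr (d / n) (fun x : Sp n => ¬ HasBil (gr x) K)) atTop (𝓝 0) := by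
  have hkpos : (0 : ℝ) < k := by exact_mod_cast hk
  have hc : (0 : ℝ) < 3 / (4 * 10 ^ 6) * k := by positivity
  have hlim := (poly_exp_tendsto k hc 1).comp (tendsto_natDiv hk)
  have hev : ∀ᶠ n : ℕ in atTop, 500 ≤ n / k ∧ 20 * k ^ 2 ≤ n / k ∧ 100 * d ≤ n := by
    have e1 := (tendsto_natDiv hk).eventually_ge_atTop 500
    have e2 := (tendsto_natDiv hk).eventually_ge_atTop (20 * k ^ 2)
    have e3 := (tendsto_natCast_atTop_atTop (R := ℝ)).eventually_ge_atTop (100 * d)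
    filter_upwards [e1, e2, e3] with n h1 h2 h3
    exact ⟨h1, h2, h3⟩
  refine tendsto_of_tendsto_of_tendsto_of_le_of_le' tendsto_const_nhds hlim ?_ ?_
  · filter_upwards [hev] with n ⟨h1, h2, h3⟩
    have hn0 : (0 : ℝ) < n := by linarith
    exact Pr_nonneg (by positivity) (by rw [div_le_one hn0]; linarith) _
  filter_upwards [hev] with n ⟨h1, h2, h3⟩
  have hn0 : (0 : ℝ) < n := by linarith
  set N := n / k with hNdef
  have hNpos : 0 < N := by omega
  have hkN : k * N ≤ n := Nat.mul_div_le n k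
  have hkN' : n < k * N + k := by
    have := Nat.lt_mul_div_succ n hk
    rw [← hNdef, mul_add, mul_one] at this
    exact this
  have hkNr : (k : ℝ) * N ≤ n := by exact_mod_cast hkN
  have hkNr' : (n : ℝ) ≤ k * N + k := by exact_mod_cast hkN'.le
  have hNr : (500 : ℝ) ≤ N := by exact_mod_cast h1
  have hN2 : (20 : ℝ) * k ^ 2 ≤ N := by exact_mod_cast h2
  set p : ℝ := d / n with hp
  have hp0 : 0 < p := by positivity
  have hp1 : p ≤ 1 / 100 := by
    rw [hp, div_le_iff₀ hn0]; linarith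
  have hpn : p * n = d := by rw [hp]; field_simp
  set h := N / 20 + 1 with hh
  have hh3 : 3 * h ≤ N := by omega
  have hh4 : 4 * h ≤ N := by omega
  have hhr : (N : ℝ) / 20 ≤ h := by
    have : N ≤ 20 * h := by omega
    have : (N : ℝ) ≤ 20 * h := by exact_mod_cast this
    linarith
  have hhr2 : (h : ℝ) ≤ N / 20 + 1 := by
    have : 20 * h ≤ N + 20 := by omega
    have : (20 : ℝ) * h ≤ N + 20 := by exact_mod_cast this
    linarith
  have hsub : ((N - 3 * h : ℕ) : ℝ) = (N : ℝ) - 3 * h := by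
    rw [Nat.cast_sub hh3]; push_cast; ring
  -- the base
  have hb1 : (1 - p) ^ (N - 3 * h) ≤ Real.exp (-(0.84 * (d / k))) := by
    have e1 : 1 - p ≤ Real.exp (-p) := by
      have := Real.add_one_le_exp (-p); linarith
    calc (1 - p) ^ (N - 3 * h) ≤ (Real.exp (-p)) ^ (N - 3 * h) :=
          pow_le_pow_left₀ (by linarith) e1 _
      _ = Real.exp (-(p * (N - 3 * h : ℕ))) := by
          rw [← Real.exp_nat_mul]; congr 1; ring
      _ ≤ _ := by
          apply Real.exp_le_exp.2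
          rw [hsub]
          have e2 : 0.84 * (n : ℝ) ≤ (N - 3 * h) * k := by nlinarith
          have e3 : 0.84 * (d / k) = p * (0.84 * n / k) := by rw [← hpn]; ring
          rw [e3]
          have e4 : 0.84 * n / k ≤ (N : ℝ) - 3 * h := by
            rw [div_le_iff₀ hkpos]; exact e2
          have := mul_le_mul_of_nonneg_left e4 hp0.le
          linarith
  have hb2 : (k : ℝ) * (1 - p) ^ (N - 3 * h) ≤ (1 / 8) ^ 1000 :=
    (mul_le_mul_of_nonneg_left hb1 hkpos.le).trans c1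
  have hb0 : 0 ≤ (k : ℝ) * (1 - p) ^ (N - 3 * h) := by
    have : 0 ≤ 1 - p := by linarith
    positivity
  have hbase : (k : ℝ) * (1 - p) ^ (N - 3 * h) ≤ 1 :=
    hb2.trans (pow_le_one₀ (by norm_num) (by norm_num))
  -- the hole condition
  have hholes : (k : ℝ) ^ 2 * 4 ^ N * (1 - p) ^ (h * h) ≤ 1 / 4 :=
    holes_aux hk hp0 (by linarith) hpn c2 hkNr' (by linarith) hN2 hhr
  -- the certificate condition
  set x0 := k * N / 1000 with hx0
  set r := x0 + 1 with hr
  have hr1 : k * N ≤ 1000 * r := by omega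
  have hcert : (4 : ℝ) ^ (k * N) * ((k : ℝ) * (1 - p) ^ (N - 3 * h)) ^ r ≤ 1 / 4 := by
    have e1 : ((k : ℝ) * (1 - p) ^ (N - 3 * h)) ^ r ≤ (1 / 8) ^ (k * N) := by
      calc ((k : ℝ) * (1 - p) ^ (N - 3 * h)) ^ r ≤ ((1 / 8) ^ 1000) ^ r :=
            pow_le_pow_left₀ hb0 hb2 _
        _ = (1 / 8) ^ (1000 * r) := by rw [← pow_mul]
        _ ≤ (1 / 8) ^ (k * N) := pow_le_pow_of_le_one (by norm_num) (by norm_num) hr1
    calc (4 : ℝ) ^ (k * N) * ((k : ℝ) * (1 - p) ^ (N - 3 * h)) ^ r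
        ≤ (4 : ℝ) ^ (k * N) * (1 / 8) ^ (k * N) := by gcongr
      _ = (1 / 2) ^ (k * N) := by rw [← mul_pow]; norm_num
      _ ≤ (1 / 2) ^ 2 := by
          apply pow_le_pow_of_le_one (by norm_num) (by norm_num)
          nlinarith
      _ = 1 / 4 := by norm_num
  -- the number of classes
  have hs : x0 + r ≤ (h + 1) * (s + 1) := cls_aux hh hx0 hr c3
  have hmain := bil_prob (n := k * N) rfl hNpos hk hp0.le (by linarith) (by omega) hh4 hbase
    hholes hcert hkKs hs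
  simp only [Function.comp_apply]
  refine (Pr_bil_mono hkN hp0.le (by linarith) K).trans (hmain.trans ?_)
  apply mul_le_mul_of_nonneg_left _ (by positivity)
  -- the exponent
  have hpN : p * N ≤ d / k := by
    rw [le_div_iff₀ hkpos]
    calc p * N * k = p * (k * N) := by ring
      _ ≤ p * n := mul_le_mul_of_nonneg_left hkNr hp0.le
      _ = d := hpn
  have hB := base_le hk hp0.le hp1 hpN
  have hB0 : 0 ≤ ((k : ℝ) - 1 + (1 - p)⁻¹ ^ ((N : ℝ) / 2)) / k := by
    have h5 : (1 : ℝ) ≤ k := by exact_mod_cast hk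
    have h6 : (0 : ℝ) ≤ (1 - p)⁻¹ ^ ((N : ℝ) / 2) :=
      Real.rpow_nonneg (inv_nonneg.2 (by linarith)) _
    apply div_nonneg _ hkpos.le
    linarith
  have hB2 : (((k : ℝ) - 1 + (1 - p)⁻¹ ^ ((N : ℝ) / 2)) / k) ^ (k * N) ≤
      Real.exp (k * N * (1 / (4 * 10 ^ 6))) := by
    calc _ ≤ (Real.exp (Real.exp (0.51 * (d / k)) / k)) ^ (k * N) := pow_le_pow_left₀ hB0 hB _
      _ = Real.exp (k * N * (Real.exp (0.51 * (d / k)) / k)) := by
          rw [← Real.exp_nat_mul]; push_cast; rfl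
      _ ≤ _ := by
          apply Real.exp_le_exp.2
          apply mul_le_mul_of_nonneg_left c4 (by positivity)
  have hkN0 : (0 : ℝ) < k * N := by positivity
  have hx : (k * N : ℝ) * (1 / 10 ^ 6) - 1 ≤ (x0 : ℝ) ^ 2 / ((k * N : ℕ) : ℝ) := by
    have e1 : (k : ℝ) * N / 1000 - 1 ≤ x0 := by
      have : k * N ≤ 1000 * x0 + 1000 := by omega
      have : ((k * N : ℕ) : ℝ) ≤ 1000 * x0 + 1000 := by exact_mod_cast this
      push_cast at this
      linarith
    have e0 : (0 : ℝ) ≤ x0 := by positivity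
    push_cast
    exact sq_aux hkN0 e0 e1
  calc (((k : ℝ) - 1 + (1 - p)⁻¹ ^ ((N : ℝ) / 2)) / k) ^ (k * N) *
        Real.exp (-((x0 : ℝ) ^ 2 / ((k * N : ℕ) : ℝ)))
      ≤ Real.exp (k * N * (1 / (4 * 10 ^ 6))) * Real.exp (-((k * N : ℝ) * (1 / 10 ^ 6) - 1)) := by
        gcongr
    _ = Real.exp (1 - 3 / (4 * 10 ^ 6) * k * N) := by
        rw [← Real.exp_add]; congr 1; ring

lemma sq_aux2 {y x D : ℝ} (hy : 0 < y) (hx : 0 ≤ x) (hD : 1 ≤ D) (e1 : y / (2 * D) - 1 ≤ x) :
    y * (1 / (4 * D ^ 2)) - 1 ≤ x ^ 2 / y := by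
  have hDpos : 0 < D := by linarith
  rw [le_div_iff₀ hy]
  set z := y / (2 * D) with hz
  have hyz : y = 2 * D * z := by rw [hz]; field_simp
  have hz0 : 0 < z := by positivity
  have e2 : y * (1 / (4 * D ^ 2)) * y = z ^ 2 := by rw [hyz]; field_simp; ring
  have e3 : (y * (1 / (4 * D ^ 2)) - 1) * y = z ^ 2 - y := by rw [sub_mul, e2, one_mul]
  rw [e3]
  have hyz2 : 2 * z ≤ y := by rw [hyz]; nlinarith
  by_cases hcase : z - 1 ≤ 0
  · nlinarith [sq_nonneg x]
  · push Not at hcase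
    have : (z - 1) ^ 2 ≤ x ^ 2 := pow_le_pow_left₀ hcase.le e1 2
    nlinarith

/-- colourability: asymptotic form -/
theorem col_tendsto {k K t : ℕ} (hkKt : K = k + 2 * t) (hk : 0 < k) (ht : 2 ≤ t) {d : ℝ}
    (hd : 0 < d) {D₀ : ℝ} (hD₀ : D₀ = 3 * d / (2 * t)) (hD1 : 1 ≤ D₀)
    (c5 : 6 * D₀ ≤ 2 ^ (t - 2))
    (c6 : Real.exp (0.52 * (d / k)) / k ≤ 1 / (8 * D₀ ^ 2)) :
    Tendsto (fun n : ℕ => Pr (d / n) (fun x : Sp n => ¬ (gr x).Colorable K)) atTop (𝓝 0) := by
  have hkpos : (0 : ℝ) < k := by exact_mod_cast hk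
  have htpos : (0 : ℝ) < t := by positivity
  have hD0 : 0 < D₀ := by linarith
  have hc : (0 : ℝ) < 1 / (8 * D₀ ^ 2) * k := by positivity
  have hlim1 := (poly_exp_tendsto k hc 1).comp ((tendsto_add_atTop_nat 1).comp (tendsto_natDiv hk))
  have hlim2 : Tendsto (fun n : ℕ => 2 * D₀ / (n : ℝ)) atTop (𝓝 0) :=
    tendsto_const_nhds.div_atTop tendsto_natCast_atTop_atTop
  have hlim := hlim1.add hlim2
  rw [add_zero] at hlim
  have hev : ∀ᶠ n : ℕ in atTop, 51 * k ≤ n ∧ 100 * d ≤ n := by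
    have e1 := eventually_ge_atTop (51 * k)
    have e3 := (tendsto_natCast_atTop_atTop (R := ℝ)).eventually_ge_atTop (100 * d)
    filter_upwards [e1, e3] with n h1 h3
    exact ⟨h1, h3⟩
  refine tendsto_of_tendsto_of_tendsto_of_le_of_le' tendsto_const_nhds hlim ?_ ?_
  · filter_upwards [hev] with n ⟨h1, h3⟩
    have hn0 : (0 : ℝ) < n := by linarith
    exact Pr_nonneg (by positivity) (by rw [div_le_one hn0]; linarith) _
  filter_upwards [hev] with n ⟨h1, h3⟩
  have hn0 : (0 : ℝ) < n := by linarith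
  simp only [Function.comp_apply]
  set N := n / k + 1 with hNdef
  have hNpos : 0 < N := Nat.succ_pos _
  have hkN' : k * N ≤ n + k := by
    rw [hNdef, mul_add, mul_one]
    have := Nat.mul_div_le n k
    omega
  have hkN : n ≤ k * N := by
    have := Nat.lt_mul_div_succ n hk
    rw [← hNdef] at this
    exact this.le
  have hkNr : (n : ℝ) ≤ k * N := by exact_mod_cast hkN
  have hkNr' : (k : ℝ) * N ≤ n + k := by exact_mod_cast hkN'
  have h1r : 51 * (k : ℝ) ≤ n := by exact_mod_cast h1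
  set p : ℝ := d / n with hp
  have hp0 : 0 < p := by positivity
  have hp1 : p ≤ 1 / 100 := by
    rw [hp, div_le_iff₀ hn0]; linarith
  have hpn : p * n = d := by rw [hp]; field_simp
  have hkN0 : (0 : ℝ) < k * N := by positivity
  set y : ℝ := (k : ℝ) * N with hy
  have hcast : ((k * N : ℕ) : ℝ) = y := by rw [hy]; push_cast; ring
  set D : ℝ := Real.exp 1 * p * ((k * N : ℕ) : ℝ) / (2 * t) with hDdef
  have hDD : D ≤ D₀ := by
    rw [hDdef, hD₀, hcast]
    apply div_le_div_of_nonneg_right _ (by positivity)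
    have e1 : y ≤ 1.1 * n := by linarith
    have e2 : p * y ≤ 1.1 * d := by
      calc p * y ≤ p * (1.1 * n) := mul_le_mul_of_nonneg_left e1 hp0.le
        _ = 1.1 * (p * n) := by ring
        _ = 1.1 * d := by rw [hpn]
    have e3 : Real.exp 1 ≤ 2.72 := by
      have := Real.exp_one_lt_d9; linarith
    calc Real.exp 1 * p * y = Real.exp 1 * (p * y) := by ring
      _ ≤ 2.72 * (1.1 * d) := mul_le_mul e3 e2 (by positivity) (by norm_num)
      _ ≤ 3 * d := by linarith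
  have hDnn : 0 ≤ D := by rw [hDdef]; positivity
  set x0 : ℕ := ⌊y / (2 * D₀)⌋₊ with hx0
  have hx0r : (x0 : ℝ) ≤ y / (2 * D₀) := Nat.floor_le (by positivity)
  have hx0r' : y / (2 * D₀) - 1 ≤ x0 := by
    have := Nat.lt_floor_add_one (y / (2 * D₀))
    rw [← hx0] at this
    linarith
  have hh1 : D * x0 / ((k * N : ℕ) : ℝ) ≤ 1 / 2 := by
    rw [hcast, div_le_iff₀ hkN0]
    calc D * x0 ≤ D₀ * (y / (2 * D₀)) := mul_le_mul hDD hx0r (by positivity) hD0.le
      _ = 1 / 2 * y := by field_simp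
  have hh2 : Real.exp 1 * D * (1 / 2) ^ (t - 2) ≤ 1 / 2 := by
    have e3 : Real.exp 1 ≤ 3 := by
      have := Real.exp_one_lt_d9; linarith
    have e4 : Real.exp 1 * D ≤ 3 * D₀ := mul_le_mul e3 hDD hDnn (by norm_num)
    have e5 : Real.exp 1 * D * 2 ≤ 2 ^ (t - 2) := by linarith
    rw [one_div, inv_pow, ← div_eq_mul_inv, div_le_iff₀ (by positivity)]
    linarith
  have hmain := col_prob (n := k * N) rfl hNpos hk hp0.le (by linarith) ht hDdef hh1 hh2
  rw [← hkKt] at hmain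
  refine (Pr_col_mono hkN hp0.le (by linarith) K).trans (hmain.trans ?_)
  apply add_le_add
  swap
  · rw [hcast]
    calc 2 * D / y ≤ 2 * D₀ / y := by gcongr
      _ ≤ 2 * D₀ / n := by gcongr
  apply mul_le_mul_of_nonneg_left _ (by positivity)
  -- the exponent
  have hpN : p * N ≤ 52 / 51 * (d / k) := by
    have e0 : y ≤ 52 / 51 * n := by linarith
    have e1 : p * y ≤ 52 / 51 * d := by
      calc p * y ≤ p * (52 / 51 * n) := mul_le_mul_of_nonneg_left e0 hp0.le
        _ = 52 / 51 * (p * n) := by ring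
        _ = 52 / 51 * d := by rw [hpn]
    have e2 : p * N = p * y / k := by rw [hy]; field_simp
    rw [e2, div_le_iff₀ hkpos]
    calc p * y ≤ 52 / 51 * d := e1
      _ = 52 / 51 * (d / k) * k := by field_simp
  have hB := base_le hk hp0.le hp1 hpN
  have e51 : 0.51 * (52 / 51 * (d / k)) = 0.52 * (d / k) := by ring
  rw [e51] at hB
  have hB0 : 0 ≤ ((k : ℝ) - 1 + (1 - p)⁻¹ ^ ((N : ℝ) / 2)) / k := by
    have h5 : (1 : ℝ) ≤ k := by exact_mod_cast hk
    have h6 : (0 : ℝ) ≤ (1 - p)⁻¹ ^ ((N : ℝ) / 2) :=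
      Real.rpow_nonneg (inv_nonneg.2 (by linarith)) _
    apply div_nonneg _ hkpos.le
    linarith
  have hB2 : (((k : ℝ) - 1 + (1 - p)⁻¹ ^ ((N : ℝ) / 2)) / k) ^ (k * N) ≤
      Real.exp (y * (1 / (8 * D₀ ^ 2))) := by
    calc _ ≤ (Real.exp (Real.exp (0.52 * (d / k)) / k)) ^ (k * N) := pow_le_pow_left₀ hB0 hB _
      _ = Real.exp (y * (Real.exp (0.52 * (d / k)) / k)) := by
          rw [← Real.exp_nat_mul, hcast]
      _ ≤ _ := by
          apply Real.exp_le_exp.2
          apply mul_le_mul_of_nonneg_left c6 (by positivity)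
  have hx : y * (1 / (4 * D₀ ^ 2)) - 1 ≤ (x0 : ℝ) ^ 2 / ((k * N : ℕ) : ℝ) := by
    rw [hcast]
    exact sq_aux2 hkN0 (by positivity) hD1 hx0r'
  calc (((k : ℝ) - 1 + (1 - p)⁻¹ ^ ((N : ℝ) / 2)) / k) ^ (k * N) *
        Real.exp (-((x0 : ℝ) ^ 2 / ((k * N : ℕ) : ℝ)))
      ≤ Real.exp (y * (1 / (8 * D₀ ^ 2))) * Real.exp (-(y * (1 / (4 * D₀ ^ 2)) - 1)) := by
        gcongr
    _ = Real.exp (1 - 1 / (8 * D₀ ^ 2) * k * N) := by
        rw [← Real.exp_add]; congr 1; rw [hy]; field_simp; ring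

end Pool.Agent.H95.BL
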