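import Mathlib
import Pool.Agent.H95.BL.Asymp
import Pool.Agent.H95.BL.Defs

open Finset Filter Topology Asymptotics

namespace Pool.Agent.H95.BL

lemma hasBilinked_of_hasBil {V : Type*} {G : SimpleGraph V} {K : ℕ} (hK : 4 ≤ K) (h : HasBil G K) :
    HasBilinked G K := by
  classical
  obtain ⟨W, hW1, hW2, hW3, hW4⟩ := h
  refine ⟨fun i => (W i : Set V), ⟨fun i => by exact_mod_cast hW1 i, ?_, ?_, hW4⟩, ?_⟩
  · intro i j hij
    exact_mod_cast hW2 i j hij
  · intro i u hu v hv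
    exact hW3 i u (by exact_mod_cast hu) v (by exact_mod_cast hv)
  · rintro ⟨h3, _⟩
    have e1 : (⋃ i, (W i : Set V)) = ((Finset.univ.biUnion W : Finset V) : Set V) := by
      ext v; simp
    have e2 : K ≤ (Finset.univ.biUnion W).card := by
      rw [Finset.card_biUnion (fun i _ j _ hij => hW2 i j hij)]
      calc K = ∑ _i : Fin K, 1 := by simp
        _ ≤ ∑ i : Fin K, (W i).card := Finset.sum_le_sum (fun i _ => (hW1 i).card_pos)
    have e3 : (⋃ i, (W i : Set V)).ncard = (Finset.univ.biUnion W).card := by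
      rw [e1, Set.ncard_coe_finset]
    rw [e3] at h3
    omega

lemma graphAt_mono {n : ℕ} (π : EdgeOrder n) {M M' : ℕ} (h : M ≤ M') :
    graphAt π M ≤ graphAt π M' := by
  intro u v huv
  obtain ⟨i, hi, he⟩ := huv
  exact ⟨i, by omega, he⟩

lemma graphAt_full {n : ℕ} (π : EdgeOrder n) : graphAt π (n.choose 2) = ⊤ := by
  ext u v
  rw [SimpleGraph.top_adj]
  constructor
  · intro h; exact h.ne
  · intro h
    refine ⟨π.symm ⟨s(u, v), by rw [Sym2.mk_isDiag_iff]; exact h⟩, Fin.is_lt _, by simp⟩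

lemma exists_tau {n K : ℕ} (hK : 4 ≤ K) (hn : K + 1 ≤ n) (π : EdgeOrder n) {M₁ M₂ : ℕ}
    (h1 : HasBil (graphAt π M₁) K) (h2 : (graphAt π M₂).Colorable K) :
    ∃ b c : ℕ, IsTauB K π b ∧ IsTauChi K π c ∧ b ≤ M₁ ∧ M₂ ≤ c := by
  classical
  have hb : ∃ M, HasBilinked (graphAt π M) K := ⟨M₁, hasBilinked_of_hasBil hK h1⟩
  have hc : ∃ M, ((K + 1 : ℕ) : ℕ∞) ≤ (graphAt π M).chromaticNumber := by
    refine ⟨n.choose 2, ?_⟩
    rw [graphAt_full, SimpleGraph.chromaticNumber_top, Fintype.card_fin]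
    exact_mod_cast hn
  refine ⟨Nat.find hb, Nat.find hc, ⟨Nat.find_spec hb, fun M hM => Nat.find_min' hb hM⟩,
    ⟨Nat.find_spec hc, fun M hM => Nat.find_min' hc hM⟩,
    Nat.find_min' hb (hasBilinked_of_hasBil hK h1), ?_⟩
  by_contra hlt
  push Not at hlt
  have h3 : (graphAt π (Nat.find hc)).Colorable K := h2.mono_left (graphAt_mono π hlt.le)
  have h4 := Nat.find_spec hc
  have h5 := h3.chromaticNumber_le
  have h6 : ((K + 1 : ℕ) : ℕ∞) ≤ (K : ℕ∞) := h4.trans h5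
  have h7 : K + 1 ≤ K := by exact_mod_cast h6
  omega

/-- the gap theorem from the two random graph statements -/
theorem gap {K : ℕ} (hK : 4 ≤ K) {d₁ d₂ : ℝ} (h1 : 0 < d₁) (h12 : d₁ < d₂)
    (t1 : Tendsto (fun n : ℕ => Pr (d₁ / n) (fun x : Sp n => ¬ HasBil (gr x) K)) atTop (𝓝 0))
    (t2 : Tendsto (fun n : ℕ => Pr (d₂ / n) (fun x : Sp n => ¬ (gr x).Colorable K)) atTop (𝓝 0))
    {δ : ℝ} (hδ : δ ≤ (d₂ - d₁) / 8) :
    Tendsto (fun n : ℕ => prob {π : EdgeOrder n | ∃ b c : ℕ, IsTauB K π b ∧ IsTauChi K π c ∧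
      (b : ℝ) + δ * n ≤ c}) atTop (𝓝 1) := by
  have hlim : Tendsto (fun n : ℕ => 1 - (2 * Pr (d₁ / n) (fun x : Sp n => ¬ HasBil (gr x) K) +
      2 * Pr (d₂ / n) (fun x : Sp n => ¬ (gr x).Colorable K))) atTop (𝓝 1) := by
    have := ((t1.const_mul 2).add (t2.const_mul 2)).const_sub 1
    simpa using this
  set ε : ℝ := (d₂ - d₁) / 16 with hε
  have hε0 : 0 < ε := by rw [hε]; linarith
  refine tendsto_of_tendsto_of_tendsto_of_le_of_le' hlim tendsto_const_nhds ?_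
    (Eventually.of_forall (fun n => prob_le_one _))
  have e1 := eventually_ge_atTop (K + 1)
  have e2 := (tendsto_natCast_atTop_atTop (R := ℝ)).eventually_gt_atTop d₂
  have e3 := (tendsto_natCast_atTop_atTop (R := ℝ)).eventually_ge_atTop (d₂ / ε ^ 2 + 1)
  filter_upwards [e1, e2, e3] with n hn hn2 hn3
  have hd2 : 0 < d₂ := h1.trans h12
  have hn0 : (0 : ℝ) < n := by linarith
  have hn2' : 2 ≤ n := by omega
  have hnr : (2 : ℝ) ≤ n := by exact_mod_cast hn2'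
  set m : ℝ := (n : ℝ) - 1 with hm
  have hm1 : 1 ≤ m := by rw [hm]; linarith
  have hE : ∀ d : ℝ, 2 * ((n.choose 2 : ℕ) : ℝ) * (d / n) = d * m := by
    intro d
    rw [Nat.cast_choose_two, hm]
    field_simp
  have hl : d₂ * m ≤ (ε * m) ^ 2 := by
    have e4 : d₂ / ε ^ 2 ≤ m := by rw [hm]; linarith
    rw [div_le_iff₀ (by positivity)] at e4
    have := mul_le_mul_of_nonneg_right e4 (by linarith : (0 : ℝ) ≤ m)
    calc d₂ * m ≤ m * ε ^ 2 * m := this
      _ = _ := by ring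
  have hl1 : d₁ * m ≤ (ε * m) ^ 2 :=
    (mul_le_mul_of_nonneg_right h12.le (by linarith)).trans hl
  obtain ⟨M₁, hM1E, hM1, hP1⟩ := exists_M_le (n := n) (p := d₁ / n) (by positivity)
    (by rw [div_lt_one hn0]; linarith) (fun G => ¬ HasBil G K) (l := ε * m) (by positivity)
    (by rw [hE]; exact hl1)
  obtain ⟨M₂, hM2E, hM2, hP2⟩ := exists_M_ge (n := n) (p := d₂ / n) (by positivity)
    (by rw [div_lt_one hn0]; linarith) (fun G => ¬ G.Colorable K) (l := ε * m) (by positivity)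
    (by rw [hE]; exact hl)
  have hgap : (M₁ : ℝ) + δ * n ≤ M₂ := by
    have f1 : ((n.choose 2 : ℕ) : ℝ) * (d₁ / n) = d₁ * m / 2 := by linarith [hE d₁]
    have f2 : ((n.choose 2 : ℕ) : ℝ) * (d₂ / n) = d₂ * m / 2 := by linarith [hE d₂]
    rw [f1] at hM1
    rw [f2] at hM2
    have f3 : δ * n ≤ (d₂ - d₁) / 8 * n := mul_le_mul_of_nonneg_right hδ hn0.le
    have f4 : (n : ℝ) = m + 1 := by rw [hm]; ring
    have f5 : (d₂ - d₁) / 8 * n ≤ (d₂ - d₁) / 4 * m := by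
      rw [f4]
      nlinarith
    have f6 : ε * m = (d₂ - d₁) / 16 * m := by rw [hε]
    nlinarith
  have hcompl : {π : EdgeOrder n | ∃ b c : ℕ, IsTauB K π b ∧ IsTauChi K π c ∧
      (b : ℝ) + δ * n ≤ c}ᶜ ⊆ {π | ¬ HasBil (graphAt π M₁) K} ∪
        {π | ¬ (graphAt π M₂).Colorable K} := by
    intro π hπ
    by_contra hnot
    simp only [Set.mem_union, Set.mem_setOf_eq, not_or, not_not] at hnot
    obtain ⟨b, c, hb, hc, hb1, hc1⟩ := exists_tau hK hn π hnot.1 hnot.2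
    apply hπ
    refine ⟨b, c, hb, hc, ?_⟩
    have g1 : (b : ℝ) ≤ M₁ := by exact_mod_cast hb1
    have g2 : (M₂ : ℝ) ≤ c := by exact_mod_cast hc1
    linarith
  have h3 := (prob_mono hcompl).trans (prob_union_le _ _)
  rw [prob_compl] at h3
  linarith

end Pool.Agent.H95.BL
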