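import Mathlib
import Pool.Agent.H95.BL.Final

open Finset Filter Topology Asymptotics

namespace Pool.Agent.H95.BL

lemma tendsto_log_nat : Tendsto (fun K : ℕ => Real.log K) atTop atTop :=
  Real.tendsto_log_atTop.comp tendsto_natCast_atTop_atTop

lemma exp_small {a ε : ℝ} (ha : 0 < a) (hε : 0 < ε) :
    ∀ᶠ K : ℕ in atTop, Real.exp (-(a * Real.log K)) ≤ ε := by
  have h1 : Tendsto (fun u : ℝ => Real.exp (-(a * u))) atTop (𝓝 0) :=
    Real.tendsto_exp_neg_atTop_nhds_zero.comp (tendsto_id.const_mul_atTop ha)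
  exact ((h1.comp tendsto_log_nat).eventually_le_const hε)

lemma exp_small2 {a ε : ℝ} (ha : 0 < a) (hε : 0 < ε) :
    ∀ᶠ K : ℕ in atTop, Real.log K ^ 2 * Real.exp (-(a * Real.log K)) ≤ ε := by
  have h1 : Tendsto (fun u : ℝ => u ^ 2 * Real.exp (-(a * u))) atTop (𝓝 0) := by
    have := Real.tendsto_pow_mul_exp_neg_atTop_nhds_zero 2
    have h2 : Tendsto (fun x : ℝ => a * x) atTop atTop := tendsto_id.const_mul_atTop ha
    have h3 := (this.comp h2).const_mul ((1 / a) ^ 2)
    rw [mul_zero] at h3
    refine h3.congr (fun x => ?_)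
    simp only [Function.comp_apply]
    rw [mul_pow, ← mul_assoc, ← mul_assoc, ← mul_pow, one_div_mul_cancel ha.ne', one_pow, one_mul]
  exact ((h1.comp tendsto_log_nat).eventually_le_const hε)

lemma log_small {a : ℝ} (ha : 0 < a) : ∀ᶠ K : ℕ in atTop, Real.log K ≤ a * K := by
  have h1 := (Real.isLittleO_log_id_atTop.comp_tendsto
    (tendsto_natCast_atTop_atTop (R := ℝ))).def ha
  filter_upwards [h1, eventually_ge_atTop 1] with K hK h0
  simp only [Function.comp_apply, id_eq, Real.norm_eq_abs] at hK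
  rw [abs_of_nonneg (by positivity : (0 : ℝ) ≤ (K : ℝ))] at hK
  exact (le_abs_self _).trans hK

/-- the bilinked side: parameters -/
lemma params_bil : ∀ᶠ K : ℕ in atTop,
    Tendsto (fun n : ℕ => Pr ((1.4 * (K * Real.log K)) / n)
      (fun x : Sp n => ¬ HasBil (gr x) K)) atTop (𝓝 0) := by
  filter_upwards [exp_small (a := 0.12) (ε := (1 / 8) ^ 1000 / 2) (by norm_num) (by positivity),
    exp_small (a := 0.286) (ε := 1 / (4 * 10 ^ 6)) (by norm_num) (by positivity),
    tendsto_log_nat.eventually_ge_atTop 1000, eventually_ge_atTop 1000] with K h1 h2 h3 h4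
  set s := K / 20 with hs
  set k := K + s with hk
  set u := Real.log K with hu
  have hK0 : (0 : ℝ) < K := by
    have : (1000 : ℝ) ≤ K := by exact_mod_cast h4
    linarith
  have hkpos : 0 < k := by omega
  have hkr : (K : ℝ) ≤ k := by
    have : K ≤ k := by omega
    exact_mod_cast this
  have hkr2 : (k : ℝ) ≤ 1.05 * K := by
    have : 20 * k ≤ 21 * K := by omega
    have : (20 : ℝ) * k ≤ 21 * K := by exact_mod_cast this
    linarith
  have hk0 : (0 : ℝ) < k := by linarith
  set d := 1.4 * (K * u) with hd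
  have hd0 : 0 < d := by rw [hd]; positivity
  have hexpu : Real.exp u = K := by rw [hu, Real.exp_log hK0]
  have hdk1 : 4 / 3 * u ≤ d / k := by
    rw [le_div_iff₀ hk0, hd]
    have : 4 / 3 * u * k ≤ 4 / 3 * u * (1.05 * K) :=
      mul_le_mul_of_nonneg_left hkr2 (by positivity)
    linarith
  have hdk2 : d / k ≤ 1.4 * u := by
    rw [div_le_iff₀ hk0, hd]
    have : 1.4 * u * K ≤ 1.4 * u * k := mul_le_mul_of_nonneg_left hkr (by positivity)
    linarith
  refine bil_tendsto (k := k) (s := s) hk hkpos hd0 ?_ (by linarith) (by omega) ?_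
  · calc (k : ℝ) * Real.exp (-(0.84 * (d / k))) ≤ 1.05 * K * Real.exp (-(1.12 * u)) := by
          apply mul_le_mul hkr2 _ (by positivity) (by positivity)
          apply Real.exp_le_exp.2
          linarith
      _ = 1.05 * Real.exp (-(0.12 * u)) := by
          rw [mul_assoc, ← hexpu, ← Real.exp_add]; congr 2; ring
      _ ≤ 1.05 * ((1 / 8) ^ 1000 / 2) := mul_le_mul_of_nonneg_left h1 (by norm_num)
      _ ≤ (1 / 8) ^ 1000 := by
          have hgen : ∀ q : ℝ, 0 ≤ q → 1.05 * (q / 2) ≤ q := by intro q hq; linarith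
          exact hgen _ (by positivity)
  · calc Real.exp (0.51 * (d / k)) / k ≤ Real.exp (0.714 * u) / K := by
          apply div_le_div₀ (by positivity) _ hK0 hkr
          apply Real.exp_le_exp.2
          linarith
      _ = Real.exp (-(0.286 * u)) := by
          rw [← hexpu, ← Real.exp_sub]; congr 1; ring
      _ ≤ _ := h2

/-- the colouring side: parameters -/
lemma params_col : ∀ᶠ K : ℕ in atTop,
    Tendsto (fun n : ℕ => Pr ((1.5 * (K * Real.log K)) / n)
      (fun x : Sp n => ¬ (gr x).Colorable K)) atTop (𝓝 0) := by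
  filter_upwards [exp_small2 (a := 0.17) (ε := 1 / (16 * 10 ^ 4)) (by norm_num) (by positivity),
    log_small (a := 1 / (600 * 60)) (by norm_num),
    tendsto_log_nat.eventually_ge_atTop 1000, eventually_ge_atTop 10000] with K h1 h2 h3 h4
  set t := K / 40 with ht
  set k := K - 2 * t with hk
  set u := Real.log K with hu
  have hKr : (10000 : ℝ) ≤ K := by exact_mod_cast h4
  have hK0 : (0 : ℝ) < K := by linarith
  have hkpos : 0 < k := by omega
  have hkr : 0.95 * (K : ℝ) ≤ k := by
    have : 19 * K ≤ 20 * k := by omega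
    have : (19 : ℝ) * K ≤ 20 * k := by exact_mod_cast this
    linarith
  have hk0 : (0 : ℝ) < k := by linarith
  have htr1 : (t : ℝ) ≤ K / 40 := by
    have : 40 * t ≤ K := by omega
    have : (40 : ℝ) * t ≤ K := by exact_mod_cast this
    linarith
  have htr2 : (K : ℝ) / 41 ≤ t := by
    have : K ≤ 41 * t := by omega
    have : (K : ℝ) ≤ 41 * t := by exact_mod_cast this
    linarith
  have ht0 : (0 : ℝ) < t := by
    have : 0 < (K : ℝ) / 41 := by positivity
    linarith
  set d := 1.5 * (K * u) with hd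
  have hu0 : 0 < u := by linarith
  have hd0 : 0 < d := by rw [hd]; positivity
  have hexpu : Real.exp u = K := by rw [hu, Real.exp_log hK0]
  have hdk2 : d / k ≤ 1.58 * u := by
    rw [div_le_iff₀ hk0, hd]
    have : 1.58 * u * (0.95 * K) ≤ 1.58 * u * k := mul_le_mul_of_nonneg_left hkr (by positivity)
    nlinarith [mul_pos hK0 hu0]
  have hD1 : 1 ≤ 3 * d / (2 * t) := by
    rw [le_div_iff₀ (by positivity), hd]
    nlinarith [mul_le_mul_of_nonneg_left h3 hK0.le]
  have hD2 : 3 * d / (2 * t) ≤ 100 * u := by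
    rw [div_le_iff₀ (by positivity), hd]
    have : 100 * u * (2 * (K / 41)) ≤ 100 * u * (2 * t) :=
      mul_le_mul_of_nonneg_left (by linarith) (by positivity)
    nlinarith [mul_pos hK0 hu0]
  refine col_tendsto (k := k) (t := t) (by omega) hkpos (by omega) hd0 rfl hD1 ?_ ?_
  · have e1 : ((t - 2 : ℕ) : ℝ) + 1 ≤ 2 ^ (t - 2) := by
      have := Nat.lt_two_pow_self (n := t - 2)
      exact_mod_cast this
    have e2 : ((t - 2 : ℕ) : ℝ) = t - 2 := by
      rw [Nat.cast_sub (by omega)]; norm_num
    rw [e2] at e1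
    linarith
  · calc Real.exp (0.52 * (d / k)) / k ≤ Real.exp (0.83 * u) / (0.95 * K) := by
          apply div_le_div₀ (by positivity) _ (by positivity) hkr
          apply Real.exp_le_exp.2
          linarith
      _ ≤ Real.exp (0.83 * u) / (0.5 * K) := by gcongr; norm_num
      _ = 2 * Real.exp (-(0.17 * u)) := by
          rw [← hexpu, mul_comm (0.5 : ℝ), ← div_div, ← Real.exp_sub]
          have : 0.83 * u - u = -(0.17 * u) := by ring
          rw [this]; ring
      _ ≤ 1 / (8 * (100 * u) ^ 2) := by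
          rw [le_div_iff₀ (by positivity)]
          nlinarith
      _ ≤ 1 / (8 * (3 * d / (2 * t)) ^ 2) := by
          apply one_div_le_one_div_of_le (by positivity)
          apply mul_le_mul_of_nonneg_left _ (by norm_num)
          exact pow_le_pow_left₀ (by linarith) hD2 2

end Pool.Agent.H95.BL
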